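import Pool.Agent.MP_da1f04_co.I91.Spec

/-! Layers give a diverse family of copies. -/

set_option autoImplicit false

namespace Pool.Agent.MP_da1f04_co.I91

open Set Function

namespace Asm

lemma pigeon {α β : Type} [Finite α] [Finite β] (S : Set α) (P : β → α → Prop) (k : ℕ)
    (h : ∀ j ∈ S, ∃ u, P u j) (hk : k * Nat.card β < S.ncard) :
    ∃ u, k < {j | j ∈ S ∧ P u j}.ncard := by
  by_contra hh
  push Not at hh
  have := Fintype.ofFinite β
  have h1 : S ⊆ ⋃ u, {j | j ∈ S ∧ P u j} := fun j hj => by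
    obtain ⟨u, hu⟩ := h j hj
    exact mem_iUnion.mpr ⟨u, hj, hu⟩
  have h2 := (ncard_le_ncard h1 (toFinite _)).trans (ncard_iUnion_le_of_fintype _)
  have h3 := h2.trans (Finset.sum_le_card_nsmul Finset.univ _ k fun u _ => hh u)
  rw [Finset.card_univ, smul_eq_mul, ← Nat.card_eq_fintype_card, mul_comm] at h3
  omega

lemma rel_le {α β : Type} (s : Set α) (t : Set β) (r : α → β → Prop) (ht : t.Finite)
    (h : ∀ a ∈ s, ∃ b ∈ t, r a b) (hi : ∀ a ∈ s, ∀ a' ∈ s, ∀ b, r a b → r a' b → a = a') :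
    s.ncard ≤ t.ncard := by
  rcases s.eq_empty_or_nonempty with rfl | ⟨a0, ha0⟩
  · simp
  obtain ⟨b0, -⟩ := h a0 ha0
  have : Nonempty β := ⟨b0⟩
  choose! f hf hr using h
  exact ncard_le_ncard_of_injOn f hf
    (fun a ha a' ha' e => hi a ha a' ha' (f a) (hr a ha) (e ▸ hr a' ha')) ht

variable {Y V L Z : Type} {H : SimpleGraph Y} {G : SimpleGraph V} {Ou : V → V → Prop}
  {lf : V → L} {zn : V → Z} {k g N : ℕ} {B T : Set Y} {role : Y → Y} {Ψ : Fin N → Y → V} {z : Z}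

/-- few layers conflict with all layers of a large set -/
lemma sparse [Finite Y] [Finite V] (am : Amb G Ou lf zn k g)
    (la : Lay H G Ou lf zn B T role N Ψ z) (S : Set (Fin N))
    (hS : S.ncard = k * Nat.card Y + 1) :
    {i | i ∉ S ∧ ∀ j ∈ S, ∃ u ∈ T, u ∉ B ∧ ∃ v ∈ T, Ou (Ψ i u) (Ψ j v)}.ncard ≤
      g * ((k * Nat.card Y + 1) * Nat.card Y) := by
  set Ls : Set L := (fun p : Fin N × Y => lf (Ψ p.1 p.2)) '' (S ×ˢ univ) with hLs
  have hf : Ls.Finite := (toFinite _).image _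
  have hc : Ls.ncard ≤ (k * Nat.card Y + 1) * Nat.card Y := by
    refine (ncard_image_le (toFinite _)).trans (le_of_eq ?_)
    rw [ncard_prod, hS, ncard_univ]
  refine le_trans ?_ ((am.few Ls hf).trans (Nat.mul_le_mul_left g hc))
  refine rel_le _ _ (fun i w => ∃ u ∈ T, u ∉ B ∧ zn (Ψ i u) = w) ((toFinite _).image _) ?_ ?_
  · rintro i ⟨-, hi⟩
    obtain ⟨u, hu⟩ := pigeon S (fun u j => u ∈ T ∧ u ∉ B ∧ ∃ v ∈ T, Ou (Ψ i u) (Ψ j v)) k hi
      (by omega)
    obtain ⟨j0, -, huT, huB, -⟩ := nonempty_of_ncard_ne_zero (Nat.ne_zero_of_lt hu)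
    refine ⟨zn (Ψ i u), ⟨Ψ i u, lt_of_lt_of_le hu ?_, rfl⟩, u, huT, huB, rfl⟩
    refine rel_le _ _ (fun j l => ∃ v ∈ T, lf (Ψ j v) = l) (hf.subset fun l hl => hl.1) ?_ ?_
    · rintro j ⟨hj, -, -, v, hv, ho⟩
      exact ⟨lf (Ψ j v), ⟨⟨(j, v), ⟨hj, trivial⟩, rfl⟩, _, ho, rfl⟩, v, hv, rfl⟩
    · rintro j - j' - l ⟨v, hv, e⟩ ⟨v', hv', e'⟩
      exact la.leaf j j' v hv v' hv' (e.trans e'.symm)
  · rintro i - i' - w ⟨u, hu, hb, e⟩ ⟨u', hu', hb', e'⟩
    exact la.zon i i' u hu u' hu' hb hb' (e.trans e'.symm)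

end Asm

open Asm

theorem asm (ra : RamSt) : AsmSt := by
  intro Y _ k g M
  classical
  let α : Type := (Fin M × Y) ⊕ Fin (g * (M * Nat.card Y) + 1)
  obtain ⟨N, hN⟩ := ra (k * Nat.card Y + 1) (g * ((k * Nat.card Y + 1) * Nat.card Y)) (Nat.card α)
  refine ⟨N, ?_⟩
  intro H B S ρ role hρ hrole V L Z _ G Ou lf zn am Ψ z la ξ hξ
  obtain ⟨f, hf, hfr⟩ := hN
    (fun i j => ∃ u ∈ insert ρ S, u ∉ B ∧ ∃ v ∈ insert ρ S, Ou (Ψ i u) (Ψ j v)) (Asm.sparse am la)
  let F : α → Fin N := fun a => f (Finite.equivFin α a)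
  have hF : Injective F := hf.comp (Finite.equivFin α).injective
  have hFr : ∀ a b, a ≠ b → ∀ u ∈ insert ρ S, u ∉ B → ∀ v ∈ insert ρ S,
      ¬ Ou (Ψ (F a) u) (Ψ (F b) v) := fun a b hab u hu hb v hv ho =>
    hfr _ _ ((Finite.equivFin α).injective.ne hab) ⟨u, hu, hb, v, hv, ho⟩
  set Ls : Set L := range fun p : Fin M × Y => lf (Ψ (F (Sum.inl (p.1, role p.2))) p.2) with hLs
  have hfin : Ls.Finite := finite_range _
  have hc : Ls.ncard ≤ M * Nat.card Y := by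
    rw [hLs, ← image_univ]
    refine (ncard_image_le (toFinite _)).trans (le_of_eq ?_)
    rw [ncard_univ, Nat.card_prod, Nat.card_eq_fintype_card, Fintype.card_fin]
  have hW := (am.few Ls hfin).trans (Nat.mul_le_mul_left g hc)
  obtain ⟨j, hj⟩ : ∃ j, ξ (F (Sum.inr j)) ∉
      zn '' {c | k < {l | l ∈ Ls ∧ ∃ y, Ou c y ∧ lf y = l}.ncard} := by
    by_contra hh
    push Not at hh
    have := ncard_le_ncard_of_injOn (s := univ) (fun j => ξ (F (Sum.inr j))) (fun j _ => hh j)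
      (hξ.comp (hF.comp Sum.inr_injective)).injOn ((toFinite _).image _)
    rw [ncard_univ, Nat.card_eq_fintype_card, Fintype.card_fin] at this
    omega
  let ix : Fin M → Y → α := fun r u => if u = ρ then Sum.inr j else Sum.inl (r, role u)
  have ix0 : ∀ r, ix r ρ = Sum.inr j := fun r => if_pos rfl
  have ixS : ∀ r, ∀ u ∈ S, ix r u = Sum.inl (r, role u) := fun r u hu =>
    if_neg fun (e : u = ρ) => hρ (e ▸ hu)
  have ixr : ∀ r, ∀ u ∈ insert ρ S, ∀ v ∈ insert ρ S, ix r u = ix r v ↔ role u = role v := by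
    rintro r u (rfl | hu) v (rfl | hv)
    · simp
    · rw [ix0, ixS r v hv]
      exact ⟨fun e => absurd e Sum.inr_ne_inl, fun e => absurd e.symm (hrole v hv)⟩
    · rw [ix0, ixS r u hu]
      exact ⟨fun e => absurd e Sum.inl_ne_inr, fun e => absurd e (hrole u hu)⟩
    · rw [ixS r u hu, ixS r v hv]
      exact ⟨fun e => congrArg Prod.snd (Sum.inl_injective e), fun e => by rw [e]⟩
  have ixd : ∀ r r', ∀ u ∈ S, ∀ v ∈ S, F (ix r u) = F (ix r' v) → r = r' := by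
    intro r r' u hu v hv e
    have e' := hF e
    rw [ixS r u hu, ixS r' v hv] at e'
    exact congrArg Prod.fst (Sum.inl_injective e')
  have nou : ∀ r, ∀ u ∈ insert ρ S, ∀ v ∈ insert ρ S, role u ≠ role v → ¬ H.Adj u v →
      ¬ Ou (Ψ (F (ix r u)) u) (Ψ (F (ix r v)) v) := by
    intro r u hu v hv hr ha
    by_cases hb : u ∈ B
    · exact la.tout _ _ u hu hb v hv hr ha
    · exact hFr _ _ (fun e => hr ((ixr r u hu v hv).mp e)) u hu hb v hv
  refine ⟨F (Sum.inr j), fun r u => Ψ (F (ix r u)) u, fun r => by simp only [ix0], ?_, ?_, ?_, ?_⟩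
  · intro r u hu v hv e
    have e1 : ix r u = ix r v := hF (la.leaf _ _ u hu v hv (congrArg lf e))
    refine (la.same (F (ix r u)) u hu v hv ((ixr r u hu v hv).mp e1)).2 ?_
    simpa only [e1] using e
  · intro r u hu v hv
    by_cases hr : role u = role v
    · have e1 : ix r u = ix r v := (ixr r u hu v hv).mpr hr
      simp only [← e1]
      exact (la.same _ u hu v hv hr).1
    · refine ⟨fun ha => ?_, la.padj _ _ u hu v hv hr⟩
      by_contra hn
      rcases (am.adj _ _).mp ha with ho | ho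
      · exact nou r u hu v hv hr hn ho
      · exact nou r v hv u hu (Ne.symm hr) (fun h => hn h.symm) ho
  · intro r r' hrr u hu v hv
    have hu' : u ∈ insert ρ S := mem_insert_of_mem _ hu
    have hv' : v ∈ insert ρ S := mem_insert_of_mem _ hv
    refine ⟨fun e => hrr (ixd r r' u hu v hv (la.leaf _ _ u hu' v hv' e)), fun e => ?_⟩
    by_cases hb : u ∈ B
    · exact la.tail _ u hu' hb
    by_cases hb' : v ∈ B
    · exact e.trans (la.tail _ v hv' hb')
    exact absurd (ixd r r' u hu v hv (la.zon _ _ u hu' v hv' hb hb' e)) hrr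
  · intro c hc'
    have h1 : {l | l ∈ Ls ∧ ∃ y, Ou c y ∧ lf y = l}.ncard ≤ k :=
      not_lt.mp fun h => hj ⟨c, h, hc'⟩
    refine le_trans ?_ h1
    refine rel_le _ _ (fun r l => ∃ u ∈ S, lf (Ψ (F (ix r u)) u) = l)
      (hfin.subset fun l hl => hl.1) ?_ ?_
    · rintro r ⟨u, hu, ho⟩
      refine ⟨lf (Ψ (F (ix r u)) u), ⟨⟨(r, u), ?_⟩, _, ho, rfl⟩, u, hu, rfl⟩
      simp only [ixS r u hu]
    · rintro r - r' - l ⟨u, hu, e⟩ ⟨v, hv, e'⟩
      exact ixd r r' u hu v hv (la.leaf _ _ u (mem_insert_of_mem _ hu) v (mem_insert_of_mem _ hv)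
        (e.trans e'.symm))

end Pool.Agent.MP_da1f04_co.I91
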