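import Pool.Agent.MP_da1f04_co.I91.Tools

/-! Chains of times, and the facts about leaves and zones. -/

set_option autoImplicit false

namespace Pool.Agent.MP_da1f04_co.I91

open Set Function

theorem chainSt : ChainSt := by
  intro V _ G lam k g M P R hP hR hc
  refine Kill.deg (fs G lam P) _ (fun u v ⟨t, h⟩ e => ?_) fun T hT => ?_
  · have e1 : fsn G lam P u = fsn G lam P v := congrArg Prod.fst e
    exact not_app_pre ((e1 ▸ M.deep hP (hR u v t h).1).trans (hR u v t h).2.1)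
  let Pi : Set ((Nd × Set V) × Nd) :=
    {p | p.1 ∈ T ∧ ∃ c x, R c x p.2 ∧ fs G lam P c = p.1 ∧ fs G lam P x ∈ T}
  let L : Set ((Nd × Set V) × Nd) := {p | p ∈ Pi ∧ ∀ t, (p.1, t) ∈ Pi → ¬ p.2 ++ [true] <+: t}
  have hL : InjOn Prod.fst L := by
    rintro ⟨a, t⟩ ⟨h1, h2⟩ ⟨a', t'⟩ ⟨h3, h4⟩ (rfl : a = a')
    obtain ⟨-, c, x, a1, a2, -⟩ := id h1
    obtain ⟨-, c', x', b1, b2, -⟩ := id h3
    have := hc c x t c' x' t' a1 b1 (a2.trans b2.symm)
    rw [Inc, not_and_or, not_not, not_not] at this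
    rcases this with h | h
    · exact (pre_app_cases h).elim (fun e => by rw [List.append_cancel_right e])
        fun h => (h2 t' h3 h).elim
    · exact (pre_app_cases h).elim (fun e => by rw [List.append_cancel_right e])
        fun h => (h4 t h1 h).elim
  have fL : L.Finite := Finite.of_injOn (fun p hp => hp.1.1) hL hT
  have cL : L.ncard ≤ T.ncard := ncard_le_ncard_of_injOn _ (fun p hp => hp.1.1) hL hT
  obtain ⟨m1, m2⟩ := meet_card (hT.image Prod.fst)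
  have later : ∀ p ∈ Pi \ L, ∃ t, (p.1, t) ∈ Pi ∧ p.2 ++ [true] <+: t := fun p hp => by
    by_contra hn
    exact hp.2 ⟨hp.1, fun t h1 h2 => hn ⟨t, h1, h2⟩⟩
  have mt : ∀ p ∈ Pi \ L, p.2 ∈ Meet (Prod.fst '' T) := fun p hp => by
    obtain ⟨t', ⟨-, c', x', b1, -, b3⟩, h⟩ := later p hp
    obtain ⟨-, c, x, a1, -, a3⟩ := hp.1
    exact ⟨_, ⟨_, a3, rfl⟩, _, ⟨_, b3, rfl⟩, M.deep hP (hR _ _ _ a1).1,
      h.trans ((pre_app _ _).trans (M.deep hP (hR _ _ _ b1).1))⟩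
  have fD : (Pi \ L).Finite := (hT.prod m1).subset fun p hp => ⟨hp.1.1, mt p hp⟩
  have cD : (Pi \ L).ncard ≤ g * (Meet (Prod.fst '' T)).ncard := by
    refine ncard_fib m1 Prod.snd g mt fD fun t _ => le_trans ?_ (M.few (s := t ++ [true])
      (fs G lam P) {c | (∃ x t', t ++ [true] <+: t' ∧ out G lam c x t') ∧ fsn G lam P c <+: t ∧
        P (fsn G lam P c) (past G lam c (fsn G lam P c))} (fun c hc => hc.1) ?_)
    · refine ncard_le_ncard_of_injOn Prod.fst ?_ ?_ (toFinite _)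
      · rintro p ⟨hp, rfl⟩
        obtain ⟨t', ⟨-, c', x', b1, b2, -⟩, h⟩ := later p hp
        obtain ⟨-, c, x, a1, a2, -⟩ := hp.1
        have e : fsn G lam P c' = fsn G lam P c := congrArg Prod.fst (b2.trans a2.symm)
        exact ⟨c', ⟨⟨x', t', h, (hR _ _ _ b1).1⟩, e ▸ (hR _ _ _ a1).2.1, (hR _ _ _ b1).2.2⟩, b2⟩
      · exact fun p hp p' hp' e => Prod.ext e (hp.2.trans hp'.2.symm)
    · rintro c ⟨-, a2, a3⟩ c' ⟨⟨x', t', b0, b1⟩, -⟩ e
      have h1 : fsn G lam P c <+: t ++ [true] := a2.trans (pre_app _ _)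
      exact fs_congr fsn_pre (h1.trans (b0.trans b1.pre)) (past_congr h1 e) a3
  have fP : Pi.Finite := (fL.union fD).subset fun p hp => (em (p ∈ L)).imp id fun h => ⟨hp, h⟩
  have cP : Pi.ncard ≤ (g + 1) * T.ncard := by
    have h1 : Pi.ncard ≤ L.ncard + (Pi \ L).ncard := le_trans (ncard_le_ncard
      (fun p hp => (em (p ∈ L)).imp id fun h => ⟨hp, h⟩) (fL.union fD)) (ncard_union_le _ _)
    have h2 := Nat.mul_le_mul_left g (m2.trans (ncard_image_le hT))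
    nlinarith
  have ex : ∀ p : (Nd × Set V) × (Nd × Set V), ∃ t, (∃ u v, (∃ t, R u v t) ∧
      fs G lam P u = p.1 ∧ fs G lam P v = p.2) → ∃ u v, R u v t ∧ fs G lam P u = p.1 ∧
        fs G lam P v = p.2 := fun p => by
    by_cases h : ∃ u v, (∃ t, R u v t) ∧ fs G lam P u = p.1 ∧ fs G lam P v = p.2
    · obtain ⟨u, v, ⟨t, h1⟩, h2⟩ := h
      exact ⟨t, fun _ => ⟨u, v, h1, h2⟩⟩
    · exact ⟨[], fun h' => (h h').elim⟩
  choose tm htm using ex
  rw [mul_assoc]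
  refine le_trans (ncard_fib fP (fun p => (p.1, tm p)) k (fun p hp => ?_)
    ((hT.prod hT).subset fun p hp => ⟨hp.1, hp.2.1⟩) fun b _ => le_trans ?_ (M.heads (t := b.2)
      (fs G lam P) {x | ∃ c, out G lam c x b.2} (fun _ h => h) fun _ _ => fs_k0))
    (Nat.mul_le_mul_left k cP)
  · obtain ⟨u, v, h1, h2, h3⟩ := htm p hp.2.2
    exact ⟨hp.1, u, v, h1, h2, h3 ▸ hp.2.1⟩
  · refine ncard_le_ncard_of_injOn Prod.snd ?_ ?_ (toFinite _)
    · rintro p ⟨hp, rfl⟩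
      obtain ⟨u, v, h1, -, h3⟩ := htm p hp.2.2
      exact ⟨v, ⟨u, (hR _ _ _ h1).1⟩, h3⟩
    · exact fun p hp p' hp' e => Prod.ext
        ((congrArg Prod.fst hp.2).trans (congrArg Prod.fst hp'.2).symm) e

theorem ambSt : AmbSt := by
  intro V _ G lam k g M
  refine ⟨fun u v => ⟨M.m0 u v, fun h => h.elim (fun ⟨_, h⟩ => h.1) fun ⟨_, h⟩ => h.1.symm⟩,
    fun u v e h => (M.m0 u v h).elim (fun ⟨_, h⟩ => M.zone_ne h e)
      fun ⟨_, h⟩ => M.zone_ne h e.symm, fun S hS => ?_⟩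
  obtain ⟨m1, m2⟩ := meet_card hS
  let Q : Nd → Set V := fun t => {c | (∃ x t', t ++ [true] <+: t' ∧ out G lam c x t') ∧
    (past G lam c (t ++ [true])).Nonempty}
  have key : ∀ c : V, ∃ t, k < {l | l ∈ S ∧ ∃ y, Out G lam c y ∧ lam y = l}.ncard →
      t ∈ Meet S ∧ c ∈ Q t := by
    intro c
    by_cases h : k < {l | l ∈ S ∧ ∃ y, Out G lam c y ∧ lam y = l}.ncard
    swap
    · exact ⟨[], fun h' => (h h').elim⟩
    obtain ⟨-, h0, y, ⟨t, hy⟩, rfl⟩ := nonempty_of_ncard_ne_zero (ne_of_gt (Nat.zero_lt_of_lt h))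
    have : ∃ y' t', t' ≠ t ∧ out G lam c y' t' ∧ lam y' ∈ S := by
      by_contra hn
      refine absurd h (not_lt.2 (le_trans (ncard_le_ncard ?_ (toFinite _)) (M.heads (t := t) lam
        {x | ∃ c, out G lam c x t} (fun _ h => h) fun _ _ e => congrArg Prod.fst e)))
      rintro _ ⟨a, y', ⟨t', b⟩, rfl⟩
      have e : t' = t := by_contra fun e => hn ⟨y', t', e, b, a⟩
      exact ⟨y', ⟨c, e ▸ b⟩, rfl⟩
    obtain ⟨y', t', hne, hy', h1⟩ := this
    have two : ∀ {y y' t t'}, out G lam c y t → out G lam c y' t' → lam y ∈ S → lam y' ∈ S →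
        t ++ [true] <+: t' → t ∈ Meet S ∧ c ∈ Q t := fun {y y' t t'} a b a' b' h =>
      ⟨⟨_, a', _, b', a.2.2, h.trans b.pre'⟩, ⟨y', t', h, b⟩, y, a.mem⟩
    rcases pre_or_app hy'.pre hy.2.1 with a | a
    · rcases pre_or_app hy.pre hy'.2.1 with b | b
      · exact (hne (pre_antisymm a b)).elim
      · exact ⟨t', fun _ => two hy' hy h1 h0 b⟩
    · exact ⟨t, fun _ => two hy hy' h0 h1 a⟩
  choose tm htm using key
  have ex : ∀ z : Nd × Set V, ∃ t, z ∈ zone G lam ''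
      {c | k < {l | l ∈ S ∧ ∃ y, Out G lam c y ∧ lam y = l}.ncard} →
      t ∈ Meet S ∧ z ∈ zone G lam '' Q t := fun z => by
    by_cases h : z ∈ zone G lam '' {c | k < {l | l ∈ S ∧ ∃ y, Out G lam c y ∧ lam y = l}.ncard}
    · obtain ⟨c, hc, rfl⟩ := h
      exact ⟨tm c, fun _ => ⟨(htm c hc).1, c, (htm c hc).2, rfl⟩⟩
    · exact ⟨[], fun h' => (h h').elim⟩
  choose tz htz using ex
  refine le_trans (ncard_fib m1 tz g (fun z hz => (htz z hz).1) (toFinite _) fun t _ =>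
    le_trans (ncard_le_ncard ?_ (toFinite _)) (M.few (s := t ++ [true]) (zone G lam) (Q t)
      (fun c hc => hc.1) ?_)) (Nat.mul_le_mul_left g m2)
  · rintro z ⟨hz, rfl⟩
    exact (htz z hz).2
  · rintro c ⟨⟨x, t', a1, a2⟩, a3⟩ c' ⟨⟨x', t'', b1, b2⟩, -⟩ e
    exact zone_congr (a1.trans a2.pre) (b1.trans b2.pre) e a3

end Pool.Agent.MP_da1f04_co.I91
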