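import Pool.Agent.MP_da1f04_co.I91.Tools

/-! Models without states of large rank have bounded chromatic number. -/

set_option autoImplicit false

namespace Pool.Agent.MP_da1f04_co.I91

open Set Function

namespace Claim

/-- The pasts at `s` of the vertices with a nonempty past and a marked edge below `s`. -/
def fam {V : Type} (G : SimpleGraph V) (lam : V → Nd) (e : V → Nd → Prop) (s : Nd) : Set (Set V) :=
  (fun c => past G lam c s) ''
    {c | (past G lam c s).Nonempty ∧ ∃ x t, s <+: t ∧ out G lam c x t ∧ e c t}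

/-- The claim for families of at most `m` pasts. -/
def Q (ι : Type) (k g K D m n : ℕ) : Prop :=
  ∀ (V : Type) [Finite V] (G : SimpleGraph V) (lam : V → Nd), Model G lam k g →
    HPiece G lam ι K D → ∀ e : V → Nd → Prop, (∀ c t t', e c t → t' <+: t → e c t') →
    (∀ s, (fam G lam e s).ncard ≤ m) → Kill (fun c x => ∃ t, out G lam c x t ∧ e c t) n

theorem zero (ι : Type) (k g K D : ℕ) : Q ι k g K D 0 (2 * k + 1) := by
  intro V _ G lam M _ e _ h
  refine (M.special fun _ τ => τ.Nonempty).imp fun c x ⟨t, h1, h2⟩ => ⟨t, h1, ?_⟩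
  obtain ⟨a1, a2⟩ := fsn_min (P := fun _ τ => τ.Nonempty) h1.2.1 ⟨x, h1.mem⟩
  refine (pre_app_cases a1).resolve_right fun a3 => ?_
  have := (ncard_eq_zero (toFinite _)).1 (Nat.le_zero.1 (h t))
  exact this.subset ⟨c, ⟨a2.mono (past_mono a3), x, t, List.prefix_rfl, h1, h2⟩, rfl⟩

theorem count {V V' ι : Type} [Finite V] {G : SimpleGraph V} {lam : V → Nd}
    {cls : Nd × Set V → V → ι} {K m : ℕ} {e : V → Nd → Prop} {f : V' → V} {S : Set (Set ι)}
    {p : Set ι} (he : ∀ c t t', e c t → t' <+: t → e c t') (hp : ∀ q ∈ S, p ⊆ q → q ⊆ p)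
    (hS : ∀ a b t, out G lam (f a) (f b) t → e (f a) t → Shad G lam cls e K (f a) (f b) t ∧
      {κ | Rich G lam cls κ K t (past G lam (f a) t)} ∈ S) (s : Nd)
    (h : (fam G lam e s).ncard ≤ m + 1) :
    (fam (G.comap f) (lam ∘ f) (fun a t => e (f a) t ∧
      p ⊆ {κ | Rich G lam cls κ K t (past G lam (f a) t)}) s).ncard ≤ m := by
  rcases eq_empty_or_nonempty (fam (G.comap f) (lam ∘ f) (fun a t => e (f a) t ∧
      p ⊆ {κ | Rich G lam cls κ K t (past G lam (f a) t)}) s) with h0 | h0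
  · simp [h0]
  obtain ⟨-, a0, ⟨⟨y0, n0⟩, b0, t0, s0, o0, e0, p0⟩, -⟩ := h0
  obtain ⟨⟨-, r0, c, z1, ⟨x, t', z2, z3, z4⟩, z5⟩, -⟩ := hS a0 b0 t0 o0 e0
  have hc : past G lam c s ∈ fam G lam e s :=
    ⟨c, ⟨zone_nonempty (s0.trans o0.pre) ⟨f y0, n0⟩ z1, x, t', s0.trans z2, z3, z4⟩, rfl⟩
  have h1 := ncard_sdiff_singleton_add_one hc
  refine le_trans (ncard_le_ncard ?_ (toFinite (preimage f '' (fam G lam e s \ {past G lam c s}))))
    ((ncard_image_le (toFinite _)).trans (by omega))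
  rintro _ ⟨a, ⟨⟨y, n⟩, b, t, s1, o, e1, p1⟩, rfl⟩
  refine ⟨past G lam (f a) s, ⟨⟨f a, ⟨⟨f y, n⟩, f b, t, s1, o, e1⟩, rfl⟩, fun q => ?_⟩, rfl⟩
  obtain ⟨t1, u1, u2⟩ := (mem_past (G := G) (lam := lam) (c := f a) (s1.trans o.pre)).1 n
  have u3 := (pre_app _ _).trans u1
  have u4 := (z5.up s0)
  rw [← mem_singleton_iff.1 q] at u4
  exact r0 (p0 (hp _ (hS a y t1 u2 (he _ _ _ e1 (u3.trans s1))).2
    (fun κ hκ => Rich.up (p1 hκ) (u3.trans s1)) (u4.up u3)))

theorem down {ι : Type} [Finite ι] {k g K D m n : ℕ} (h : Q ι k g K D m n) (j : ℕ)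
    {V : Type} [Finite V] {G : SimpleGraph V} {lam : V → Nd} (M : Model G lam k g)
    (H : HPiece G lam ι K D) (cls : Nd × Set V → V → ι) {e : V → Nd → Prop}
    (he : ∀ c t t', e c t → t' <+: t → e c t') (hm : ∀ s, (fam G lam e s).ncard ≤ m + 1) :
    ∀ (S : Set (Set ι)) (V' : Type) (f : V' → V), S.ncard = j → Injective f →
      (∀ a b t, out G lam (f a) (f b) t → e (f a) t → Shad G lam cls e K (f a) (f b) t ∧
        {κ | Rich G lam cls κ K t (past G lam (f a) t)} ∈ S) →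
      Kill (fun a b => ∃ t, out G lam (f a) (f b) t ∧ e (f a) t) (n ^ j) := by
  induction j with
  | zero =>
    intro S V' f h1 _ h2
    exact ⟨fun _ => ⟨0, one_pos⟩, fun a b ⟨t, o, e1⟩ =>
      (((ncard_eq_zero (toFinite _)).1 h1).subset (h2 a b t o e1).2).elim⟩
  | succ j ih =>
    intro S V' f h1 hf h2
    have := Finite.of_injective f hf
    obtain ⟨p, hp⟩ := (toFinite S).exists_maximal (nonempty_of_ncard_ne_zero (by omega))
    obtain ⟨φ, hφ⟩ := h V' (G.comap f) (lam ∘ f) (M.comap f)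
      (fun V'' f' hf' => H V'' (f ∘ f') (hf.comp hf'))
      (fun a t => e (f a) t ∧ p ⊆ {κ | Rich G lam cls κ K t (past G lam (f a) t)})
      (fun a t t' u v => ⟨he _ _ _ u.1 v, fun κ hκ => Rich.up (u.2 hκ) v⟩)
      fun s => count he (fun q u v => hp.2 u v) h2 s (hm s)
    rw [pow_succ']
    refine Kill.refine φ fun i => ih (S \ {p}) _ (f ∘ Subtype.val) ?_
      (hf.comp Subtype.val_injective) fun a b t o e1 => ⟨(h2 _ _ t o e1).1, (h2 _ _ t o e1).2,
        fun q => hφ a b ⟨t, o, e1, (mem_singleton_iff.1 q).ge⟩ (a.2.trans b.2.symm)⟩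
    have := ncard_sdiff_singleton_add_one hp.1
    omega

end Claim

theorem claimSt (h : StepSt) : ClaimSt := by
  intro ι _ k g K D
  obtain ⟨n0, h0⟩ := h ι k g K D
  have key : ∀ m, ∃ n, Claim.Q ι k g K D m n := fun m => by
    induction m with
    | zero => exact ⟨_, Claim.zero ι k g K D⟩
    | succ m ih =>
      obtain ⟨n, ih⟩ := ih
      refine ⟨n0 * n ^ (univ : Set (Set ι)).ncard, fun V _ G lam M H e he hm => ?_⟩
      obtain ⟨cls, hc⟩ := H V id injective_id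
      obtain ⟨φ, hφ⟩ := h0 V G lam M cls hc e
      exact Kill.refine φ fun i => Claim.down ih _ M H cls he hm univ _ Subtype.val rfl
        Subtype.val_injective fun a b t o e1 => ⟨by_contra fun q =>
          hφ a b ⟨t, o, e1, q⟩ (a.2.trans b.2.symm), trivial⟩
  obtain ⟨n, hn⟩ := key g
  refine ⟨n, fun V _ G lam M H => Kill.colorable ((hn V G lam M H (fun _ _ => True)
    (fun _ _ _ _ _ => trivial) fun s => le_trans (ncard_le_ncard (image_mono ?_) (toFinite _))
      (M.m3 s)).symm'.imp fun u v a => (M.m0 u v a).imp ?_ ?_)⟩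
  · exact fun c ⟨_, x, t, h1, h2, _⟩ => ⟨x, t, h1, h2⟩
  · exact fun ⟨t, h1⟩ => ⟨t, h1, trivial⟩
  · exact fun ⟨t, h1⟩ => ⟨t, h1, trivial⟩

end Pool.Agent.MP_da1f04_co.I91
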