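import Pool.Agent.MP_da1f04_co.I91.Spec
import Pool.Agent.MP_da1f04_co.G91Ind

/-! Derivations exist for induced subgraphs of members of the closure. -/

set_option autoImplicit false

namespace Pool.Agent.MP_da1f04_co.I91

open Function Set
open G91 (Rep cfs img_le)

namespace DerFine

variable {U : Type} {J : SimpleGraph U} {q k c : ℕ}

theorem md {W : Type} {H : SimpleGraph W} {π : U → W} {D : Set U} (rep : Rep J H π D) :
    ∀ u ∈ D, ∀ u' ∈ D, ∀ w ∈ D, π u = π u' → π u ≠ π w → J.Adj u w → J.Adj u' w := by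
  intro u hu u' hu' w hw e hne ha
  have h3 := (rep u hu w hw hne).1 ha
  rw [e] at h3 hne
  exact (rep u' hu' w hw hne).2 h3

/-- Derivations exist over `H`. -/
def Fine (J : SimpleGraph U) (q k c : ℕ) (W : Type) (H : SimpleGraph W) : Prop :=
  ∀ (π : U → W) (D : Set U), Rep J H π D → (∀ x, J.CliqueFreeOn {u | u ∈ D ∧ π u = x} q) →
    J.CliqueFreeOn D (q + 1) → Der J q k c W π D

theorem Fine.lift {W : Type} {H : SimpleGraph W} {s : Set W} (h : Fine J q k c s (H.induce s))
    (π : U → W) (D : Set U) (hs : ∀ u ∈ D, π u ∈ s) (rep : Rep J H π D)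
    (fib : ∀ x, J.CliqueFreeOn {u | u ∈ D ∧ π u = x} q) (cf : J.CliqueFreeOn D (q + 1)) :
    Der J q k c W π D := by
  classical
  rcases D.eq_empty_or_nonempty with rfl | ⟨u₀, hu₀⟩
  · exact .leaf _ _ _ (fun _ => 0) (fun _ h => h.elim) fib (fun _ h => h.elim) fun _ h => h.elim
  let π' : U → s := fun u => if h : π u ∈ s then ⟨π u, h⟩ else ⟨π u₀, hs u₀ hu₀⟩
  have e : ∀ u ∈ D, (π' u : W) = π u := fun u hu => by simp only [π', dif_pos (hs u hu)]
  have e' : ∀ u ∈ D, ∀ w ∈ D, π u = π w → π' u = π' w := fun u hu w hw h =>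
    Subtype.ext (by rw [e u hu, e w hw, h])
  refine .merge _ _ π π' D e' (h π' D ?_ ?_ cf)
  · intro u hu w hw hne
    rw [rep u hu w hw fun h => hne (e' u hu w hw h), ← e u hu, ← e w hw]
    rfl
  · exact fun x => cfs (fib x) fun u hu => ⟨hu.1, by rw [← e u hu.1, hu.2]⟩

theorem fine [Finite U] {C : GClass} {f : ℕ → ℕ}
    (hf : ∀ (V : Type) (G : SimpleGraph V), Finite V → C V G → ∀ (s : Set V) (m : ℕ),
      (G.induce s).CliqueFree (m + 1) → (G.induce s).Colorable (f m))
    {W : Type} {H : SimpleGraph W} (h : Cl C k W H) : Fine J q k (f q) W H := by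
  classical
  induction h with
  | base V G h1 h2 =>
    intro π D rep fib cf
    have hs : ∀ x : π '' D, ∃ u : D, π u = x := fun x => by
      obtain ⟨u, hu, e⟩ := x.2
      exact ⟨⟨u, hu⟩, e⟩
    choose σ hσ using hs
    have hi : Injective σ := fun x y e => Subtype.ext (by rw [← hσ x, ← hσ y, e])
    have hcf : (G.induce (π '' D)).CliqueFree (q + 1) := by
      refine ((SimpleGraph.cliqueFree_induce_iff J D _).2 cf).comap ⟨⟨⟨σ, ?_⟩, hi⟩⟩
      intro x y hxy
      have hne : π (σ x) ≠ π (σ y) := by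
        rw [hσ, hσ]
        exact G.ne_of_adj hxy
      exact (rep _ (σ x).2 _ (σ y).2 hne).2 (by rw [hσ, hσ]; exact hxy)
    obtain ⟨col⟩ := hf V G h1 h2 _ q hcf
    refine .leaf _ _ _ (fun x => if h : x ∈ π '' D then (col ⟨x, h⟩ : ℕ) else 0) (md rep) fib
      (fun u hu => ?_) ?_
    · simp only [dif_pos (mem_image_of_mem π hu)]
      exact Fin.is_lt _
    · intro u hu w hw hne ha
      simp only [dif_pos (mem_image_of_mem π hu), dif_pos (mem_image_of_mem π hw)]
      exact fun e => col.valid (v := ⟨π u, mem_image_of_mem π hu⟩)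
        (w := ⟨π w, mem_image_of_mem π hw⟩) ((rep u hu w hw hne).1 ha) (Fin.ext e)
  | iso V W G H _ e ih =>
    obtain ⟨e⟩ := e
    intro π D rep fib cf
    refine .merge _ _ π (fun u => e.symm (π u)) D (fun u _ w _ h => by rw [h]) (ih _ D ?_ ?_ cf)
    · intro u hu w hw hne
      rw [rep u hu w hw fun h => hne (by simp only [h])]
      exact e.symm.map_adj_iff.symm
    · exact fun x => cfs (fib (e x)) fun u hu => ⟨hu.1, by rw [← hu.2]; simp⟩
  | subst V G s v hv hs _ _ ih1 ih2 =>
    intro π D rep fib cf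
    by_cases hz : ∃ z ∈ D, π z ∉ s ∧ G.Adj (π z) v
    · obtain ⟨z, hz, hzs, hzv⟩ := hz
      let π' : U → V := fun u => if π u ∈ s then v else π u
      have e1 : ∀ u, π u ∈ s → π' u = v := fun u h => if_pos h
      have e2 : ∀ u, π u ∉ s → π' u = π u := fun u h => if_neg h
      have e3 : ∀ u w, π u = π w → π' u = π' w := fun u w h => by simp only [π', h]
      have mix : ∀ u ∈ D, ∀ w ∈ D, π u ∉ s → π w ∈ s → (J.Adj u w ↔ G.Adj (π u) v) :=
        fun u hu w hw h1 h2 => (rep u hu w hw fun e => h1 (e ▸ h2)).trans (hs _ h1 _ h2)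
      refine .merge _ _ π π' D (fun u _ w _ => e3 u w) (ih1.lift π' D (fun u _ => ?_) ?_ ?_ cf)
      · by_cases h : π u ∈ s
        · exact Or.inl (e1 u h)
        · exact Or.inr (by rw [e2 u h]; exact h)
      · intro u hu w hw hne
        by_cases h1 : π u ∈ s <;> by_cases h2 : π w ∈ s
        · exact absurd ((e1 u h1).trans (e1 w h2).symm) hne
        · rw [e1 u h1, e2 w h2, J.adj_comm, G.adj_comm]
          exact mix w hw u hu h2 h1
        · rw [e2 u h1, e1 w h2]
          exact mix u hu w hw h1 h2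
        · rw [e2 u h1, e2 w h2] at hne ⊢
          exact rep u hu w hw hne
      · intro x
        by_cases hx : x = v
        · refine cfs (SimpleGraph.CliqueFreeOn.of_succ J cf hz) fun u hu => ⟨hu.1, ?_⟩
          have h1 : π u ∈ s := by
            by_contra h
            exact h (by rw [← e2 u h, hu.2, hx]; exact hv)
          exact (mix z hz u hu.1 hzs h1).2 hzv
        · refine cfs (fib x) fun u hu => ⟨hu.1, ?_⟩
          have h1 : π u ∉ s := fun h => hx (hu.2.symm.trans (e1 u h))
          rw [← e2 u h1, hu.2]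
    · refine .cut _ π D s sᶜ (md rep) (fun u _ h => h) ?_ ?_ ?_ ?_
      · rw [show {u | u ∈ D ∧ π u ∈ s ∧ π u ∈ sᶜ} = ∅ from
          eq_empty_of_forall_notMem fun u h => h.2.2 h.2.1]
        simp
      · intro u hu h1 w hw h2 ha
        have h3 : π u ∈ s := not_not.1 h1
        exact hz ⟨w, hw, h2, (hs _ h2 _ h3).1 ((rep w hw u hu fun e => h2 (e ▸ h3 : π w ∈ s)).1
          ha.symm)⟩
      · exact ih2.lift π _ (fun u hu => hu.2) (rep.sub inter_subset_left)
          (fun x => cfs (fib x) fun u hu => ⟨hu.1.1, hu.2⟩) (cfs cf inter_subset_left)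
      · exact ih1.lift π _ (fun u hu => Or.inr hu.2) (rep.sub inter_subset_left)
          (fun x => cfs (fib x) fun u hu => ⟨hu.1.1, hu.2⟩) (cfs cf inter_subset_left)
  | glue V G a b hab hk hno c1 c2 ih1 ih2 =>
    intro π D rep fib cf
    have cov : ∀ x, x ∉ a → x ∈ b := fun x h =>
      (show x ∈ a ∪ b from hab ▸ mem_univ x).resolve_left h
    have hfin : (a ∩ b).Finite := (Set.finite_coe_iff.1 c1.finite).inter_of_left b
    refine .cut _ π D a b (md rep) (fun u _ h => cov _ h)
      ((img_le π hfin fun u hu => hu.2).trans hk) ?_ ?_ ?_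
    · intro u hu h1 w hw h2 ha
      exact hno _ h1 _ h2 ((rep u hu w hw fun e => h1 (e ▸ cov _ h2 : π u ∈ b)).1 ha)
    · exact ih1.lift π _ (fun u hu => hu.2) (rep.sub inter_subset_left)
        (fun x => cfs (fib x) fun u hu => ⟨hu.1.1, hu.2⟩) (cfs cf inter_subset_left)
    · exact ih2.lift π _ (fun u hu => hu.2) (rep.sub inter_subset_left)
        (fun x => cfs (fib x) fun u hu => ⟨hu.1.1, hu.2⟩) (cfs cf inter_subset_left)

end DerFine

theorem derFine : DerSt := fun _ _ hf _ q _ _ _ J _ e h hq cf =>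
  DerFine.fine hf h e univ (fun _ _ _ _ _ => e.map_adj_iff.symm) (fun x K hK hc => by
    obtain ⟨u, hu, w, hw, hne⟩ := Finset.one_lt_card.1 (show 1 < K.card by rw [hc.2]; omega)
    exact hne (e.injective ((hK hu).2.trans (hK hw).2.symm))) fun K _ => cf K

end Pool.Agent.MP_da1f04_co.I91
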