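import Pool.Agent.MP_da1f04_co.I91.SpecN

/-! Improving the scattering, and the final construction. -/

set_option autoImplicit false

namespace Pool.Agent.MP_da1f04_co.I91

open Set Sum

namespace ElStep

theorem retagV {l N : ℕ} {T T' V : Type} {δ : T → T → ℕ} {δ' : T' → T' → ℕ}
    {Λ : T → Set (Fin N)} {Λ' : T' → Set (Fin N)} {G : SimpleGraph V} {O : V → V → Prop}
    {τ : V → Option T} (hc : Cl Tiny 2 V G) (hg : Gad l δ G O τ)
    (hw : ∀ φ : V → Fin N, (∀ u v, G.Adj u v → φ u ≠ φ v) → ∃ u s, τ u = some s ∧ φ u ∉ Λ s)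
    (h : V → T → T') (h1 : ∀ u w s s', u ≠ w → δ' (h u s) (h w s') ≤ δ s s')
    (h2 : ∀ u s, Λ' (h u s) ⊆ Λ s) : Win l N δ' Λ' := by
  refine ⟨V, G, O, fun u => (τ u).map (h u), hc,
    ⟨hg.adj, hg.nest, hg.far, fun u v huv => by simp [hg.src u v huv], ?_⟩, fun φ hφ => ?_⟩
  · intro u w t t' huw e1 e2 p
    obtain ⟨s, hs, rfl⟩ := Option.map_eq_some_iff.1 e1
    obtain ⟨s', hs', rfl⟩ := Option.map_eq_some_iff.1 e2
    exact (h1 u w s s' huw).trans (hg.dist u w s s' huw hs hs' p)
  · obtain ⟨u, s, hs, hn⟩ := hw φ hφ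
    exact ⟨u, h u s, by simp [hs], fun hm => hn (h2 u s hm)⟩

theorem retag {l N : ℕ} {T T' : Type} {δ : T → T → ℕ} {δ' : T' → T' → ℕ}
    {Λ : T → Set (Fin N)} {Λ' : T' → Set (Fin N)} (hW : Win l N δ Λ) (h : T → T')
    (h1 : ∀ s s', δ' (h s) (h s') ≤ δ s s') (h2 : ∀ s, Λ' (h s) ⊆ Λ s) : Win l N δ' Λ' := by
  obtain ⟨V, G, O, τ, hc, hg, hw⟩ := hW
  exact retagV hc hg hw (fun _ => h) (fun _ _ s s' _ => h1 s s') fun _ s => h2 s

/-- Distances with finitely many more tags. -/
def D {T : Type} (δ : T → T → ℕ) (γ : T → ℕ) (r p : ℕ) : T ⊕ Fin p → T ⊕ Fin p → ℕ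
  | inl s, inl s' => δ s s'
  | inl s, inr _ => γ s
  | inr _, inl s => γ s
  | inr i, inr j => if i = j then r + 1 else r

/-- The first new tag becomes the tag to be eliminated. -/
def sh {T : Type} {p : ℕ} : T ⊕ Fin (p + 1) → Option (T ⊕ Fin p)
  | inl s => some (inl s)
  | inr i => Fin.cases none (fun j => some (inr j)) i

end ElStep

open ElStep

theorem elStep : ElStepSt := by
  classical
  intro l N 𝒪 r hE T δ Λ γ hδ hf hW
  have step : ∀ p, (∀ a : Fin (p + 1) → Set (Fin N), (∀ i, ∀ X ∈ 𝒪, ¬ X ⊆ a i) →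
      Win l N (D δ γ r (p + 1)) (Sum.elim Λ a)) →
      ∀ a : Fin p → Set (Fin N), (∀ i, ∀ X ∈ 𝒪, ¬ X ⊆ a i) →
        Win l N (D δ γ r p) (Sum.elim Λ a) := by
    intro p ih a ha
    refine hE _ _ _ (Sum.elim γ fun _ => r) ?_ ?_ fun A hA => ?_
    · rintro (s | i) (s' | j)
      · exact hδ s s'
      · simp only [D, elim_inl, elim_inr]; omega
      · simp only [D, elim_inl, elim_inr]; omega
      · simp only [D, elim_inr]; split_ifs <;> omega
    · intro X hX
      obtain ⟨s, h1, h2, h3⟩ := hf X hX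
      refine ⟨inl s, h1, h2, ?_⟩
      rintro (s' | j)
      · exact h3 s'
      · exact ⟨h2, h2⟩
    · refine retag (ih (Fin.cons A a) fun i => ?_) sh ?_ ?_
      · refine Fin.cases ?_ (fun j => ?_) i
        · exact hA
        · exact ha j
      · rintro (s | i) (s' | j)
        · exact le_rfl
        · refine Fin.cases ?_ (fun j => ?_) j <;> exact le_rfl
        · refine Fin.cases ?_ (fun i => ?_) i <;> exact le_rfl
        · refine Fin.cases ?_ (fun i => ?_) i <;> refine Fin.cases ?_ (fun j => ?_) j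
          · simp [sh, ext, D]
          · simp only [sh, ext, D, Fin.cases_zero, Fin.cases_succ, elim_inr]
            split_ifs <;> omega
          · simp only [sh, ext, D, Fin.cases_zero, Fin.cases_succ, elim_inr]
            split_ifs <;> omega
          · simp [sh, ext, D]
      · rintro (s | i)
        · exact subset_rfl
        · refine Fin.cases ?_ (fun i => ?_) i <;> exact subset_rfl
  have down : ∀ p, (∀ a : Fin p → Set (Fin N), (∀ i, ∀ X ∈ 𝒪, ¬ X ⊆ a i) →
      Win l N (D δ γ r p) (Sum.elim Λ a)) → Win l N δ Λ := by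
    intro p
    induction p with
    | zero =>
      intro h
      refine retag (h Fin.elim0 fun i => i.elim0) (Sum.elim id Fin.elim0) ?_ ?_
      · rintro (s | i) (s' | j)
        · exact le_rfl
        · exact j.elim0
        · exact i.elim0
        · exact i.elim0
      · rintro (s | i)
        · exact subset_rfl
        · exact i.elim0
    | succ p ih => exact fun h => ih (step p h)
  have hm : ∀ A : Set (Fin N), ∃ m : ℕ, (∀ X ∈ 𝒪, ¬ X ⊆ A) →
      ∃ (V : Type) (G : SimpleGraph V) (O : V → V → Prop) (τ : V → Option (Option T)),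
        Nat.card V = m ∧ Cl Tiny 2 V G ∧ Gad l (ext δ γ r) G O τ ∧
        ∀ φ : V → Fin N, (∀ u v, G.Adj u v → φ u ≠ φ v) →
          ∃ u s, τ u = some s ∧ φ u ∉ (fun o : Option T => o.elim A Λ) s := by
    intro A
    by_cases hA : ∀ X ∈ 𝒪, ¬ X ⊆ A
    · obtain ⟨V, G, O, τ, h⟩ := hW A hA
      exact ⟨_, fun _ => ⟨V, G, O, τ, rfl, h⟩⟩
    · exact ⟨0, fun h => absurd h hA⟩
  choose f hf' using hm
  obtain ⟨M, hM⟩ := (Set.finite_range f).bddAbove
  refine down (Fintype.card (Set (Fin N)) * M + 1) fun a ha => ?_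
  obtain ⟨A, hA⟩ := Fintype.exists_lt_card_fiber_of_mul_lt_card a (n := M) (by simp)
  obtain ⟨i0, hi0⟩ := Finset.card_pos.1 (Nat.zero_lt_of_lt hA)
  have e0 : a i0 = A := (Finset.mem_filter.1 hi0).2
  obtain ⟨V, G, O, τ, hV, hc, hg, hw⟩ := hf' A (e0 ▸ ha i0)
  have := hc.finite
  have := Fintype.ofFinite V
  obtain ⟨ι⟩ : Nonempty (V ↪ {x // a x = A}) := by
    refine Function.Embedding.nonempty_of_card_le ?_
    rw [Fintype.card_subtype, ← Nat.card_eq_fintype_card, hV]
    exact (hM (mem_range_self A)).trans hA.le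
  refine retagV hc hg hw (fun u o => o.elim (inr (ι u).1) inl) ?_ ?_
  · rintro u w (_ | s) (_ | s') huw
    · have : (ι u).1 ≠ (ι w).1 := fun e => huw (ι.injective (Subtype.ext e))
      simp [D, ext, this]
    · exact le_rfl
    · exact le_rfl
    · exact le_rfl
  · rintro u (_ | s)
    · exact (ι u).2.subset
    · exact subset_rfl

theorem neg (h1 : ElTopSt) (h2 : ElStepSt) : NegSt := by
  classical
  intro l N
  have hE : ∀ (𝒪 : Set (Set (Fin N))) (k r : ℕ), max l 3 + 2 ≤ r + k → El (max l 3) N 𝒪 r := by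
    intro 𝒪 k
    induction k with
    | zero => exact fun r hr => h1 _ _ _ r hr
    | succ k ih => exact fun r hr => h2 _ _ _ r (ih (r + 1) (by omega))
  have hK : ∀ (n : ℕ) (𝒪 : Set (Set (Fin N))), 𝒪ᶜ.ncard = n →
      Win (max l 3) N (fun _ _ : 𝒪 => 0) (fun s => s.1) := by
    intro n
    induction n using Nat.strong_induction_on with
    | _ n ih =>
      intro 𝒪 hn
      refine hE 𝒪 (max l 3 + 2) 0 (by omega) _ _ _ (fun _ => 0) (fun _ _ => Nat.zero_le _)
        (fun X hX => ⟨⟨X, hX⟩, rfl, rfl, fun _ => ⟨rfl, rfl⟩⟩) fun A hA => ?_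
      have hA' : A ∉ 𝒪 := fun h => hA A h subset_rfl
      have hlt : (insert A 𝒪)ᶜ.ncard < n := by
        rw [← hn]
        exact Set.ncard_lt_ncard (compl_lt_compl_iff_lt.2 (Set.ssubset_insert hA')) (Set.toFinite _)
      refine retag (ih _ hlt _ rfl) (fun s => if h : s.1 ∈ 𝒪 then some ⟨s.1, h⟩ else none) ?_ ?_
      · intro s s'
        split_ifs <;> exact le_rfl
      · intro s
        split_ifs with h
        · exact subset_rfl
        · exact ((mem_insert_iff.1 s.2).resolve_right h).symm.subset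
  obtain ⟨V, G, O, τ, hc, hg, hw⟩ := hK _ {univ} rfl
  have h3 : 3 ≤ max l 3 := le_max_right _ _
  have key : ∀ u v w, O u v → O v w → ¬ G.Adj u w := by
    intro u v w a b c
    have e1 := ((hg.adj u v).2 (Or.inl a)).ne
    have e2 := ((hg.adj v w).2 (Or.inl b)).ne
    have := hg.far u v w a b (.cons c .nil) (by simp [e1.symm, e2])
    simp only [SimpleGraph.Walk.length_cons, SimpleGraph.Walk.length_nil] at this
    omega
  have asym : ∀ u v, O u v → ¬ O v u := by
    intro u v a b
    have e1 := ((hg.adj u v).2 (Or.inl a)).ne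
    have := hg.far u v u a b .nil (by simp [e1.symm])
    simp only [SimpleGraph.Walk.length_nil] at this
    omega
  refine ⟨V, G, hc, fun s hs => ?_, ?_, ?_⟩
  · obtain ⟨a, b, c, hab, hac, hbc, -⟩ := SimpleGraph.is3Clique_iff.1 hs
    rcases (hg.adj a b).1 hab with x | x <;> rcases (hg.adj a c).1 hac with y | y <;>
      rcases (hg.adj b c).1 hbc with z | z
    exacts [key _ _ _ x z hac, key _ _ _ y z hab, key _ _ _ x z hac, key _ _ _ y x hbc.symm,
      key _ _ _ x y hbc, key _ _ _ x y hbc, key _ _ _ z y hab.symm, key _ _ _ z x hac.symm]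
  · rintro ⟨C⟩
    obtain ⟨u, s, -, hs⟩ := hw C fun u v h => C.valid h
    exact hs ((mem_singleton_iff.1 s.2).symm.subset (mem_univ _))
  · rintro Y _ H hY ⟨f⟩
    refine ⟨fun u v => O (f u) (f v), fun u v => f.map_adj_iff.symm.trans (hg.adj _ _),
      fun u v => asym _ _, fun v w => ?_, fun u v w a b p => ?_⟩
    · rcases hg.nest (f v) (f w) with h | h | h
      exacts [Or.inl fun u => h _, Or.inr (Or.inl fun u => h _), Or.inr (Or.inr fun u => h _)]
    · by_contra hv
      have := Fintype.ofFinite Y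
      have h4 := p.bypass_isPath.length_lt
      have h5 := hg.far _ _ _ a b (p.bypass.map f.toHom) (by
        rw [SimpleGraph.Walk.support_map, List.mem_map]
        rintro ⟨x, hx, e⟩
        exact hv (f.injective e ▸ p.support_bypass_subset_support hx))
      rw [SimpleGraph.Walk.length_map] at h5
      rw [← Nat.card_eq_fintype_card] at h4
      omega

end Pool.Agent.MP_da1f04_co.I91
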