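import Pool.Agent.MP_da1f04_co.I91.SpecN

/-! Elimination of a well scattered tag. -/

set_option autoImplicit false

namespace Pool.Agent.MP_da1f04_co.I91

open Set Sum

namespace ElTop

variable {l N : ℕ} {T : Type} {δ : T → T → ℕ} {γ : T → ℕ} {Λ : T → Set (Fin N)}

/-- There is a piece all of whose list colourings use a colour of `A` on the marked set. -/
def Pz (l : ℕ) (δ : T → T → ℕ) (γ : T → ℕ) (Λ : T → Set (Fin N)) (A : Set (Fin N)) : Prop :=
  ∃ (V : Type) (G : SimpleGraph V) (O : V → V → Prop) (τ : V → Option T) (B : Set V),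
    (∀ (ρ : Type) [Subsingleton ρ], Cl Tiny 2 _ (cone ρ G B)) ∧ PcOk l δ γ G O τ B ∧
    ∀ φ : V → Fin N, (∀ u v, G.Adj u v → φ u ≠ φ v) → (∀ u s, τ u = some s → φ u ∈ Λ s) →
      ∃ b ∈ B, φ b ∈ A

theorem free {A : Set (Fin N)} {s : T} (hA : Λ s ⊆ A) (h0 : γ s = 0) : Pz l δ γ Λ A := by
  refine ⟨Unit, ⊥, fun _ _ => False, fun _ => some s, univ, fun ρ _ =>
    tiny (by rw [Nat.card_sum]; exact add_le_add (card_one ρ) (card_one Unit)) _,
    ⟨⟨?_, ?_, ?_, ?_, ?_⟩, fun _ => .inl fun _ h => h.elim, fun u s' e p => ?_,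
      fun _ _ => Option.some_ne_none s⟩, fun φ _ h => ⟨(), trivial, hA (h () s rfl)⟩⟩
  · rintro (u | u) (v | v) <;> simp [att, apO]
  · rintro (v | v) w
    · rcases w with w | w
      · exact .inl fun _ h => h
      · exact .inr (.inl (by rintro (u | u) h <;> exact h.elim))
    · exact .inl (by rintro (u | u) h <;> exact h.elim)
  · rintro (u | u) (v | v) w h h' <;> first | exact h.elim | exact h'.elim
  · rintro (u | u) (v | v) h <;> first | rfl | exact h.elim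
  · rintro (u | u) (v | v) _ _ h e e'
    exacts [(nomatch e), (nomatch e), (nomatch e'), (h rfl).elim]
  · obtain rfl : s = s' := Option.some_injective _ e
    rw [h0]
    exact Nat.pos_of_ne_zero fun h => nomatch SimpleGraph.Walk.eq_of_length_eq_zero h

theorem win (h : Pz l δ γ Λ ∅) : Win l N δ Λ := by
  obtain ⟨V, G, O, τ, B, c, ⟨g, -, -, -⟩, f⟩ := h
  let e : G →g cone Unit G B := ⟨inr, id⟩
  refine ⟨V, G, O, τ, .iso _ _ _ _ (c Empty) ⟨⟨Equiv.emptySum _ _, ?_⟩⟩,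
    ⟨fun u v => g.adj (inr u) (inr v), fun v w => ?_, fun u v w a b p hp => ?_,
      fun u v a => g.src (inr u) (inr v) a, fun u w s s' n a b p => ?_⟩, fun φ hφ => ?_⟩
  · rintro (x | x) (y | y)
    exacts [x.elim, x.elim, y.elim, Iff.rfl]
  · exact (g.nest (inr v) (inr w)).imp (fun a u => a (inr u))
      (Or.imp (fun a u => a (inr u)) fun a u => a (inr u))
  · rw [← p.length_map e]
    refine g.far (inr u) (inr v) (inr w) a b (p.map e) fun hv => hp ?_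
    rw [SimpleGraph.Walk.support_map] at hv
    obtain ⟨x, hx, ex⟩ := List.mem_map.1 hv
    exact (inr_injective ex : x = v) ▸ hx
  · rw [← p.length_map e]
    exact g.dist (inr u) (inr w) s s' (fun q => n (inr_injective q)) a b (p.map e)
  · by_contra hn
    push Not at hn
    obtain ⟨b, -, hb⟩ := f φ hφ hn
    exact hb

theorem step (h1 : GlClSt) (h2 : GlLocSt) (h3 : GlFarSt) (h4 : GlDistSt) {r : ℕ} (hr : l + 2 ≤ r)
    (tri : ∀ s s', δ s s' ≤ γ s + γ s' + 1) {A : Set (Fin N)}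
    (hW : Win l N (ext δ γ r) fun o => o.elim A Λ)
    (ih : ∀ t : {t // t ∉ A}, Pz l δ γ Λ (insert t.1 A)) : Pz l δ γ Λ A := by
  obtain ⟨W, G, O, τ, cW, gW, fW⟩ := hW
  choose Vt Gt Ot τt Bt ct pt ft using ih
  have := cW.finite
  let ι : Type := {x // τ x = some none} × {t // t ∉ A}
  have hin : GlIn l r δ γ G O τ (fun i : ι => Gt i.2) (fun i => Ot i.2) (fun i => τt i.2)
      (fun i => Bt i.2) fun i => i.1.1 := ⟨hr, tri, gW, fun i => i.1.2, fun i => pt i.2⟩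
  obtain ⟨a1, a2, a3, a4, a5⟩ := h2 _ _ _ _ _ _ _ _ _ _ _ _ _ _ _ _ hin
  obtain ⟨d1, d2⟩ := h4 _ _ _ _ _ _ _ _ _ _ _ _ _ _ _ _ hin
  have adj : ∀ t u v, (Gt t).Adj u v ↔ Ot t u v ∨ Ot t v u := fun t u v =>
    (pt t).gad.adj (inr u) (inr v)
  refine ⟨_, _, _, _, _, h1 W ι _ G O (fun i => Gt i.2) (fun i => Ot i.2) (fun i => Bt i.2)
    (fun i => i.1.1) gW.adj (fun i => adj i.2) cW fun i => ct i.2,
    ⟨⟨a1, a2, h3 _ _ _ _ _ _ _ _ _ _ _ _ _ _ _ _ hin, ?_, ?_⟩, a4, d2, a5⟩, fun φ hφ hΛ => ?_⟩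
  · rintro (u | u) (v | v) h
    exacts [rfl, h.elim, rfl, a3 u v h]
  · rintro (u | u) (v | v) s s' n e e'
    exacts [(nomatch e), (nomatch e), (nomatch e'), d1 u v s s' (fun q => n (congrArg _ q)) e e']
  · obtain ⟨u, s, hu, hs⟩ := fW (fun u => φ (inl u)) fun u v h =>
      hφ _ _ ⟨fun q => h.ne (inl_injective q), (gW.adj u v).1 h⟩
    rcases s with _ | s
    · let i : ι := (⟨u, hu⟩, ⟨φ (inl u), hs⟩)
      obtain ⟨b, hb, hc⟩ := ft i.2 (fun x => φ (inr ⟨i, x⟩)) (fun x y h => hφ _ _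
        ⟨fun q => h.ne (eq_of_heq (Sigma.mk.inj (inr_injective q)).2),
          ((adj i.2 x y).1 h).imp (fun o => ⟨i, x, y, rfl, rfl, o⟩) fun o => ⟨i, y, x, rfl, rfl, o⟩⟩)
        fun x s e => hΛ (inr ⟨i, x⟩) s e
      exact ⟨inr ⟨i, b⟩, ⟨i, b, rfl, hb⟩,
        hc.resolve_left (hφ (inr ⟨i, b⟩) (inl u) ⟨nofun, .inl ⟨hb, rfl⟩⟩)⟩
    · exact (hs (hΛ (inl u) s (by simp [glT, hu]))).elim

end ElTop

open ElTop in
theorem elTop (h1 : GlClSt) (h2 : GlLocSt) (h3 : GlFarSt) (h4 : GlDistSt) : ElTopSt := by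
  intro l N 𝒪 r hr T δ Λ γ tri hO hW
  refine win (γ := γ) ?_
  generalize (∅ : Set (Fin N)) = A
  induction A using WellFoundedGT.induction with | ind A ih
  by_cases hA : ∃ X ∈ 𝒪, X ⊆ A
  · obtain ⟨X, hX, hXA⟩ := hA
    obtain ⟨s, rfl, h0, -⟩ := hO X hX
    exact free hXA h0
  · exact step h1 h2 h3 h4 hr tri (hW A fun X hX h => hA ⟨X, hX, h⟩) fun t =>
      ih _ (ssubset_insert t.2)

end Pool.Agent.MP_da1f04_co.I91
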