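import Pool.Agent.MP_da1f04_co.I91.Spec

/-! The tree of events for a laminar bipartite pattern. -/

set_option autoImplicit false

namespace Pool.Agent.MP_da1f04_co.I91

open Set Function

namespace Es

variable {V X Y : Type} {lam : V → Nd} {E : Nd → V → Set V → Prop} {r : X → Y} {f : Y → Bool}
  {a : Y → Y → Prop}

theorem tr {s s' t : Nd} {τ τ' σ : Set V} (h : Below lam s τ s' τ')
    (h' : Below lam (s' ++ [true]) τ' t σ) : Below lam s τ t σ := by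
  have e := h.1.trans (List.prefix_append s' [true])
  refine ⟨e.trans h'.1, ?_⟩
  have k : arr lam s ⊆ arr lam (s' ++ [true]) := fun y ⟨u, h1, h2⟩ => ⟨u, h1.trans e, h2⟩
  rw [h.2, h'.2, inter_assoc, inter_eq_right.2 k]

theorem ninc {s s' l : Nd} (h : Inc s s') (h1 : s <+: l) (h2 : s' <+: l) : False :=
  (List.prefix_or_prefix_of_prefix h1 h2).elim h.1 h.2

theorem inc (t : Nd) : Inc (t ++ [false]) (t ++ [true]) := by
  simp [Inc, List.prefix_append_right_inj]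

/-- The conclusion for a set `U` of indexed roles. -/
structure Con (lam : V → Nd) (E : Nd → V → Set V → Prop) (r : X → Y) (f : Y → Bool)
    (a : Y → Y → Prop) (U : Set X) (s : Nd) (τ : Set V) (w : X → Nd × V × Set V) : Prop where
  ev : ∀ p ∈ U, E (w p).1 (w p).2.1 (w p).2.2 ∧ Below lam s τ (w p).1 (w p).2.2
  inj : ∀ p ∈ U, ∀ q ∈ U, (w p).1 ++ [f (r p)] <+: (w q).1 ++ [f (r q)] → p = q
  adj : ∀ p ∈ U, ∀ b ∈ U, f (r p) = false → f (r b) = true → a (r p) (r b) →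
    (w p).2.1 ∈ (w b).2.2
  sep : ∀ p ∈ U, ∀ b ∈ U, f (r p) = false → f (r b) = true → ¬ a (r p) (r b) →
    ∃ sA sB, Inc sA sB ∧ (∀ q ∈ U, r q = r p → sA <+: (w q).1 ++ [f (r q)]) ∧
      ∀ q ∈ U, r q = r b → sB <+: (w q).1 ++ [f (r q)]

theorem Con.pre {U : Set X} {s : Nd} {τ : Set V} {w : X → Nd × V × Set V}
    (h : Con lam E r f a U s τ w) {p : X} (hp : p ∈ U) : s <+: (w p).1 ++ [f (r p)] :=
  (h.ev p hp).2.1.trans (List.prefix_append _ _)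

theorem glue {Z : Type} (U : Set X) (w1 w2 : X → Z) :
    ∃ w : X → Z, (∀ p ∈ U, w p = w1 p) ∧ ∀ p ∉ U, w p = w2 p := by
  classical
  exact ⟨U.piecewise w1 w2, fun _ => piecewise_eq_of_mem _ _ _,
    fun _ => piecewise_eq_of_notMem _ _ _⟩

theorem top {U : Set X} {s t : Nd} {τ σ : Set V} {x : V} {w : X → Nd × V × Set V} {p : X}
    (hE : E t x σ) (hx : x ∈ σ) (hB : Below lam s τ t σ) (fp : f (r p) = false)
    (hp : ∀ b ∈ U, f (r b) = true → a (r p) (r b))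
    (h : Con lam E r f a (U \ {p}) (t ++ [true]) σ w) : ∃ w, Con lam E r f a U s τ w := by
  obtain ⟨v, v1, v2⟩ := glue {p} (fun _ => (t, x, σ)) w
  have v1 := v1 p rfl
  have nb : ∀ {b}, f (r b) = true → b ≠ p := fun e e' => by simp [e', fp] at e
  refine ⟨v, fun q hq => ?_, fun q hq q' hq' e => ?_, fun q hq b hb e1 e2 e3 => ?_,
    fun q hq b hb e1 e2 e3 => ?_⟩
  · by_cases e : q = p
    · rw [e, v1]; exact ⟨hE, hB⟩
    · rw [v2 q e]; exact ⟨(h.ev q ⟨hq, e⟩).1, tr hB (h.ev q ⟨hq, e⟩).2⟩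
  · by_cases e1 : q = p <;> by_cases e2 : q' = p
    · rw [e1, e2]
    · rw [e1, v1, v2 q' e2, fp] at e
      exact (ninc (inc t) e (h.pre ⟨hq', e2⟩)).elim
    · rw [e2, v1, v2 q e1, fp] at e
      exact ((inc t).2 ((h.pre ⟨hq, e1⟩).trans e)).elim
    · rw [v2 q e1, v2 q' e2] at e
      exact h.inj q ⟨hq, e1⟩ q' ⟨hq', e2⟩ e
  · rw [v2 b (nb e2)]
    by_cases e : q = p
    · rw [e, v1]
      rw [(h.ev b ⟨hb, nb e2⟩).2.2] at hx
      exact hx.1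
    · rw [v2 q e]; exact h.adj q ⟨hq, e⟩ b ⟨hb, nb e2⟩ e1 e2 e3
  · have ne : ∀ q', r q' = r q → q' ≠ p := fun q' e e' => e3 (by
      rw [← e, e']; exact hp b hb e2)
    obtain ⟨sA, sB, k1, k2, k3⟩ := h.sep q ⟨hq, ne q rfl⟩ b ⟨hb, nb e2⟩ e1 e2 e3
    refine ⟨sA, sB, k1, fun q' hq' e => ?_, fun q' hq' e => ?_⟩
    · rw [v2 q' (ne q' e)]; exact k2 q' ⟨hq', ne q' e⟩ e
    · rw [v2 q' (nb (e ▸ e2))]; exact k3 q' ⟨hq', nb (e ▸ e2)⟩ e

theorem join {U T : Set X} {s t t' : Nd} {τ σ σ' : Set V} {w w' : X → Nd × V × Set V}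
    (hB : Below lam s τ t σ) (hB' : Below lam s τ t' σ') (hI : Inc (t ++ [true]) (t' ++ [true]))
    (hr : ∀ p ∈ U, f (r p) = false → ∀ q q', r q = r q' → q ∈ T → q' ∈ T)
    (ha : ∀ p ∈ U, ∀ b ∈ U, f (r p) = false → f (r b) = true → a (r p) (r b) → (p ∈ T ↔ b ∈ T))
    (h : Con lam E r f a (U ∩ T) (t ++ [true]) σ w)
    (h' : Con lam E r f a (U \ T) (t' ++ [true]) σ' w') : ∃ w, Con lam E r f a U s τ w := by
  obtain ⟨v, v1, v2⟩ := glue T w w'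
  refine ⟨v, fun q hq => ?_, fun q hq q' hq' e => ?_, fun q hq b hb e1 e2 e3 => ?_,
    fun q hq b hb e1 e2 e3 => ?_⟩
  · by_cases e : q ∈ T
    · rw [v1 q e]; exact ⟨(h.ev q ⟨hq, e⟩).1, tr hB (h.ev q ⟨hq, e⟩).2⟩
    · rw [v2 q e]; exact ⟨(h'.ev q ⟨hq, e⟩).1, tr hB' (h'.ev q ⟨hq, e⟩).2⟩
  · by_cases e1 : q ∈ T <;> by_cases e2 : q' ∈ T
    · rw [v1 q e1, v1 q' e2] at e
      exact h.inj q ⟨hq, e1⟩ q' ⟨hq', e2⟩ e
    · rw [v1 q e1, v2 q' e2] at e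
      exact (ninc hI ((h.pre ⟨hq, e1⟩).trans e) (h'.pre ⟨hq', e2⟩)).elim
    · rw [v2 q e1, v1 q' e2] at e
      exact (ninc hI (h.pre ⟨hq', e2⟩) ((h'.pre ⟨hq, e1⟩).trans e)).elim
    · rw [v2 q e1, v2 q' e2] at e
      exact h'.inj q ⟨hq, e1⟩ q' ⟨hq', e2⟩ e
  · have k := ha q hq b hb e1 e2 e3
    by_cases e : q ∈ T
    · rw [v1 q e, v1 b (k.1 e)]; exact h.adj q ⟨hq, e⟩ b ⟨hb, k.1 e⟩ e1 e2 e3
    · rw [v2 q e, v2 b (mt k.2 e)]; exact h'.adj q ⟨hq, e⟩ b ⟨hb, mt k.2 e⟩ e1 e2 e3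
  · have c1 : ∀ {u u'}, r u' = r u → u ∈ T → u' ∈ T := fun e => hr q hq e1 _ _ e.symm
    have c2 : ∀ {u u'}, r u' = r u → u ∉ T → u' ∉ T := fun e => mt (hr q hq e1 _ _ e)
    by_cases k1 : q ∈ T <;> by_cases k2 : b ∈ T
    · obtain ⟨sA, sB, j1, j2, j3⟩ := h.sep q ⟨hq, k1⟩ b ⟨hb, k2⟩ e1 e2 e3
      refine ⟨sA, sB, j1, fun u hu e => ?_, fun u hu e => ?_⟩
      · rw [v1 u (c1 e k1)]; exact j2 u ⟨hu, c1 e k1⟩ e
      · rw [v1 u (c1 e k2)]; exact j3 u ⟨hu, c1 e k2⟩ e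
    · refine ⟨_, _, hI, fun u hu e => ?_, fun u hu e => ?_⟩
      · rw [v1 u (c1 e k1)]; exact h.pre ⟨hu, c1 e k1⟩
      · rw [v2 u (c2 e k2)]; exact h'.pre ⟨hu, c2 e k2⟩
    · refine ⟨_, _, hI.symm, fun u hu e => ?_, fun u hu e => ?_⟩
      · rw [v2 u (c2 e k1)]; exact h'.pre ⟨hu, c2 e k1⟩
      · rw [v1 u (c1 e k2)]; exact h.pre ⟨hu, c1 e k2⟩
    · obtain ⟨sA, sB, j1, j2, j3⟩ := h'.sep q ⟨hq, k1⟩ b ⟨hb, k2⟩ e1 e2 e3
      refine ⟨sA, sB, j1, fun u hu e => ?_, fun u hu e => ?_⟩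
      · rw [v2 u (c2 e k1)]; exact j2 u ⟨hu, c2 e k1⟩ e
      · rw [v2 u (c2 e k2)]; exact j3 u ⟨hu, c2 e k2⟩ e

theorem main [Finite X] (hE : ∀ t x σ, E t x σ → x ∈ σ)
    (nest : ∀ y y', (∀ b, a y b → a y' b) ∨ (∀ b, a y' b → a y b) ∨ ∀ b, a y b → ¬ a y' b)
    (m : ℕ) : ∀ (U : Set X) (s : Nd) (τ : Set V), U.ncard ≤ m → Rk lam E (m + 1) s τ →
      ∃ w, Con lam E r f a U s τ w := by
  have base : ∀ (U : Set X) (s : Nd) (τ : Set V) (j : ℕ), U.Subsingleton →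
      Rk lam E (j + 1) s τ → ∃ w, Con lam E r f a U s τ w := by
    rintro U s τ j hU ⟨t, x, σ, -, -, -, h1, -, h2, -⟩
    exact ⟨fun _ => (t, x, σ), fun _ _ => ⟨h1, h2⟩, fun p hp q hq _ => hU hp hq,
      fun p hp b hb e1 e2 => by simp [hU hp hb, e2] at e1,
      fun p hp b hb e1 e2 => by simp [hU hp hb, e2] at e1⟩
  induction m with
  | zero =>
    intro U s τ hU h
    exact base U s τ 0 (ncard_le_one_iff_subsingleton.1 (by omega)) h
  | succ m ih =>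
    intro U s τ hU h
    rcases U.subsingleton_or_nontrivial with h0 | h0
    · exact base U s τ _ h0 h
    obtain ⟨t, x, σ, t', x', σ', h1, -, h3, h4, h5, h6, h7⟩ := h
    have lt : ∀ {W : Set X} {u}, W ⊆ U → u ∈ U → u ∉ W → W.ncard ≤ m := fun k1 k2 k3 =>
      Nat.lt_succ_iff.1 ((ncard_lt_ncard ⟨k1, fun k => k3 (k k2)⟩).trans_le hU)
    have spl : ∀ (T : Set X) {u u'}, u ∈ U → u ∈ T → u' ∈ U → u' ∉ T →
        (∀ p ∈ U, f (r p) = false → ∀ q q', r q = r q' → q ∈ T → q' ∈ T) →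
        (∀ p ∈ U, ∀ b ∈ U, f (r p) = false → f (r b) = true → a (r p) (r b) → (p ∈ T ↔ b ∈ T)) →
        ∃ w, Con lam E r f a U s τ w := fun T u u' k1 k2 k3 k4 k5 k6 => by
      obtain ⟨w, hw⟩ := ih (U ∩ T) _ _ (lt inter_subset_left k3 fun k => k4 k.2) h6
      obtain ⟨w', hw'⟩ := ih (U \ T) _ _ (lt sdiff_subset k1 fun k => k.2 k2) h7
      exact join h3 h4 h5 k5 k6 hw hw'
    rcases {p ∈ U | f (r p) = false}.eq_empty_or_nonempty with hA | hA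
    · obtain ⟨u, hu, u', hu', ne⟩ := h0
      have no : ∀ p ∈ U, f (r p) ≠ false := fun p k1 k2 => hA.subset ⟨k1, k2⟩
      exact spl {u} hu rfl hu' ne.symm (fun p k1 k2 => (no p k1 k2).elim)
        fun p k1 _ _ k2 => (no p k1 k2).elim
    obtain ⟨p, ⟨hp, fp⟩, mx⟩ := exists_max_image _
      (fun p => {b ∈ U | f (r b) = true ∧ a (r p) (r b)}.ncard) (toFinite _) hA
    by_cases hall : ∀ b ∈ U, f (r b) = true → a (r p) (r b)
    · obtain ⟨w, hw⟩ := ih (U \ {p}) _ _ (lt sdiff_subset hp fun k => k.2 rfl) h6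
      exact top h1 (hE _ _ _ h1) h3 fp hall hw
    push Not at hall
    obtain ⟨b0, hb0, fb0, nb0⟩ := hall
    refine spl {q | (f (r q) = false ∧ ∀ b ∈ U, f (r b) = true → a (r q) (r b) → a (r p) (r b)) ∨
      (f (r q) = true ∧ a (r p) (r q))} hp (.inl ⟨fp, fun _ _ _ k => k⟩) hb0 (by simp [fb0, nb0])
      (fun _ _ _ q q' e k => by simpa only [mem_setOf_eq, e] using k) fun q hq b hb e1 e2 e3 => ?_
    simp only [mem_setOf_eq, e1, e2, true_and, Bool.false_eq_true, Bool.true_eq_false, false_and,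
      or_false, false_or]
    refine ⟨fun k => k b hb e2 e3, fun k c hc e4 e5 => ?_⟩
    rcases nest (r q) (r p) with n | n | n
    · exact n _ e5
    · have := eq_of_subset_of_ncard_le (s := {b ∈ U | f (r b) = true ∧ a (r p) (r b)})
        (t := {b ∈ U | f (r b) = true ∧ a (r q) (r b)}) (fun y hy => ⟨hy.1, hy.2.1, n _ hy.2.2⟩)
        (mx q ⟨hq, e1⟩)
      exact (this.superset ⟨hc, e4, e5⟩).2.2
    · exact (n _ e3 k).elim

end Es

theorem es : EsSt := by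
  classical
  intro Y _ n
  refine ⟨Nat.card (Y × Fin n) + 1, fun V lam E hE A B a hd nest s τ h => ?_⟩
  obtain ⟨w, hw⟩ := Es.main (r := (Prod.fst : Y × Fin n → Y)) (f := fun y => decide (y ∈ B))
    (a := fun y b => y ∈ A ∧ b ∈ B ∧ a y b) hE (fun y y' => by
      by_cases k : y ∈ A
      · by_cases k' : y' ∈ A
        · exact (nest y k y' k').imp (fun j b e => ⟨k', e.2.1, j b e.2.1 e.2.2⟩) (Or.imp
            (fun j b e => ⟨k, e.2.1, j b e.2.1 e.2.2⟩) fun j b e e' => j b e.2.1 e.2.2 e'.2.2)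
        · exact .inr (.inl fun _ e => (k' e.1).elim)
      · exact .inl fun _ e => (k e.1).elim) _ {q | q.1 ∈ A ∪ B} s τ (ncard_le_card _) h
  refine ⟨fun p i => (w (p, i)).1, fun p i => (w (p, i)).1 ++ [decide (p ∈ B)],
    fun p i => (w (p, i)).2.1, fun p i => (w (p, i)).2.2, fun p hp i => hw.ev (p, i) hp,
    fun p hp i => by simp [hd p hp], fun b hb i => by simp [hb],
    fun p hp p' hp' i j e => Prod.ext_iff.1 (hw.inj (p, i) hp (p', j) hp' e),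
    fun p hp b hb e i j => hw.adj (p, i) (.inl hp) (b, j) (.inr hb) (by simp [hd p hp])
      (by simp [hb]) ⟨hp, hb, e⟩, fun p hp b hb e => ?_⟩
  rcases isEmpty_or_nonempty (Fin n) with h0 | ⟨⟨i0⟩⟩
  · exact ⟨_, _, Es.inc [], fun i => h0.elim i⟩
  obtain ⟨sA, sB, j1, j2, j3⟩ := hw.sep (p, i0) (.inl hp) (b, i0) (.inr hb) (by simp [hd p hp])
    (by simp [hb]) fun k => e k.2.2
  exact ⟨sA, sB, j1, fun i => ⟨j2 (p, i) (.inl hp) rfl, j3 (b, i) (.inr hb) rfl⟩⟩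

end Pool.Agent.MP_da1f04_co.I91
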