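import Mathlib.Combinatorics.SimpleGraph.Walk.Basic

/-! Laminar graphs. -/

set_option autoImplicit false

namespace Pool.Agent.MP_da1f04_co

/-- The graph has an orientation in which any two in-neighbourhoods are nested or disjoint and the
middle vertex of every directed path with two edges separates its ends. -/
def Laminar {Y : Type} (H : SimpleGraph Y) : Prop :=
  ∃ O : Y → Y → Prop, (∀ u v, H.Adj u v ↔ O u v ∨ O v u) ∧ (∀ u v, O u v → ¬ O v u) ∧
    (∀ v w, (∀ u, O u v → O u w) ∨ (∀ u, O u w → O u v) ∨ ∀ u, O u v → ¬ O u w) ∧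
    ∀ u v w, O u v → O v w → ∀ p : H.Walk u w, v ∈ p.support

end Pool.Agent.MP_da1f04_co
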