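import Mathlib
import Pool.Agent.MP_da1f04_co.I91.Lam

/-! Forests and complete bipartite graphs are laminar. -/

set_option autoImplicit false

namespace Pool.Agent.MP_da1f04_co.I91

open SimpleGraph

theorem laminar_of_isAcyclic {Y : Type} {H : SimpleGraph Y} (h : H.IsAcyclic) : Laminar H := by
  classical
  let r : Y → Y := fun v => (H.connectedComponentMk v).out
  have r1 : ∀ v, H.Reachable (r v) v := fun v =>
    ConnectedComponent.exact (H.connectedComponentMk v).out_eq
  have r2 : ∀ u v, H.Adj u v → r u = r v := fun u v a => by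
    simp only [r, ConnectedComponent.sound a.reachable]
  let O : Y → Y → Prop := fun u v =>
    H.Adj u v ∧ ∃ a, a = r v ∧ ∃ p : H.Walk a v, p.IsPath ∧ u ∈ p.support
  have asym : ∀ u v, O u v → ¬ O v u := by
    rintro u v ⟨a, _, rfl, p, p1, p2⟩ ⟨-, b, e, q, q1, q2⟩
    obtain rfl : b = r v := e.trans (r2 u v a)
    exact h.ne_mem_support_of_support_of_adj_of_isPath p1 q1 a.symm p2 q2
  have uniq : ∀ u u' v, O u v → O u' v → u = u' := by
    rintro u u' v ⟨a, _, rfl, p, p1, p2⟩ ⟨a', _, rfl, q, q1, q2⟩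
    obtain rfl : p = q := Subtype.mk.inj ((h.subsingleton_path _ _).elim ⟨p, p1⟩ ⟨q, q1⟩)
    rw [h.eq_penultimate_of_adj_end p1 a.symm p2, h.eq_penultimate_of_adj_end p1 a'.symm q2]
  refine ⟨O, fun u v => ⟨fun a => ?_, fun a => a.elim (·.1) (·.1.symm)⟩, asym, fun v w => ?_,
    fun u v w a b p => by_contra fun hn => ?_⟩
  · obtain ⟨p, p1⟩ := (r1 v).exists_isPath
    obtain ⟨q, q1⟩ := ((r1 v).trans a.symm.reachable).exists_isPath
    by_cases hv : v ∈ q.support
    · exact Or.inr ⟨a.symm, _, (r2 u v a).symm, q, q1, hv⟩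
    · exact Or.inl ⟨a, _, rfl, p,
        p1, h.mem_support_of_ne_mem_support_of_adj_of_isPath p1 q1 a.symm hv⟩
  · by_cases e : ∃ u, O u v ∧ O u w
    · obtain ⟨u, a, b⟩ := e
      exact Or.inl fun u' a' => uniq u u' v a a' ▸ b
    · exact Or.inr (Or.inr fun u a b => e ⟨u, a, b⟩)
  · have hv : v ∉ p.bypass.support := fun m => hn (p.support_bypass_subset_support m)
    have e := h.eq_snd_of_adj_start (p.bypass_isPath.concat hv b.1.symm) a.1 (by simp)
    have hne : u ≠ w := fun e => asym u v a (e ▸ b)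
    apply hv
    cases hp : p.bypass with
    | nil => exact (hne rfl).elim
    | cons a' q =>
      rw [hp] at e
      rw [e]
      simp

theorem laminar_completeBipartite (A B : Type) : Laminar (completeBipartiteGraph A B) := by
  refine ⟨fun u v => u.isLeft ∧ v.isRight, ?_, ?_, ?_, ?_⟩
  · rintro (u | u) (v | v) <;> simp
  · rintro (u | u) (v | v) <;> simp
  · rintro (v | v) (w | w) <;> simp
  · rintro u (v | v) w <;> simp

end Pool.Agent.MP_da1f04_co.I91
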