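import Mathlib
import Pool.Agent.MP_da1f04_co.Hom
import Pool.Agent.MP_da1f04_co.I91.Lam

/-! Definitions and statements of the steps for the construction of locally laminar graphs. -/

set_option autoImplicit false

namespace Pool.Agent.MP_da1f04_co.I91

open Set Sum

/-- An oriented graph with laminar in-neighbourhoods, long detours and scattered tags. -/
structure Gad (l : ℕ) {T : Type} (δ : T → T → ℕ) {V : Type} (G : SimpleGraph V)
    (O : V → V → Prop) (τ : V → Option T) : Prop where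
  adj : ∀ u v, G.Adj u v ↔ O u v ∨ O v u
  nest : ∀ v w, (∀ u, O u v → O u w) ∨ (∀ u, O u w → O u v) ∨ ∀ u, O u v → ¬ O u w
  far : ∀ u v w, O u v → O v w → ∀ p : G.Walk u w, v ∉ p.support → l ≤ p.length
  src : ∀ u v, O u v → τ v = none
  dist : ∀ u w s s', u ≠ w → τ u = some s → τ w = some s' → ∀ p : G.Walk u w, δ s s' ≤ p.length

/-- There is a gadget in the closure without a list colouring. -/
def Win (l N : ℕ) {T : Type} (δ : T → T → ℕ) (Λ : T → Set (Fin N)) : Prop :=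
  ∃ (V : Type) (G : SimpleGraph V) (O : V → V → Prop) (τ : V → Option T), Cl Tiny 2 V G ∧
    Gad l δ G O τ ∧ ∀ φ : V → Fin N, (∀ u v, G.Adj u v → φ u ≠ φ v) →
      ∃ u s, τ u = some s ∧ φ u ∉ Λ s

/-- Distances with one more tag. -/
def ext {T : Type} (δ : T → T → ℕ) (γ : T → ℕ) (r : ℕ) : Option T → Option T → ℕ
  | none, none => r
  | some s, none => γ s
  | none, some s => γ s
  | some s, some s' => δ s s'

/-- Elimination of a tag whose vertices are at distance at least `r`. -/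
def El (l N : ℕ) (𝒪 : Set (Set (Fin N))) (r : ℕ) : Prop :=
  ∀ (T : Type) (δ : T → T → ℕ) (Λ : T → Set (Fin N)) (γ : T → ℕ),
    (∀ s s', δ s s' ≤ γ s + γ s' + 1) →
    (∀ X ∈ 𝒪, ∃ s, Λ s = X ∧ γ s = 0 ∧ ∀ s', δ s s' = 0 ∧ δ s' s = 0) →
    (∀ A : Set (Fin N), (∀ X ∈ 𝒪, ¬ X ⊆ A) → Win l N (ext δ γ r) (fun o => o.elim A Λ)) →
    Win l N δ Λ

/-- The orientation with an apex that receives an edge from every vertex of `B`. -/
def apO {V : Type} (O : V → V → Prop) (B : Set V) : Unit ⊕ V → Unit ⊕ V → Prop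
  | inr u, inr v => O u v
  | inr u, inl _ => u ∈ B
  | inl _, _ => False

/-- A piece: a gadget together with an apex. -/
structure PcOk (l : ℕ) {T : Type} (δ : T → T → ℕ) (γ : T → ℕ) {V : Type} (G : SimpleGraph V)
    (O : V → V → Prop) (τ : V → Option T) (B : Set V) : Prop where
  gad : Gad l δ (cone Unit G B) (apO O B) (Sum.elim (fun _ => none) τ)
  split : ∀ v, (∀ u, O u v → u ∈ B) ∨ ∀ u, O u v → u ∉ B
  apex : ∀ u s, τ u = some s → ∀ p : (cone Unit G B).Walk (inr u) (inl ()), γ s + 1 ≤ p.length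
  tagB : ∀ b ∈ B, τ b ≠ none

section glue

variable {T W ι : Type} {Vi : ι → Type} (O : W → W → Prop) (Oi : ∀ i, Vi i → Vi i → Prop)
  (Bi : ∀ i, Set (Vi i)) (j : ι → W)

/-- The orientation after joining the piece `i` to the vertex `j i`. -/
def glO : W ⊕ (Σ i, Vi i) → W ⊕ (Σ i, Vi i) → Prop
  | inl u, inl v => O u v
  | inl _, inr _ => False
  | inr a, inl v => a.2 ∈ Bi a.1 ∧ v = j a.1
  | inr a, inr b => ∃ (i : ι) (u v : Vi i), a = ⟨i, u⟩ ∧ b = ⟨i, v⟩ ∧ Oi i u v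

/-- The graph after joining the pieces. -/
def glG : SimpleGraph (W ⊕ (Σ i, Vi i)) := SimpleGraph.fromRel (glO O Oi Bi j)

/-- The new marked set. -/
def glB : Set (W ⊕ (Σ i, Vi i)) := {a | ∃ (i : ι) (b : Vi i), a = inr ⟨i, b⟩ ∧ b ∈ Bi i}

/-- The new tags. -/
def glT (τ : W → Option (Option T)) (τi : ∀ i, Vi i → Option T) : W ⊕ (Σ i, Vi i) → Option T
  | inl u => (τ u).bind id
  | inr a => τi a.1 a.2

end glue

/-- The data of one gluing step. -/
structure GlIn (l r : ℕ) {T W ι : Type} {Vi : ι → Type} (δ : T → T → ℕ) (γ : T → ℕ)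
    (G : SimpleGraph W) (O : W → W → Prop) (τ : W → Option (Option T))
    (Gi : ∀ i, SimpleGraph (Vi i)) (Oi : ∀ i, Vi i → Vi i → Prop) (τi : ∀ i, Vi i → Option T)
    (Bi : ∀ i, Set (Vi i)) (j : ι → W) : Prop where
  big : l + 2 ≤ r
  tri : ∀ s s', δ s s' ≤ γ s + γ s' + 1
  gad : Gad l (ext δ γ r) G O τ
  live : ∀ i, τ (j i) = some none
  pc : ∀ i, PcOk l δ γ (Gi i) (Oi i) (τi i) (Bi i)

/-- The glued graph with at most one apex lies in the closure. -/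
def GlClSt : Prop :=
  ∀ (W ι : Type) [Finite ι] (Vi : ι → Type) (G : SimpleGraph W) (O : W → W → Prop)
    (Gi : ∀ i, SimpleGraph (Vi i)) (Oi : ∀ i, Vi i → Vi i → Prop) (Bi : ∀ i, Set (Vi i))
    (j : ι → W), (∀ u v, G.Adj u v ↔ O u v ∨ O v u) →
    (∀ i u v, (Gi i).Adj u v ↔ Oi i u v ∨ Oi i v u) → Cl Tiny 2 W G →
    (∀ i (ρ : Type) [Subsingleton ρ], Cl Tiny 2 _ (cone ρ (Gi i) (Bi i))) →
    ∀ (ρ : Type) [Subsingleton ρ], Cl Tiny 2 _ (cone ρ (glG O Oi Bi j) (glB Bi))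

/-- The parts of the invariant that do not mention walks. -/
def GlLocSt : Prop :=
  ∀ (l r : ℕ) (T W ι : Type) (Vi : ι → Type) (δ : T → T → ℕ) (γ : T → ℕ) (G : SimpleGraph W)
    (O : W → W → Prop) (τ : W → Option (Option T)) (Gi : ∀ i, SimpleGraph (Vi i))
    (Oi : ∀ i, Vi i → Vi i → Prop) (τi : ∀ i, Vi i → Option T) (Bi : ∀ i, Set (Vi i))
    (j : ι → W), GlIn l r δ γ G O τ Gi Oi τi Bi j →
    (∀ u v, (cone Unit (glG O Oi Bi j) (glB Bi)).Adj u v ↔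
      apO (glO O Oi Bi j) (glB Bi) u v ∨ apO (glO O Oi Bi j) (glB Bi) v u) ∧
    (∀ v w, (∀ u, apO (glO O Oi Bi j) (glB Bi) u v → apO (glO O Oi Bi j) (glB Bi) u w) ∨
      (∀ u, apO (glO O Oi Bi j) (glB Bi) u w → apO (glO O Oi Bi j) (glB Bi) u v) ∨
      ∀ u, apO (glO O Oi Bi j) (glB Bi) u v → ¬ apO (glO O Oi Bi j) (glB Bi) u w) ∧
    (∀ u v, glO O Oi Bi j u v → glT τ τi v = none) ∧
    (∀ v, (∀ u, glO O Oi Bi j u v → u ∈ glB Bi) ∨ ∀ u, glO O Oi Bi j u v → u ∉ glB Bi) ∧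
    ∀ b ∈ glB Bi, glT τ τi b ≠ none

/-- Detours stay long. -/
def GlFarSt : Prop :=
  ∀ (l r : ℕ) (T W ι : Type) (Vi : ι → Type) (δ : T → T → ℕ) (γ : T → ℕ) (G : SimpleGraph W)
    (O : W → W → Prop) (τ : W → Option (Option T)) (Gi : ∀ i, SimpleGraph (Vi i))
    (Oi : ∀ i, Vi i → Vi i → Prop) (τi : ∀ i, Vi i → Option T) (Bi : ∀ i, Set (Vi i))
    (j : ι → W), GlIn l r δ γ G O τ Gi Oi τi Bi j →
    ∀ u v w, apO (glO O Oi Bi j) (glB Bi) u v → apO (glO O Oi Bi j) (glB Bi) v w →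
      ∀ p : (cone Unit (glG O Oi Bi j) (glB Bi)).Walk u w, v ∉ p.support → l ≤ p.length

/-- Tagged vertices stay scattered. -/
def GlDistSt : Prop :=
  ∀ (l r : ℕ) (T W ι : Type) (Vi : ι → Type) (δ : T → T → ℕ) (γ : T → ℕ) (G : SimpleGraph W)
    (O : W → W → Prop) (τ : W → Option (Option T)) (Gi : ∀ i, SimpleGraph (Vi i))
    (Oi : ∀ i, Vi i → Vi i → Prop) (τi : ∀ i, Vi i → Option T) (Bi : ∀ i, Set (Vi i))
    (j : ι → W), GlIn l r δ γ G O τ Gi Oi τi Bi j →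
    (∀ u w s s', u ≠ w → glT τ τi u = some s → glT τ τi w = some s' →
      ∀ p : (cone Unit (glG O Oi Bi j) (glB Bi)).Walk (inr u) (inr w), δ s s' ≤ p.length) ∧
    ∀ u s, glT τ τi u = some s →
      ∀ p : (cone Unit (glG O Oi Bi j) (glB Bi)).Walk (inr u) (inl ()), γ s + 1 ≤ p.length

/-- Elimination of a well scattered tag. -/
def ElTopSt : Prop := ∀ (l N : ℕ) (𝒪 : Set (Set (Fin N))) (r : ℕ), l + 2 ≤ r → El l N 𝒪 r

/-- Scattering can be improved. -/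
def ElStepSt : Prop := ∀ (l N : ℕ) (𝒪 : Set (Set (Fin N))) (r : ℕ), El l N 𝒪 (r + 1) → El l N 𝒪 r

/-- Locally laminar graphs of large chromatic number in the closure. -/
def NegSt : Prop :=
  ∀ l N : ℕ, ∃ (V : Type) (G : SimpleGraph V), Cl Tiny 2 V G ∧ G.CliqueFree 3 ∧
    ¬ G.Colorable N ∧ ∀ (Y : Type) [Finite Y] (H : SimpleGraph Y), Nat.card Y ≤ l →
      Nonempty (H ↪g G) → Laminar H

end Pool.Agent.MP_da1f04_co.I91
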