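import Pool.Agent.MP_da1f04_co.I91.Glue
import Pool.Agent.MP_da1f04_co.I91.SpecN

/-! The classification from its two halves. -/

set_option autoImplicit false

namespace Pool.Agent.MP_da1f04_co.I91

theorem final (h1 : DerSt) (h2 : HtSt) (h3 : RedSt) (h4 : ModelSt) (h5 : NegSt) (k : ℕ)
    (hk : 2 ≤ k) (ι : Type) [Finite ι] (n : ι → ℕ) (F : ∀ i, SimpleGraph (Fin (n i))) :
    (∀ C : GClass, ChiBounded C → ChiBounded fun _ G =>
      (∃ (W : Type) (H : SimpleGraph W), Cl C k W H ∧ Nonempty (G ↪g H)) ∧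
        ∀ i, IsEmpty (F i ↪g G)) ↔ ∃ i, Laminar (F i) := by
  refine ⟨fun h => by_contra fun hn => ?_, fun ⟨i, hi⟩ C hC => ?_⟩
  · obtain ⟨f, hf⟩ := h Tiny ⟨fun _ => 2, fun V G _ hV s _ _ => by
      have := Fintype.ofFinite V
      exact (G.colorable_of_fintype.mono (Nat.card_eq_fintype_card (α := V) ▸ hV)).of_hom
        (SimpleGraph.Embedding.induce s).toHom⟩
    obtain ⟨g, hg⟩ := (Set.finite_range n).bddAbove
    obtain ⟨V, G, g1, g2, g3, g4⟩ := h5 g (f 2)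
    obtain ⟨c⟩ := hf V G g1.finite ⟨⟨V, G, g1.mono hk, ⟨.refl⟩⟩, fun i => ⟨fun e =>
      hn ⟨i, g4 _ _ (by simpa using hg ⟨i, rfl⟩) ⟨e⟩⟩⟩⟩ Set.univ 2
      (g2.comap (SimpleGraph.Embedding.induce _).isContained)
    exact g3 ⟨c.comp G.induceUnivIso.symm.toHom⟩
  · choose c hc using posSt h1 h2 h3 h4 hC k hi
    exact ⟨c, fun V G _ ⟨⟨W, H, a1, ⟨e⟩⟩, a2⟩ s m cf => hc m s W _ H a1
      ⟨e.comp (SimpleGraph.Embedding.induce s)⟩
      ⟨fun a => (a2 i).false ((SimpleGraph.Embedding.induce s).comp a)⟩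
      (cf.mono (Nat.le_succ _))⟩

end Pool.Agent.MP_da1f04_co.I91
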