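import Pool.Agent.MP_da1f04_co.I91.SpecN

/-! The glued graph lies in the closure; the local parts of the invariant. -/

set_option autoImplicit false

namespace Pool.Agent.MP_da1f04_co.I91

open Set Sum SimpleGraph

namespace GlCl

theorem glueOn {U : Type} {J : SimpleGraph U} {a b : Set U} (ha : Cl Tiny 2 a (J.induce a))
    (hb : Cl Tiny 2 b (J.induce b)) (hk : (a ∩ b).ncard ≤ 2)
    (no : ∀ x ∈ a, x ∉ b → ∀ y ∈ b, y ∉ a → ¬ J.Adj x y) :
    Cl Tiny 2 (a ∪ b : Set U) (J.induce (a ∪ b)) := by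
  have ra : ∀ x : (a ∪ b : Set U), x ∈ range (J.induceHomOfLE (subset_union_left (t := b))) ↔
      x.1 ∈ a := fun x => ⟨by rintro ⟨y, rfl⟩; exact y.2, fun h => ⟨⟨_, h⟩, rfl⟩⟩
  have rb : ∀ x : (a ∪ b : Set U), x ∈ range (J.induceHomOfLE (subset_union_right (s := a))) ↔
      x.1 ∈ b := fun x => ⟨by rintro ⟨y, rfl⟩; exact y.2, fun h => ⟨⟨_, h⟩, rfl⟩⟩
  refine ha.glue' hb (J.induceHomOfLE subset_union_left) (J.induceHomOfLE subset_union_right)
    (fun x => by rw [ra, rb]; exact x.2) ?_ fun x hx y hy => ?_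
  · rw [← ncard_image_of_injective _ Subtype.val_injective]
    refine le_of_eq_of_le (congrArg _ ?_) hk
    ext x
    simp only [mem_image, mem_inter_iff, ra, rb]
    exact ⟨by rintro ⟨y, h, rfl⟩; exact h, fun h => ⟨⟨x, .inl h.1⟩, h, rfl⟩⟩
  · rw [rb] at hx
    rw [ra] at hy
    exact no _ (x.2.resolve_right hx) hx _ (y.2.resolve_left hy) hy

variable {W ι : Type} {Vi : ι → Type} {O : W → W → Prop} {Oi : ∀ i, Vi i → Vi i → Prop}
  {Bi : ∀ i, Set (Vi i)} {j : ι → W}

theorem same {i : ι} {u v : Vi i} : glO O Oi Bi j (inr ⟨i, u⟩) (inr ⟨i, v⟩) ↔ Oi i u v :=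
  ⟨by rintro ⟨i', u', v', h1, h2, h⟩; cases h1; cases h2; exact h, fun h => ⟨i, u, v, rfl, rfl, h⟩⟩

theorem idx {a b : Σ i, Vi i} (h : glO O Oi Bi j (inr a) (inr b)) : a.1 = b.1 := by
  obtain ⟨i, u, v, rfl, rfl, -⟩ := h
  rfl

theorem memB {i : ι} {u : Vi i} : (inr ⟨i, u⟩ : W ⊕ Σ i, Vi i) ∈ glB Bi ↔ u ∈ Bi i :=
  ⟨by rintro ⟨i', u', h1, h⟩; cases h1; exact h, fun h => ⟨i, u, rfl, h⟩⟩

theorem notB {u : W} : (inl u : W ⊕ Σ i, Vi i) ∉ glB Bi := by
  rintro ⟨i', u', h1, -⟩
  cases h1

theorem adj {G : SimpleGraph W} {Gi : ∀ i, SimpleGraph (Vi i)}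
    (hG : ∀ u v, G.Adj u v ↔ O u v ∨ O v u)
    (hGi : ∀ i u v, (Gi i).Adj u v ↔ Oi i u v ∨ Oi i v u) (u v : W ⊕ Σ i, Vi i) :
    (glG O Oi Bi j).Adj u v ↔ glO O Oi Bi j u v ∨ glO O Oi Bi j v u := by
  rw [glG, fromRel_adj, and_iff_right_iff_imp]
  rintro h rfl
  rcases u with u | ⟨i, u⟩
  · exact ((hG u u).2 h).ne rfl
  · exact ((hGi i u u).2 (by simpa only [same] using h)).ne rfl

end GlCl

open GlCl

theorem glCl : GlClSt := by
  classical
  intro W ι _ Vi G O Gi Oi Bi j hG hGi hW hi ρ _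
  have := Fintype.ofFinite ι
  have ad := adj (Bi := Bi) (j := j) hG hGi
  have key : ∀ s : Finset ι, Cl Tiny 2 _ ((cone ρ (glG O Oi Bi j) (glB Bi)).induce
      {x | ∀ a, x = inr (inr a) → a.1 ∈ s}) := fun s => by
    induction s using Finset.induction_on with
    | empty =>
      have h0 : Cl Tiny 2 _ (cone ρ G ∅) :=
        (tiny ((card_one ρ).trans one_le_two) ⊥).glue' hW ⟨⟨inl, inl_injective⟩, Iff.rfl⟩
          ⟨⟨inr, inr_injective⟩, Iff.rfl⟩ (by rintro (x | x) <;> simp)
          (by simp [Set.range_inl_inter_range_inr])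
          (by rintro (x | x) hx (y | y) hy <;> simp_all [att])
      refine h0.emb ⟨⟨Sum.map id inl, Sum.map_injective.2
        ⟨Function.injective_id, inl_injective⟩⟩, ?_⟩ ?_
      · rintro (x | x) (y | y) <;> simp [att, notB, ad, hG, glO]
      · ext (x | x | x) <;> simp
    | insert i s his ih =>
      have h1 : Cl Tiny 2 _ ((cone ρ (glG O Oi Bi j) (glB Bi)).induce
          {x | ∀ y, x = inr y → y = inl (j i) ∨ ∃ v, y = inr ⟨i, v⟩}) := by
        refine (two (hi i) (ρ ⊕ Unit) ?_).emb ⟨⟨Sum.elim (Sum.map id fun _ => inl (j i))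
          fun v => inr (inr ⟨i, v⟩), ?_⟩, ?_⟩ ?_
        · rw [Nat.card_sum]
          exact add_le_add (card_one ρ) (card_one Unit)
        · rintro ((x | x) | x) ((y | y) | y) h <;> simp_all
        · rintro ((x | x) | x) ((y | y) | y) <;> simp [att, notB, memB, ad, hGi, same]
          all_goals simp [glO]
        · ext (x | x | ⟨i', x⟩) <;> simp [eq_comm]
      refine (glueOn ih h1 ?_ ?_).emb (Embedding.induce _) ?_
      · refine (ncard_le_ncard (t := range inl ∪ {inr (inl (j i))}) ?_).trans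
          ((ncard_union_le _ _).trans (add_le_add (b := 1) (d := 1) ?_ (ncard_singleton _).le))
        · rintro (x | x) ⟨h2, h3⟩
          · exact .inl ⟨x, rfl⟩
          · rcases h3 x rfl with rfl | ⟨v, rfl⟩
            exacts [.inr rfl, (his (h2 _ rfl)).elim]
        · exact (ncard_le_one (finite_range _)).2 (subsingleton_range _)
      · rintro x hx hx' (y | y) hy hy' h
        · exact hy' fun _ h => by cases h
        rcases hy y rfl with rfl | ⟨v, rfl⟩
        · exact hy' fun _ h => by cases h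
        rcases x with x | x | ⟨i', x⟩
        · exact hx' fun _ h => by cases h
        · rcases (ad _ _).1 h with h | h
          exacts [h, hx' fun _ e => by cases e; exact .inl (congrArg _ h.2)]
        · obtain rfl : i' = i := ((ad _ _).1 h).elim idx fun h => (idx h).symm
          exact his (hx _ rfl)
      · refine Subtype.range_coe.trans (Set.ext ?_)
        rintro (x | x | ⟨i', x⟩)
        · simp
        · simp
        · refine ⟨?_, fun h => ?_⟩
          · rintro (h | h) _ e <;> cases e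
            · exact Finset.mem_insert_of_mem (h _ rfl)
            · rcases h _ rfl with e | ⟨v, e⟩ <;> cases e
              exact Finset.mem_insert_self _ _
          · rcases Finset.mem_insert.1 (h _ rfl) with e | e
            · cases e
              exact .inr fun _ e => by cases e; exact .inr ⟨x, rfl⟩
            · exact .inl fun _ e' => by cases e'; exact e
  exact .iso _ _ _ _ ((key Finset.univ).emb (Embedding.induce _) (s := univ) (by ext; simp))
    ⟨induceUnivIso _⟩

theorem glLoc : GlLocSt := by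
  intro l r T W ι Vi δ γ G O τ Gi Oi τi Bi j h
  have nj : ∀ i u, ¬ O u (j i) := fun i u hu => by
    have := (h.live i).symm.trans (h.gad.src _ _ hu)
    cases this
  have sp : ∀ v, (∀ u, glO O Oi Bi j u v → u ∈ glB Bi) ∨ ∀ u, glO O Oi Bi j u v → u ∉ glB Bi := by
    rintro (v | ⟨i, v⟩)
    · by_cases hv : ∃ i, v = j i
      · obtain ⟨i, rfl⟩ := hv
        refine .inl ?_
        rintro (u | ⟨i', u⟩) hu
        exacts [(nj i u hu).elim, memB.2 hu.1]
      · refine .inr ?_
        rintro (u | ⟨i', u⟩) hu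
        exacts [notB, (hv ⟨i', hu.2⟩).elim]
    · refine ((h.pc i).split v).imp (fun k => ?_) fun k => ?_ <;> rintro (u | ⟨i', u⟩) hu
      · exact hu.elim
      · obtain rfl : i' = i := idx hu
        exact memB.2 (k u (same.1 hu))
      · exact hu.elim
      · obtain rfl : i' = i := idx hu
        exact fun hb => k u (same.1 hu) (memB.1 hb)
  refine ⟨?_, ?_, ?_, sp, ?_⟩
  · have ad := adj (Oi := Oi) (Bi := Bi) (j := j) (Gi := Gi) h.gad.adj fun i u v =>
      (h.pc i).gad.adj (inr u) (inr v)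
    rintro (u | u) (v | v) <;> simp [att, apO, ad]
  · have mix : ∀ (v : W) (w : Σ i, Vi i),
        (∀ u, glO O Oi Bi j u (inr w) → glO O Oi Bi j u (inl v)) ∨
          ∀ u, glO O Oi Bi j u (inr w) → ¬ glO O Oi Bi j u (inl v) := by
      rintro v ⟨i, w⟩
      by_cases hv : v = j i
      · refine (sp (inr ⟨i, w⟩)).imp (fun k => ?_) fun k => ?_ <;> rintro (u | ⟨i', u⟩) hu
        · exact hu.elim
        · obtain rfl : i' = i := idx hu
          exact ⟨memB.1 (k _ hu), hv⟩
        · exact hu.elim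
        · exact fun hb => k _ hu (memB.2 hb.1)
      · refine .inr ?_
        rintro (u | ⟨i', u⟩) hu hb
        · exact hu
        · obtain rfl : i' = i := idx hu
          exact hv hb.2
    have nest : ∀ v w, (∀ u, glO O Oi Bi j u v → glO O Oi Bi j u w) ∨
        (∀ u, glO O Oi Bi j u w → glO O Oi Bi j u v) ∨
          ∀ u, glO O Oi Bi j u v → ¬ glO O Oi Bi j u w := by
      rintro (v | ⟨i, v⟩) (w | ⟨i', w⟩)
      · rcases eq_or_ne v w with rfl | hvw
        · exact .inl fun _ => id
        by_cases hj : ∃ i, v = j i ∨ w = j i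
        · obtain ⟨i, hi⟩ := hj
          refine .inr (.inr ?_)
          rintro (u | u) h1 h2
          · rcases hi with rfl | rfl
            exacts [nj i u h1, nj i u h2]
          · exact hvw (h1.2.trans h2.2.symm)
        · refine (h.gad.nest v w).imp (fun k => ?_) (Or.imp (fun k => ?_) fun k => ?_) <;>
            rintro (u | u) hu
          exacts [k u hu, (hj ⟨_, .inl hu.2⟩).elim, k u hu, (hj ⟨_, .inr hu.2⟩).elim, k u hu,
            (hj ⟨_, .inl hu.2⟩).elim]
      · exact .inr ((mix v ⟨i', w⟩).imp id fun k u h1 h2 => k u h2 h1)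
      · exact (mix w ⟨i, v⟩).imp id .inr
      · rcases eq_or_ne i i' with rfl | hi
        · have tr : ∀ {v : Vi i} {u}, glO O Oi Bi j u (inr ⟨i, v⟩) →
              ∃ u', u = inr ⟨i, u'⟩ ∧ Oi i u' v := by
            rintro v (u | ⟨i', u⟩) hu
            · exact hu.elim
            · obtain rfl : i' = i := idx hu
              exact ⟨u, rfl, same.1 hu⟩
          refine ((h.pc i).gad.nest (inr v) (inr w)).imp (fun k u hu => ?_)
            (Or.imp (fun k u hu => ?_) fun k u hu => ?_) <;> obtain ⟨u, rfl, hv⟩ := tr hu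
          exacts [same.2 (k (inr u) hv), same.2 (k (inr u) hv),
            fun h' => k (inr u) hv (same.1 h')]
        · refine .inr (.inr ?_)
          rintro (u | u) h1 h2
          exacts [h1, hi ((idx h1).symm.trans (idx h2))]
    rintro (v | v) (w | w)
    · exact .inl fun _ => id
    · refine .inr ((sp w).imp (fun k => ?_) fun k => ?_) <;> rintro (u | u) hu
      exacts [hu.elim, k u hu, hu.elim, fun h' => k u h' hu]
    · refine (sp v).imp (fun k => ?_) fun k => .inr ?_ <;> rintro (u | u) hu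
      exacts [hu.elim, k u hu, hu.elim, k u hu]
    · refine (nest v w).imp (fun k => ?_) (Or.imp (fun k => ?_) fun k => ?_) <;> rintro (u | u) hu
      exacts [hu.elim, k u hu, hu.elim, k u hu, hu.elim, k u hu]
  · rintro (u | ⟨i', u⟩) (v | ⟨i, v⟩) hu
    · simp [glT, h.gad.src u v hu]
    · exact hu.elim
    · obtain rfl : v = j i' := hu.2
      simp [glT, h.live]
    · obtain rfl : i' = i := idx hu
      exact (h.pc i').gad.src (inr u) (inr v) (same.1 hu)
  · rintro _ ⟨i, b, rfl, hb⟩
    exact (h.pc i).tagB b hb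

end Pool.Agent.MP_da1f04_co.I91
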