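import Pool.Agent.MP_da1f04_co.I91.SpecN

/-! Walks in the glued graph: detours stay long and tagged vertices stay scattered. -/

set_option autoImplicit false

namespace Pool.Agent.MP_da1f04_co.I91

open Set Sum

namespace GlFar

section walks

variable {V : Type} {H : SimpleGraph V} {S : V → Prop} {u v w : V} {n m : ℕ}

/-- There is a walk of length at most `n` inside `S`. -/
def R (H : SimpleGraph V) (S : V → Prop) (u w : V) (n : ℕ) : Prop :=
  ∃ p : H.Walk u w, (∀ x ∈ p.support, S x) ∧ p.length ≤ n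

theorem R.nil (h : S u) (n : ℕ) : R H S u u n := ⟨.nil, by simpa using h, by simp⟩

theorem R.cons (h : H.Adj u v) (hu : S u) (hr : R H S v w n) : R H S u w (n + 1) := by
  obtain ⟨p, hp, hl⟩ := hr
  exact ⟨.cons h p, by simpa using ⟨hu, hp⟩, by simpa using hl⟩

theorem R.mono (hr : R H S u w n) (h : n ≤ m) : R H S u w m := by
  obtain ⟨p, hp, hl⟩ := hr
  exact ⟨p, hp, hl.trans h⟩

theorem R.start (hr : R H S u w n) : S u := by
  obtain ⟨p, hp, -⟩ := hr
  exact hp u p.start_mem_support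

theorem R.symm (hr : R H S u w n) : R H S w u n := by
  obtain ⟨p, hp, hl⟩ := hr
  exact ⟨p.reverse, by simpa using hp, by simpa using hl⟩

theorem R.top (hr : R H S u w n) : R H (fun _ => True) u w n := by
  obtain ⟨p, -, hl⟩ := hr
  exact ⟨p, fun _ _ => trivial, hl⟩

theorem R.trans (hr : R H (fun _ => True) u v n) (hr' : R H (fun _ => True) v w m) :
    R H (fun _ => True) u w (n + m) := by
  obtain ⟨p, -, hl⟩ := hr
  obtain ⟨q, -, hl'⟩ := hr'
  exact ⟨p.append q, fun _ _ => trivial, by rw [SimpleGraph.Walk.length_append]; omega⟩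

theorem R.ind (P : V → ℕ → Prop) (h0 : S w → ∀ n, P w n)
    (hs : ∀ x y n, H.Adj x y → S x → R H S y w n → P y n → P x (n + 1)) (hr : R H S u w n) :
    P u n := by
  obtain ⟨p, hp, hl⟩ := hr
  induction p generalizing n with
  | nil => exact h0 (hp _ (by simp)) n
  | cons h p ih =>
    obtain ⟨k, rfl⟩ : ∃ k, n = k + 1 := ⟨n - 1, by simp at hl; omega⟩
    have hp' : ∀ x ∈ p.support, S x := fun x hx => hp x (by simp [hx])
    have hl' : p.length ≤ k := by simpa using hl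
    exact hs _ _ _ h (hp _ (by simp)) ⟨p, hp', hl'⟩ (ih h0 hs hp' hl')

variable {l : ℕ} {T : Type} {δ : T → T → ℕ} {O : V → V → Prop} {τ : V → Option T}

theorem far' (g : Gad l δ H O τ) (h1 : O u v) (h2 : O v w) (hr : R H (· ≠ v) u w n) : l ≤ n := by
  obtain ⟨p, hp, hl⟩ := hr
  exact (g.far u v w h1 h2 p fun h => hp v h rfl).trans hl

theorem dist' (g : Gad l δ H O τ) {s s' : T} (h : u ≠ w) (h1 : τ u = some s) (h2 : τ w = some s')
    (hr : R H S u w n) : δ s s' ≤ n := by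
  obtain ⟨p, -, hl⟩ := hr
  exact (g.dist u w s s' h h1 h2 p).trans hl

end walks

variable {l r : ℕ} {T W ι : Type} {Vi : ι → Type} {δ : T → T → ℕ} {γ : T → ℕ}
  {G : SimpleGraph W} {O : W → W → Prop} {τ : W → Option (Option T)}
  {Gi : ∀ i, SimpleGraph (Vi i)} {Oi : ∀ i, Vi i → Vi i → Prop} {τi : ∀ i, Vi i → Option T}
  {Bi : ∀ i, Set (Vi i)} {j : ι → W}

theorem adj_c (h : GlIn l r δ γ G O τ Gi Oi τi Bi j) {i : ι} {a : Vi i}
    {y : Unit ⊕ (W ⊕ Σ i, Vi i)}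
    (e : (cone Unit (glG O Oi Bi j) (glB Bi)).Adj (inr (inr ⟨i, a⟩)) y) :
    (∃ b, y = inr (inr ⟨i, b⟩) ∧ (Gi i).Adj a b) ∨
      (a ∈ Bi i ∧ (y = inl () ∨ y = inr (inl (j i)))) := by
  rcases y with y | y | y
  · obtain ⟨-, i', b, e1, hb⟩ := e
    cases e1
    exact .inr ⟨hb, .inl rfl⟩
  · obtain ⟨-, ⟨hb, rfl⟩ | e⟩ := e
    exacts [.inr ⟨hb, .inr rfl⟩, e.elim]
  · obtain ⟨-, ⟨i', u, v, e1, rfl, e⟩ | ⟨i', u, v, rfl, e1, e⟩⟩ := e
    · cases e1
      exact .inl ⟨_, rfl, ((h.pc _).gad.adj (inr _) (inr _)).2 (.inl e)⟩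
    · cases e1
      exact .inl ⟨_, rfl, ((h.pc _).gad.adj (inr _) (inr _)).2 (.inr e)⟩

theorem adj_w (h : GlIn l r δ γ G O τ Gi Oi τi Bi j) {u : W} {y : Unit ⊕ (W ⊕ Σ i, Vi i)}
    (e : (cone Unit (glG O Oi Bi j) (glB Bi)).Adj (inr (inl u)) y) :
    (∃ v, y = inr (inl v) ∧ G.Adj u v) ∨ ((∀ v, y ≠ inr (inl v)) ∧ u ∈ range j) := by
  rcases y with y | y | y
  · obtain ⟨-, i', b, e1, -⟩ := e
    cases e1
  · exact .inl ⟨y, rfl, (h.gad.adj _ _).2 e.2⟩
  · obtain ⟨-, e | ⟨-, rfl⟩⟩ := e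
    exacts [e.elim, .inr ⟨fun _ => by simp, _, rfl⟩]

open Classical in
/-- The projection onto the cone over one piece. -/
noncomputable def pr (i : ι) (y : Unit ⊕ (W ⊕ Σ i, Vi i)) : Unit ⊕ Vi i :=
  if h : ∃ a, y = inr (inr ⟨i, a⟩) then inr h.choose else inl ()

theorem pr_in (i : ι) (a : Vi i) : pr (W := W) i (inr (inr ⟨i, a⟩)) = inr a := by
  have h : ∃ b, (inr (inr ⟨i, a⟩) : Unit ⊕ (W ⊕ Σ i, Vi i)) = inr (inr ⟨i, b⟩) := ⟨a, rfl⟩
  rw [pr, dif_pos h]
  have h2 := h.choose_spec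
  generalize h.choose = b at h2
  cases h2
  rfl

theorem pr_out {i : ι} {y : Unit ⊕ (W ⊕ Σ i, Vi i)} (h : ¬ ∃ a, y = inr (inr ⟨i, a⟩)) :
    pr i y = inl () := dif_neg h

theorem pr_adj (h : GlIn l r δ γ G O τ Gi Oi τi Bi j) (i : ι) {x y : Unit ⊕ (W ⊕ Σ i, Vi i)}
    (e : (cone Unit (glG O Oi Bi j) (glB Bi)).Adj x y) :
    pr i x = pr i y ∨ (cone Unit (Gi i) (Bi i)).Adj (pr i x) (pr i y) := by
  have key : ∀ (a : Vi i) (y : Unit ⊕ (W ⊕ Σ i, Vi i)),
      (cone Unit (glG O Oi Bi j) (glB Bi)).Adj (inr (inr ⟨i, a⟩)) y →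
      (cone Unit (Gi i) (Bi i)).Adj (inr a) (pr i y) := fun a y e => by
    rcases adj_c h e with ⟨b, rfl, e'⟩ | ⟨hb, rfl | rfl⟩
    · rw [pr_in]; exact e'
    · rw [pr_out (by simp)]; exact ⟨trivial, hb⟩
    · rw [pr_out (by simp)]; exact ⟨trivial, hb⟩
  by_cases hx : ∃ a, x = inr (inr ⟨i, a⟩)
  · obtain ⟨a, rfl⟩ := hx
    rw [pr_in]
    exact .inr (key a y e)
  · by_cases hy : ∃ a, y = inr (inr ⟨i, a⟩)
    · obtain ⟨a, rfl⟩ := hy
      rw [pr_in]
      exact .inr (key a x e.symm).symm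
    · exact .inl (by rw [pr_out hx, pr_out hy])

/-- Projection of a walk. -/
theorem proj (h : GlIn l r δ γ G O τ Gi Oi τi Bi j) (i : ι) {S : Unit ⊕ (W ⊕ Σ i, Vi i) → Prop}
    {S' : Unit ⊕ Vi i → Prop} (hS : ∀ x, S x → S' (pr i x)) {x y : Unit ⊕ (W ⊕ Σ i, Vi i)} {n : ℕ}
    (hr : R (cone Unit (glG O Oi Bi j) (glB Bi)) S x y n) :
    R (cone Unit (Gi i) (Bi i)) S' (pr i x) (pr i y) n := by
  refine R.ind (fun x n => R (cone Unit (Gi i) (Bi i)) S' (pr i x) (pr i y) n)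
    (fun hy n => R.nil (hS _ hy) n) (fun x z n e hx _ ih => ?_) hr
  rcases pr_adj h i e with e | e
  · rw [e]; exact ih.mono (Nat.le_succ n)
  · exact R.cons e (hS _ hx) ih

/-- Walks that end in the old part. -/
theorem toW (h : GlIn l r δ γ G O τ Gi Oi τi Bi j) {S : Unit ⊕ (W ⊕ Σ i, Vi i) → Prop}
    {S' : W → Prop} (hS : ∀ u, S (inr (inl u)) → S' u) {x : Unit ⊕ (W ⊕ Σ i, Vi i)} {w : W}
    {n : ℕ} (hr : R (cone Unit (glG O Oi Bi j) (glB Bi)) S x (inr (inl w)) n) :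
    (∀ u, x = inr (inl u) → R G S' u w n ∨ ∃ c ∈ range j, ∃ d ∈ range j, ∃ a b, c ≠ d ∧
      R G S' u c a ∧ R G S' d w b ∧ a + b + 1 ≤ n) ∧
    ((∀ u, x ≠ inr (inl u)) → ∃ d ∈ range j, ∃ b, R G S' d w b ∧ b + 1 ≤ n) := by
  refine R.ind (fun x n => (∀ u, x = inr (inl u) → R G S' u w n ∨ ∃ c ∈ range j, ∃ d ∈ range j,
      ∃ a b, c ≠ d ∧ R G S' u c a ∧ R G S' d w b ∧ a + b + 1 ≤ n) ∧
    ((∀ u, x ≠ inr (inl u)) → ∃ d ∈ range j, ∃ b, R G S' d w b ∧ b + 1 ≤ n))
    (fun hw n => ⟨fun u e => ?_, fun e => (e w rfl).elim⟩)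
    (fun x y n e hx _ ih => ⟨?_, fun hx' => ?_⟩) hr
  · cases e
    exact .inl (R.nil (hS _ hw) n)
  · rintro u rfl
    have hu := hS u hx
    rcases adj_w h e with ⟨v, rfl, e'⟩ | ⟨hy, hj⟩
    · rcases ih.1 v rfl with h1 | ⟨c, hc, d, hd, a, b, hne, h1, h2, h3⟩
      · exact .inl (R.cons e' hu h1)
      · exact .inr ⟨c, hc, d, hd, a + 1, b, hne, R.cons e' hu h1, h2, by omega⟩
    · obtain ⟨d, hd, b, h1, h2⟩ := ih.2 hy
      by_cases hud : u = d
      · subst hud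
        exact .inl (h1.mono (by omega))
      · exact .inr ⟨u, hj, d, hd, 0, b, hud, R.nil hu 0, h1, by omega⟩
  · by_cases hy : ∃ v, y = inr (inl v)
    · obtain ⟨v, rfl⟩ := hy
      rcases adj_w h e.symm with ⟨u, rfl, -⟩ | ⟨-, hj⟩
      · exact (hx' u rfl).elim
      · rcases ih.1 v rfl with h1 | ⟨c, -, d, hd, a, b, -, -, h2, h3⟩
        · exact ⟨v, hj, n, h1, le_rfl⟩
        · exact ⟨d, hd, b, h2, by omega⟩
    · obtain ⟨d, hd, b, h1, h2⟩ := ih.2 fun v e => hy ⟨v, e⟩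
      exact ⟨d, hd, b, h1, by omega⟩

theorem tagW {u : W} {s : T} (hu : glT τ τi (inl u) = some s) : τ u = some (some s) := by
  obtain ⟨a, h1, h2⟩ := Option.bind_eq_some_iff.1 hu
  rw [h1]
  exact congrArg some h2

theorem live2 (h : GlIn l r δ γ G O τ Gi Oi τi Bi j) {S : W → Prop} {c d : W} {n : ℕ}
    (hc : c ∈ range j) (hd : d ∈ range j) (hne : c ≠ d) (hr : R G S c d n) : l + 2 ≤ n := by
  obtain ⟨i, rfl⟩ := hc
  obtain ⟨i', rfl⟩ := hd
  exact h.big.trans (dist' h.gad hne (h.live i) (h.live i') hr)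

theorem live1 (h : GlIn l r δ γ G O τ Gi Oi τi Bi j) {S : W → Prop} {c u : W} {n : ℕ} {s : T}
    (hc : c ∈ range j) (hu : τ u = some (some s)) (hr : R G S c u n) : γ s ≤ n := by
  obtain ⟨i, rfl⟩ := hc
  have hne : j i ≠ u := fun e => by
    have := h.live i
    rw [e, hu] at this
    cases this
  exact dist' h.gad hne (h.live i) hu hr

theorem apex' (h : GlIn l r δ γ G O τ Gi Oi τi Bi j) {i : ι} {S : Unit ⊕ Vi i → Prop} {a : Vi i}
    {n : ℕ} {s : T} (ha : τi i a = some s)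
    (hr : R (cone Unit (Gi i) (Bi i)) S (inr a) (inl ()) n) : γ s + 1 ≤ n := by
  obtain ⟨p, -, hl⟩ := hr
  exact ((h.pc i).apex a s ha p).trans hl

/-- From a vertex outside a piece to a tagged vertex of the piece. -/
theorem into (h : GlIn l r δ γ G O τ Gi Oi τi Bi j) {i : ι} {a : Vi i} {n : ℕ} {s : T}
    {x : Unit ⊕ (W ⊕ Σ i, Vi i)} (hx : ¬ ∃ b, x = inr (inr ⟨i, b⟩)) (ha : τi i a = some s)
    (hr : R (cone Unit (glG O Oi Bi j) (glB Bi)) (fun _ => True) x (inr (inr ⟨i, a⟩)) n) :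
    γ s + 1 ≤ n := by
  have := proj h i (S' := fun _ => True) (fun _ _ => trivial) hr
  rw [pr_in, pr_out hx] at this
  exact apex' h ha this.symm

/-- From the apex to a tagged vertex. -/
theorem fromApex (h : GlIn l r δ γ G O τ Gi Oi τi Bi j) {t : W ⊕ Σ i, Vi i} {n : ℕ} {s : T}
    (ht : glT τ τi t = some s)
    (hr : R (cone Unit (glG O Oi Bi j) (glB Bi)) (fun _ => True) (inl ()) (inr t) n) :
    γ s + 1 ≤ n := by
  rcases t with u | ⟨i, a⟩
  · obtain ⟨d, hd, b, h1, h2⟩ := (toW h (S' := fun _ => True) (fun _ _ => trivial) hr).2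
      (fun _ => by simp)
    have := live1 h hd (tagW ht) h1
    omega
  · exact into h (by simp) ht hr

/-- From a vertex that carries a piece to a tagged vertex. -/
theorem fromLive (h : GlIn l r δ γ G O τ Gi Oi τi Bi j) {t : W ⊕ Σ i, Vi i} {n : ℕ} {s : T}
    (i' : ι) (ht : glT τ τi t = some s)
    (hr : R (cone Unit (glG O Oi Bi j) (glB Bi)) (fun _ => True) (inr (inl (j i'))) (inr t) n) :
    γ s ≤ n := by
  rcases t with u | ⟨i, a⟩
  · rcases (toW h (S' := fun _ => True) (fun _ _ => trivial) hr).1 _ rfl with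
      h1 | ⟨c, -, d, hd, a, b, -, -, h2, h3⟩
    · exact live1 h ⟨i', rfl⟩ (tagW ht) h1
    · have := live1 h hd (tagW ht) h2
      omega
  · exact (Nat.le_succ _).trans (into h (by simp) ht hr)

/-- From a tagged vertex of a piece to a tagged vertex outside the piece. -/
theorem exit (h : GlIn l r δ γ G O τ Gi Oi τi Bi j) {i : ι} {a : Vi i} {t : W ⊕ Σ i, Vi i}
    {n : ℕ} {s s' : T} (ha : τi i a = some s) (ht : glT τ τi t = some s')
    (hne : ∀ b, t ≠ inr ⟨i, b⟩)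
    (hr : R (cone Unit (glG O Oi Bi j) (glB Bi)) (fun _ => True) (inr (inr ⟨i, a⟩)) (inr t) n) :
    γ s + γ s' + 1 ≤ n := by
  have key := R.ind (fun x n => ∀ b, x = inr (inr ⟨i, b⟩) → ∃ m,
      R (cone Unit (Gi i) (Bi i)) (fun _ => True) (inr b) (inl ()) m ∧ m + γ s' ≤ n)
    (fun _ n b e => (hne b (inr_injective e)).elim) (by
      rintro x y n e - hy ih b rfl
      rcases adj_c h e with ⟨c, rfl, e'⟩ | ⟨hb, hy'⟩
      · obtain ⟨m, h1, h2⟩ := ih c rfl
        exact ⟨m + 1, R.cons (v := inr c) e' trivial h1, by omega⟩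
      · refine ⟨0 + 1, R.cons (v := inl ()) ⟨trivial, hb⟩ trivial (R.nil trivial 0), ?_⟩
        rcases hy' with rfl | rfl
        · have := fromApex h ht hy
          omega
        · have := fromLive h i ht hy
          omega) hr
  obtain ⟨m, h1, h2⟩ := key a rfl
  have := apex' h ha h1
  omega

end GlFar

open GlFar

theorem glFar : GlFarSt := by
  intro l r T W ι Vi δ γ G O τ Gi Oi τi Bi j h u v w h1 h2 p hp
  have hr : R (cone Unit (glG O Oi Bi j) (glB Bi)) (· ≠ v) u w p.length :=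
    ⟨p, fun x hx e => hp (e ▸ hx), le_rfl⟩
  generalize p.length = n at hr
  clear hp p
  rcases v with v | v | ⟨i, v⟩
  · exact h2.elim
  · have hS : ∀ x : W, (inr (inl x) : Unit ⊕ (W ⊕ Σ i, Vi i)) ≠ inr (inl v) → x ≠ v :=
      fun x e e' => e (e' ▸ rfl)
    rcases w with w | w | w
    · obtain ⟨_, _, e, -⟩ := h2
      cases e
    swap
    · exact h2.elim
    have e2 : G.Adj v w := (h.gad.adj _ _).2 (.inl h2)
    rcases u with u | u | ⟨i, u⟩
    · exact h1.elim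
    · have e1 : G.Adj u v := (h.gad.adj _ _).2 (.inl h1)
      rcases (toW h (S' := (· ≠ v)) hS hr).1 u rfl with h3 | ⟨c, hc, d, hd, a, b, hne, h3, h4, h5⟩
      · exact far' h.gad h1 h2 h3
      · have := live2 h hc hd hne
          (h3.top.symm.trans (R.cons e1 trivial (R.cons e2 trivial h4.top.symm)))
        omega
    · obtain ⟨d, hd, b, h3, h4⟩ := (toW h (S' := (· ≠ v)) hS hr).2 (fun _ => by simp)
      have := live2 h ⟨i, h1.2.symm⟩ hd (Ne.symm h3.start) (R.cons e2 trivial h3.top.symm)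
      omega
  · rcases u with u | u | u
    · exact h1.elim
    · exact h1.elim
    obtain ⟨i', u', v', rfl, e, h1⟩ := h1
    cases e
    have hv : v ∉ Bi i := fun hv =>
      (h.pc i).tagB v hv ((h.pc i).gad.src (inr u') (inr v) h1)
    rcases w with w | w | w
    · obtain ⟨_, _, e, hb⟩ := h2
      cases e
      exact (hv hb).elim
    · exact (hv h2.1).elim
    obtain ⟨i', v', w', e, rfl, h2⟩ := h2
    cases e
    have := proj h i (S' := (· ≠ inr v)) (fun x hx e => ?_) hr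
    · rw [pr_in, pr_in] at this
      exact far' (h.pc i).gad (u := inr u') (v := inr v) (w := inr w') h1 h2 this
    · by_cases hx' : ∃ a, x = inr (inr ⟨i, a⟩)
      · obtain ⟨a, rfl⟩ := hx'
        rw [pr_in] at e
        cases e
        exact hx rfl
      · rw [pr_out hx'] at e
        cases e

theorem glDist : GlDistSt := by
  intro l r T W ι Vi δ γ G O τ Gi Oi τi Bi j h
  refine ⟨fun u w s s' hne hu hw p => ?_,
    fun u s hu p => fromApex h hu (R.symm ⟨p, fun _ _ => trivial, le_rfl⟩)⟩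
  have hr : R (cone Unit (glG O Oi Bi j) (glB Bi)) (fun _ => True) (inr u) (inr w) p.length :=
    ⟨p, fun _ _ => trivial, le_rfl⟩
  generalize p.length = n at hr
  clear p
  have tri := h.tri s s'
  rcases u with u | ⟨i, u⟩
  · rcases w with w | ⟨i, w⟩
    · rcases (toW h (S' := fun _ => True) (fun _ _ => trivial) hr).1 u rfl with
        h3 | ⟨c, hc, d, hd, a, b, -, h3, h4, h5⟩
      · exact dist' h.gad (fun e => hne (congrArg inl e)) (tagW hu) (tagW hw) h3
      · have := live1 h hc (tagW hu) h3.symm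
        have := live1 h hd (tagW hw) h4
        omega
    · have := exit h hw hu (fun _ => by simp) hr.symm
      omega
  · by_cases hw' : ∃ b, w = inr ⟨i, b⟩
    · obtain ⟨b, rfl⟩ := hw'
      have := proj h i (S' := fun _ => True) (fun _ _ => trivial) hr
      rw [pr_in, pr_in] at this
      exact dist' (h.pc i).gad (u := inr u) (w := inr b)
        (fun e => hne (by cases e; rfl)) hu hw this
    · exact tri.trans (exit h hu hw (fun b e => hw' ⟨b, e⟩) hr)

end Pool.Agent.MP_da1f04_co.I91
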