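import Pool.Agent.MP_da1f04_co.I91.Tools

/-! The positive half from its steps. -/

set_option autoImplicit false

namespace Pool.Agent.MP_da1f04_co.I91

open Set Function

theorem Good.le {Y V L Z : Type} {H : SimpleGraph Y} {G : SimpleGraph V} {Ou : V → V → Prop}
    {lf : V → L} {zn : V → Z} {k M M' : ℕ} {ρ : Y} {S : Set Y} {x : V} {fz oz : Z}
    (h : Good H G Ou lf zn k M ρ S x fz oz) (hM : M' ≤ M) : Good H G Ou lf zn k M' ρ S x fz oz := by
  obtain ⟨φ, h1, h2, h3, h4, h5⟩ := h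
  exact ⟨fun r => φ (Fin.castLE hM r), fun r => h1 _, fun r => h2 _, fun r => h3 _,
    fun r r' hr => h4 _ _ fun e => hr (Fin.castLE_injective hM e), fun c hc => le_trans
      (ncard_le_ncard_of_injOn (Fin.castLE hM) (fun _ hr => hr) (Fin.castLE_injective hM).injOn
        (toFinite _)) (h5 c hc)⟩

theorem Pools.le {Y V L Z : Type} {H : SimpleGraph Y} {G : SimpleGraph V} {Ou : V → V → Prop}
    {lf : V → L} {zn : V → Z} {A B : Set Y} {N N' : ℕ} {y : Y → Fin N → V} {ζ : Y → Fin N → Z}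
    {z : Z} (h : Pools H G Ou lf zn A B N y ζ z) (hN : N' ≤ N) :
    Pools H G Ou lf zn A B N' (fun p i => y p (Fin.castLE hN i))
      (fun p i => ζ p (Fin.castLE hN i)) z where
  zA a ha _ := h.zA a ha _
  zB b hb _ := h.zB b hb _
  inj p hp p' hp' _ _ e := (h.inj p hp p' hp' _ _ e).imp id fun e => Fin.castLE_injective hN e
  adj a ha b hb _ _ := h.adj a ha b hb _ _
  nadj a ha b hb _ _ := h.nadj a ha b hb _ _

/-- Pools whose members are good for the smaller branches contain a root that is good for the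
whole branch. -/
theorem combine (h1 : LaySt) (h2 : AsmSt) (Y : Type) [Finite Y] (k g M : ℕ) : ∃ N M', ∀
    (H : SimpleGraph Y) (A B : Set Y) (sub : Y → Set Y) (ρ : Y) (S : Set Y),
    Piece H A B sub ρ S → ∀ (V L Z : Type) [Finite V] (G : SimpleGraph V) (Ou : V → V → Prop)
    (lf : V → L) (zn : V → Z), Amb G Ou lf zn k g → ∀ (y : Y → Fin N → V) (ζ : Y → Fin N → Z)
    (z : Z), Pools H G Ou lf zn A B N y ζ z →
    (∀ p ∈ A ∪ B, p ≠ ρ → ∀ i, Good H G Ou lf zn k M' p (sub p) (y p i) (ζ p i) z) →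
    ∃ i, Good H G Ou lf zn k M ρ S (y ρ i) z (ζ ρ i) := by
  obtain ⟨N, hN⟩ := h2 Y k g M
  obtain ⟨M', hM⟩ := h1 Y k N
  refine ⟨N, M', fun H A B sub ρ S pc V L Z _ G Ou lf zn am y ζ z po go => ?_⟩
  obtain ⟨role, Ψ, l1, l2, l3⟩ := hM H A B sub ρ S pc V L Z G Ou lf zn g am y ζ z po go
  obtain ⟨i, hi⟩ := hN H B S ρ role pc.nroot l2 V L Z G Ou lf zn am Ψ z l1 (ζ ρ)
    fun i j e => (po.inj ρ pc.root ρ pc.root i j (Or.inl e)).2
  exact ⟨i, l3 i ▸ hi⟩

theorem modelSt (h1 : RootSt) (h2 : SchemeSt) (h3 : PoolSt) (h4 : LaySt) (h5 : AsmSt)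
    (h6 : AmbSt) (h7 : ClaimSt) : ModelSt := by
  intro Y₀ _ H₀ hH k g
  obtain ⟨H, O, ⟨e₀⟩, hr⟩ := h1 Y₀ H₀ hH
  obtain ⟨Br, sch, top⟩ := h2 _ H O none hr
  choose Nf Mf hf using combine h4 h5 (Option Y₀) k g
  let m : ℕ → ℕ := fun i => Nat.rec 1 (fun _ a => max a (Mf a)) i
  have ms : ∀ i, m (i + 1) = max (m i) (Mf (m i)) := fun _ => rfl
  have mm : Monotone m := monotone_nat_of_le_succ fun i => le_max_left _ _
  set h := Nat.card (Option Y₀) with hh
  obtain ⟨N, hN⟩ := ((finite_Iic h).image fun i => Nf (m i)).bddAbove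
  obtain ⟨K, D, hP⟩ := h3 (Option Y₀) k N
  obtain ⟨n, hn⟩ := h7 (Option Y₀ × Bool) k g K D
  refine ⟨n, fun V₀ _ G₀ lam₀ M₀ free₀ => hn V₀ G₀ lam₀ M₀ fun V f hf' => ?_⟩
  have : Finite V := Finite.of_injective f hf'
  have M := M₀.comap f
  have free : IsEmpty (H ↪g G₀.comap f) :=
    ⟨fun e => free₀.false ((SimpleGraph.Embedding.comap ⟨f, hf'⟩ G₀).comp (e.comp e₀))⟩
  generalize G₀.comap f = G at M free ⊢
  generalize lam₀ ∘ f = lam at M ⊢
  let sz : Option Y₀ × Bool → ℕ := fun β => (Br β.1 β.2).ncard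
  have szh : ∀ β, sz β ≤ h := fun β => ncard_le_card _
  let Gd : Option Y₀ × Bool → Nd × Set V → V → Prop := fun β z x =>
    Good H G (Out G lam) lam (zone G lam) k (m (h - sz β)) β.1 (Br β.1 β.2) x
      (bif β.2 then zone G lam x else z) (bif β.2 then z else zone G lam x)
  have bad : ∀ z x, ∃ β, ¬ Gd β z x ∧ ∀ β', sz β' < sz β → Gd β' z x := by
    intro z x
    have h0 : ¬ Gd (none, true) z x := by
      rintro ⟨φ, -, a2, a3, -⟩
      have hu : ∀ u, u ∈ insert none (Br none true) := fun u =>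
        (em (u = none)).elim Or.inl fun h => Or.inr (top u h)
      let r : Fin (m (h - sz (none, true))) := ⟨0, mm (Nat.zero_le _)⟩
      exact free.false ⟨⟨φ r, fun u v e => a2 r (hu u) (hu v) e⟩,
        fun {u v} => a3 r u (hu u) v (hu v)⟩
    obtain ⟨β, b1, b2⟩ := exists_min_image {β | ¬ Gd β z x} sz (toFinite _) ⟨_, h0⟩
    exact ⟨β, b1, fun β' h => by_contra fun h' => absurd (b2 β' h') (not_le.2 h)⟩
  choose cls c1 c2 using bad
  refine ⟨cls, fun κ c s hs hne hrk => ?_⟩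
  obtain ⟨ρ, d⟩ := κ
  obtain ⟨A, B, sub, pc, r1, r2, s1, s2, s3⟩ := sch ρ d
  obtain ⟨y, ζ, po, y1, y2⟩ := hP H A B pc.disj pc.nest V G lam g M _ cls (ρ, d) c s hs hne hrk
  have hle : Nf (m (h - sz (ρ, d))) ≤ N := hN ⟨_, Nat.sub_le _ _, rfl⟩
  have big : ∀ β, sz β < sz (ρ, d) → Mf (m (h - sz (ρ, d))) ≤ m (h - sz β) := fun β hβ =>
    ((le_max_right _ _).trans (ms _).ge).trans (mm (show h - sz (ρ, d) + 1 ≤ h - sz β by
      have := szh (ρ, d)
      omega))
  obtain ⟨i, hi⟩ := hf (m (h - sz (ρ, d))) H A B sub ρ _ pc V _ _ G _ lam _ (h6 V G lam k g M) _ _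
    _ (po.le hle) (by
      rintro p (hp | hp) hne i
      · have lt : sz (p, true) < sz (ρ, d) := (congrArg ncard (s1 p hp)).symm.trans_lt
          (s3 p (Or.inl hp) hne)
        have := c2 _ _ (p, true) (y1 p hp (Fin.castLE hle i) ▸ lt)
        rw [s1 p hp, po.zA p hp]
        exact this.le (big _ lt)
      · have lt : sz (p, false) < sz (ρ, d) := (congrArg ncard (s2 p hp)).symm.trans_lt
          (s3 p (Or.inr hp) hne)
        have := c2 _ _ (p, false) (y2 p hp (Fin.castLE hle i) ▸ lt)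
        rw [s2 p hp, ← po.zB p hp (Fin.castLE hle i)]
        exact this.le (big _ lt))
  cases d with
  | true =>
    have := c1 (ζ ρ (Fin.castLE hle i)) (y ρ (Fin.castLE hle i))
    rw [y2 ρ (r1 rfl)] at this
    rw [← po.zB ρ (r1 rfl) (Fin.castLE hle i)] at hi
    exact this hi
  | false =>
    have := c1 (zone G lam c) (y ρ (Fin.castLE hle i))
    rw [y1 ρ (r2 rfl)] at this
    simp only [po.zA ρ (r2 rfl)] at hi
    exact this hi

theorem posSt (h1 : DerSt) (h2 : HtSt) (h3 : RedSt) (h4 : ModelSt) {C : GClass}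
    (hC : ChiBounded C) (k : ℕ) {Y : Type} [Finite Y] {F : SimpleGraph Y} (hF : Laminar F)
    (q : ℕ) : ∃ n, ∀ (U W : Type) (J : SimpleGraph U) (H : SimpleGraph W), Cl C k W H →
      Nonempty (J ↪g H) → IsEmpty (F ↪g J) → J.CliqueFree (q + 2) → J.Colorable n := by
  obtain ⟨f, hf⟩ := hC
  induction q with
  | zero =>
    refine ⟨1, fun U W J H _ _ _ cf => Kill.colorable ⟨fun _ => 0, fun u v h _ => ?_⟩⟩
    rw [SimpleGraph.cliqueFree_two.1 cf] at h
    exact h
  | succ q ih =>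
    obtain ⟨c', hc⟩ := ih
    obtain ⟨n, hn⟩ := h4 Y F hF k (2 ^ (2 * k * (k + 1)))
    obtain ⟨n', hn'⟩ := h3 k (2 * k * (k + 1)) (f (q + 2)) (c' + 1) n
    refine ⟨n', fun U W J H cl ⟨e⟩ free cf => ?_⟩
    have := cl.finite
    have : Finite U := Finite.of_injective e e.injective
    obtain ⟨lam, D, cs, col, ht⟩ := h2 U W J (q + 2) k _ e
      (h1 C f hf k (q + 2) U W J H e cl (by omega) cf)
    refine hn' U J (q + 2) lam D cs col ht (fun S hS => ?_) cf fun V' g hg M => ?_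
    · classical
      obtain ⟨φ⟩ := hc S W (J.induce S) H cl ⟨e.comp (SimpleGraph.Embedding.induce S)⟩
        ⟨fun a => free.false ((SimpleGraph.Embedding.induce S).comp a)⟩
        ((SimpleGraph.cliqueFree_induce_iff J S _).2 hS)
      refine ⟨fun u => if h : u ∈ S then (φ ⟨u, h⟩).castSucc else 0, fun u v ⟨a, b, h⟩ => ?_⟩
      simp only [dif_pos a, dif_pos b]
      exact fun e => φ.valid (v := ⟨u, a⟩) (w := ⟨v, b⟩) h (Fin.castSucc_injective _ e)
    · have : Finite V' := Finite.of_injective g hg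
      exact hn V' _ _ M ⟨fun a => free.false ((SimpleGraph.Embedding.comap ⟨g, hg⟩ J).comp a)⟩

end Pool.Agent.MP_da1f04_co.I91
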