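import Pool.Agent.MP_da1f04_co.I91.Spec

/-! Greedy choice and a Ramsey argument. -/

set_option autoImplicit false

namespace Pool.Agent.MP_da1f04_co.I91

open Set Function

namespace Greedy

/-- An increasing sequence in `A` whose pairs are related. -/
def Ch {V : Type} [LinearOrder V] (R : V → V → Prop) (A : Finset V) (k : ℕ) : Prop :=
  ∃ f : Fin k → V, StrictMono f ∧ (∀ i, f i ∈ A) ∧ ∀ i j, i < j → R (f i) (f j)

theorem ch_zero {V : Type} [LinearOrder V] (R : V → V → Prop) (A : Finset V) : Ch R A 0 :=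
  ⟨Fin.elim0, fun i => i.elim0, fun i => i.elim0, fun i => i.elim0⟩

theorem ch_mono {V : Type} [LinearOrder V] {R : V → V → Prop} {A B : Finset V} {k : ℕ}
    (h : Ch R A k) (hs : A ⊆ B) : Ch R B k :=
  h.imp fun _ e => ⟨e.1, fun i => hs (e.2.1 i), e.2.2⟩

theorem ch_cons {V : Type} [LinearOrder V] {R : V → V → Prop} {A B : Finset V} {k : ℕ} {v : V}
    (h : Ch R A k) (hs : A ⊆ B) (hv : v ∈ B) (hr : ∀ a ∈ A, v < a ∧ R v a) : Ch R B (k + 1) := by
  obtain ⟨f, h1, h2, h3⟩ := h
  have key : ∀ P : V → V → Prop, (∀ a ∈ A, P v a) → (∀ i j, i < j → P (f i) (f j)) →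
      ∀ i j : Fin (k + 1), i < j → P (Fin.cons (α := fun _ => V) v f i)
        (Fin.cons (α := fun _ => V) v f j) := fun P p1 p2 i j => by
    refine Fin.cases ?_ (fun i => ?_) i <;> refine Fin.cases ?_ (fun j => ?_) j <;> intro hij
    · exact absurd hij (lt_irrefl _)
    · simpa using p1 _ (h2 j)
    · exact absurd hij (Fin.not_lt_zero _)
    · simpa using p2 i j (Fin.succ_lt_succ_iff.1 hij)
  refine ⟨Fin.cons v f, fun i j => key (· < ·) (fun a ha => (hr a ha).1) h1 i j, fun i => ?_,
    key R (fun a ha => (hr a ha).2) h3⟩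
  refine Fin.cases ?_ (fun i => ?_) i
  · simpa using hv
  · simpa using hs (h2 i)

theorem two (s : ℕ) {V : Type} [LinearOrder V] (R : V → V → Prop) : ∀ (a b : ℕ) (A : Finset V),
    a + b = s → 2 ^ s ≤ A.card → Ch R A a ∨ Ch (fun x y => ¬ R x y) A b := by
  classical
  induction s with
  | zero =>
    intro a b A h _
    obtain rfl : a = 0 := by omega
    exact .inl (ch_zero _ _)
  | succ s ih =>
    intro a b A h hA
    rcases a with _ | a
    · exact .inl (ch_zero _ _)
    rcases b with _ | b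
    · exact .inr (ch_zero _ _)
    have hp : 0 < 2 ^ s := Nat.two_pow_pos s
    have ne : A.Nonempty := Finset.card_pos.1 (by rw [pow_succ] at hA; omega)
    have hv := A.min'_mem ne
    have lt : ∀ x ∈ A.erase (A.min' ne), A.min' ne < x := fun x hx =>
      lt_of_le_of_ne (A.min'_le x (Finset.mem_of_mem_erase hx)) (Finset.ne_of_mem_erase hx).symm
    have c := Finset.card_filter_add_card_filter_not (s := A.erase (A.min' ne)) (R (A.min' ne))
    rw [Finset.card_erase_of_mem hv] at c
    have sub : ∀ p : V → Prop, ∀ [DecidablePred p], (A.erase (A.min' ne)).filter p ⊆ A :=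
      fun p _ => (Finset.filter_subset _ _).trans (Finset.erase_subset _ _)
    rw [pow_succ] at hA
    by_cases h1 : 2 ^ s ≤ ((A.erase (A.min' ne)).filter (R (A.min' ne))).card
    · rcases ih a (b + 1) _ (by omega) h1 with e | e
      · exact .inl (ch_cons e (sub _) hv fun x hx =>
          ⟨lt x (Finset.mem_filter.1 hx).1, (Finset.mem_filter.1 hx).2⟩)
      · exact .inr (ch_mono e (sub _))
    · rcases ih (a + 1) b ((A.erase (A.min' ne)).filter fun x => ¬ R (A.min' ne) x) (by omega)
        (by omega) with e | e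
      · exact .inl (ch_mono e (sub _))
      · exact .inr (ch_cons e (sub _) hv fun x hx =>
          ⟨lt x (Finset.mem_filter.1 hx).1, (Finset.mem_filter.1 hx).2⟩)

theorem pair {V : Type} [Finite V] {m d : ℕ} {R : V → V → Prop}
    (h : ∀ S : Set V, S.ncard = m → {i | i ∉ S ∧ ∀ j ∈ S, R i j}.ncard ≤ d) (s : Fin m → V)
    (t : Fin (d + 1) → V) (hs : Injective s) (ht : Injective t) (hn : ∀ i j, t i ≠ s j)
    (hr : ∀ i j, R (t i) (s j)) : False := by
  have e1 : (range s).ncard = m := by rw [ncard_range_of_injective hs]; simp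
  have e2 : (range t).ncard = d + 1 := by rw [ncard_range_of_injective ht]; simp
  have := (ncard_le_ncard (s := range t) (by
    rintro _ ⟨i, rfl⟩
    exact ⟨fun ⟨j, e⟩ => hn i j e.symm, by rintro _ ⟨j, rfl⟩; exact hr i j⟩)).trans (h _ e1)
  omega

end Greedy

theorem ram : RamSt := by
  intro m d n
  refine ⟨2 ^ (d + 1 + m + 2 ^ (m + (d + 1) + n)), fun R h => ?_⟩
  rcases Greedy.two _ R (d + 1 + m) (2 ^ (m + (d + 1) + n)) Finset.univ rfl (by simp) with
    ⟨f, h1, -, h3⟩ | ⟨f, h1, -, h3⟩
  · have lt : ∀ (i : Fin (d + 1)) (j : Fin m), Fin.castAdd m i < Fin.natAdd (d + 1) j :=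
      fun i j => by rw [Fin.lt_def]; simp; omega
    exact (Greedy.pair h (fun j => f (Fin.natAdd _ j)) (fun i => f (Fin.castAdd _ i))
      (h1.injective.comp (Fin.natAdd_injective _ _)) (h1.injective.comp (Fin.castAdd_injective _ _))
      (fun i j => (h1 (lt i j)).ne) fun i j => h3 _ _ (lt i j)).elim
  rcases Greedy.two _ (fun i j => R (f j) (f i)) (m + (d + 1)) n Finset.univ rfl (by simp) with
    ⟨g, g1, -, g3⟩ | ⟨g, g1, -, g3⟩
  · have lt : ∀ (j : Fin m) (i : Fin (d + 1)), Fin.castAdd (d + 1) j < Fin.natAdd m i :=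
      fun i j => by rw [Fin.lt_def]; simp; omega
    have inj := h1.injective.comp g1.injective
    exact (Greedy.pair h (fun j => f (g (Fin.castAdd _ j))) (fun i => f (g (Fin.natAdd _ i)))
      (inj.comp (Fin.castAdd_injective _ _)) (inj.comp (Fin.natAdd_injective _ _))
      (fun i j => (h1 (g1 (lt j i))).ne') fun i j => g3 _ _ (lt j i)).elim
  refine ⟨fun i => f (g i), h1.injective.comp g1.injective, fun i j hij => ?_⟩
  rcases lt_or_gt_of_ne hij with e | e
  exacts [h3 _ _ (g1 e), g3 _ _ e]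

theorem greedy : GreedySt := by
  classical
  intro P Tk _ M h β o fz F bad ho hu hi hF hf hb hM
  have := Fintype.ofFinite P
  have key : ∀ S : Finset P, ∃ r : P → Fin M, ∀ p ∈ S, r p ∉ bad p ∧ ∀ a ∈ o p (r p), a ∉ F ∧
      ∀ p', p' ≠ p → a ≠ fz p' ∧ (p' ∈ S → a ∉ o p' (r p')) := fun S => by
    induction S using Finset.induction_on with
    | empty => exact ⟨fun _ => ⟨0, by omega⟩, fun p hp => absurd hp (Finset.notMem_empty p)⟩
    | insert q S hq ih =>
      obtain ⟨r, hr⟩ := ih
      let T : Set Tk := F ∪ ⋃ p, insert (fz p) (o p (r p))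
      have tf : T.Finite := hF.union (finite_iUnion fun p => (ho p _).1.insert _)
      have tc : T.ncard ≤ F.ncard + Nat.card P * (h + 1) := by
        refine (ncard_union_le _ _).trans (Nat.add_le_add_left ?_ _)
        refine (ncard_iUnion_le_of_fintype _).trans ?_
        rw [Nat.card_eq_fintype_card, ← smul_eq_mul, ← Finset.card_univ]
        exact Finset.sum_le_card_nsmul _ _ _ fun p _ =>
          (ncard_insert_le _ _).trans (Nat.succ_le_succ (ho p _).2)
      let B : Set (Fin M) := {s | ∃ a ∈ T, a ≠ fz q ∧ a ∈ o q s}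
      have bc : B.ncard ≤ T.ncard := by
        have ex : ∀ s, ∃ a, s ∈ B → a ∈ T ∧ a ≠ fz q ∧ a ∈ o q s := fun s => by
          by_cases e : s ∈ B
          · exact e.imp fun a ha _ => ha
          · exact ⟨fz q, fun e' => absurd e' e⟩
        choose c hc using ex
        refine ncard_le_ncard_of_injOn c (fun s hs => (hc s hs).1) (fun s hs s' hs' e => ?_) tf
        by_contra ne
        exact (hc s hs).2.1 (hu q s s' ne _ (hc s hs).2.2 (e ▸ (hc s' hs').2.2))
      obtain ⟨s, -, hs⟩ : ∃ s ∈ (univ : Set (Fin M)), s ∉ bad q ∪ B := by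
        refine exists_mem_notMem_of_ncard_lt_ncard ?_
        have := ncard_union_le (bad q) B
        have := hb q
        rw [ncard_univ, Nat.card_eq_fintype_card, Fintype.card_fin]
        omega
      rw [mem_union, not_or] at hs
      have new : ∀ a ∈ o q s, a ∈ T → a = fz q := fun a ha ht => by
        by_contra ne
        exact hs.2 ⟨a, ht, ne, ha⟩
      have mT : ∀ p, ∀ a ∈ insert (fz p) (o p (r p)), a ∈ T := fun p a ha =>
        .inr (mem_iUnion.2 ⟨p, ha⟩)
      have dis : ∀ p ∈ S, ∀ a ∈ o p (r p), a ∉ o q s := fun p hp a ha h' =>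
        (((hr p hp).2 a ha).2 q fun e => hq (e ▸ hp)).1 (new a h' (mT p a (.inr ha)))
      refine ⟨update r q s, fun p hp => ?_⟩
      replace hp := Finset.mem_insert.1 hp
      rcases hp with rfl | hp
      · rw [update_self]
        refine ⟨hs.1, fun a ha => ⟨fun e => hf p (new a ha (.inl e) ▸ e), fun p' ne => ⟨fun e =>
          ne (hi (e.symm.trans (new a ha (mT p' a (.inl e))))), fun hp' => ?_⟩⟩⟩
        rw [update_of_ne ne]
        exact fun e => dis p' ((Finset.mem_insert.1 hp').resolve_left ne) a e ha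
      · rw [update_of_ne fun e : p = q => hq (e ▸ hp)]
        refine ⟨(hr p hp).1, fun a ha => ⟨((hr p hp).2 a ha).1, fun p' ne =>
          ⟨(((hr p hp).2 a ha).2 p' ne).1, fun hp' => ?_⟩⟩⟩
        replace hp' := Finset.mem_insert.1 hp'
        rcases hp' with rfl | hp'
        · rw [update_self]
          exact dis p hp a ha
        · rw [update_of_ne fun e : p' = q => hq (e ▸ hp')]
          exact (((hr p hp).2 a ha).2 p' ne).2 hp'
  obtain ⟨r, hr⟩ := key Finset.univ
  exact ⟨r, fun p => ⟨(hr p (Finset.mem_univ _)).1, fun a ha =>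
    ⟨((hr p (Finset.mem_univ _)).2 a ha).1, fun p' ne =>
      (((hr p (Finset.mem_univ _)).2 a ha).2 p' ne).imp_right fun e => e (Finset.mem_univ _)⟩⟩⟩

end Pool.Agent.MP_da1f04_co.I91
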