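import Mathlib
import Pool.Agent.MP_da1f04_co.Hom
import Pool.Agent.MP_da1f04_co.I91.Lam

/-! Definitions and statements of the steps for the classification by induced subgraphs. -/

set_option autoImplicit false

namespace Pool.Agent.MP_da1f04_co.I91

open Set Function

/-- Nodes of the binary tree. -/
abbrev Nd : Type := List Bool

/-- Incomparable nodes. -/
def Inc (s t : Nd) : Prop := ¬ s <+: t ∧ ¬ t <+: s

/-- A colouring with `n` colours separates the related pairs. -/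
def Kill {V : Type} (R : V → V → Prop) (n : ℕ) : Prop :=
  ∃ φ : V → Fin n, ∀ u v, R u v → φ u ≠ φ v

section model

variable {V : Type} (G : SimpleGraph V) (lam : V → Nd)

/-- The edge from `c` to `x` crosses the node `t`. -/
def out (c x : V) (t : Nd) : Prop := G.Adj c x ∧ t ++ [true] <+: lam c ∧ t ++ [false] <+: lam x

/-- The vertices that have arrived at `s`. -/
def arr (s : Nd) : Set V := {y | ∃ t, t ++ [true] <+: s ∧ t ++ [false] <+: lam y}

/-- The neighbours of `c` that have arrived at `s`. -/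
def past (c : V) (s : Nd) : Set V := {y | G.Adj c y ∧ y ∈ arr lam s}

/-- Out-neighbours. -/
def Out (c y : V) : Prop := ∃ t, out G lam c y t

/-- Leaf and out-neighbourhood. -/
def k0 (c : V) : Nd × Set V := (lam c, past G lam c (lam c))

/-- The model. -/
structure Model (k g : ℕ) : Prop where
  m0 : ∀ c x, G.Adj c x → Out G lam c x ∨ Out G lam x c
  m1 : ∀ t, (k0 G lam '' {x | ∃ c, out G lam c x t}).ncard ≤ k
  m2 : ∀ c x y t s, out G lam c x t → out G lam x y s → t ++ [false] <+: s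
  m3 : ∀ s, ((fun c => past G lam c s) '' {c | ∃ x t, s <+: t ∧ out G lam c x t}).ncard ≤ g

/-- The first node on the path to the leaf of `c` at which the state has the property `P`. -/
noncomputable def fsn (P : Nd → Set V → Prop) (c : V) : Nd :=
  (lam c).take (sInf {n | P ((lam c).take n) (past G lam c ((lam c).take n)) ∨
    (lam c).length ≤ n})

/-- The first state with the property `P`. -/
noncomputable def fs (P : Nd → Set V → Prop) (c : V) : Nd × Set V :=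
  (fsn G lam P c, past G lam c (fsn G lam P c))

/-- The first state with a nonempty past. -/
noncomputable def zone (c : V) : Nd × Set V := fs G lam (fun _ τ => τ.Nonempty) c

/-- An event at time `t` with new past `τ'` lies below the state `(s, τ)`. -/
def Below (s : Nd) (τ : Set V) (t : Nd) (τ' : Set V) : Prop := s <+: t ∧ τ = τ' ∩ arr lam s

/-- Binary trees of events below a state. -/
def Rk (E : Nd → V → Set V → Prop) : ℕ → Nd → Set V → Prop
  | 0, _, _ => True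
  | j + 1, s, τ => ∃ t x σ t' x' σ', E t x σ ∧ E t' x' σ' ∧ Below lam s τ t σ ∧
      Below lam s τ t' σ' ∧ Inc (t ++ [true]) (t' ++ [true]) ∧ Rk E j (t ++ [true]) σ ∧
      Rk E j (t' ++ [true]) σ'

variable {ι : Type} (cls : Nd × Set V → V → ι)

/-- Many zones have the class `κ` for some vertex in the state `(s, τ)`. -/
def Rich (κ : ι) (K : ℕ) (s : Nd) (τ : Set V) : Prop :=
  K ≤ (zone G lam '' {u | ∃ c, s <+: lam c ∧ past G lam c s = τ ∧
    cls (zone G lam u) c = κ}).ncard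

/-- Events: edges of class `κ` that lead to a rich state. -/
def Ev (κ : ι) (K : ℕ) (t : Nd) (x : V) (σ : Set V) : Prop :=
  ∃ c, out G lam c x t ∧ past G lam c (t ++ [true]) = σ ∧ cls (zone G lam c) x = κ ∧
    Rich G lam cls κ K (t ++ [true]) σ

/-- No state with a nonempty past has rank `D`. -/
def NoRk (K D : ℕ) : Prop :=
  ∀ κ c s, s <+: lam c → (past G lam c s).Nonempty →
    ¬ Rk lam (Ev G lam cls κ K) D s (past G lam c s)

/-- A vertex of the zone of `u` with a marked edge below `t` is rich at `t`. -/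
def Shadow (e : V → Nd → Prop) (κ : ι) (K : ℕ) (u : V) (t : Nd) : Prop :=
  ∃ c, zone G lam c = zone G lam u ∧ (∃ x t', t <+: t' ∧ out G lam c x t' ∧ e c t') ∧
    Rich G lam cls κ K t (past G lam c t)

/-- Shadowed edges. -/
def Shad (e : V → Nd → Prop) (K : ℕ) (c x : V) (t : Nd) : Prop :=
  (past G lam c t).Nonempty ∧ ¬ Rich G lam cls (cls (zone G lam c) x) K t (past G lam c t) ∧
    Shadow G lam cls e (cls (zone G lam c) x) K c t

/-- Every induced submodel has a classification without states of rank `D`. -/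
def HPiece (ι : Type) (K D : ℕ) : Prop :=
  ∀ (V' : Type) (f : V' → V), Injective f → ∃ cls : Nd × Set V' → V' → ι,
    NoRk (G.comap f) (lam ∘ f) cls K D

end model

/-! ### Colouring the model -/

/-- Edges whose times form a chain for each cluster. -/
def ChainSt : Prop :=
  ∀ (V : Type) [Finite V] (G : SimpleGraph V) (lam : V → Nd) (k g : ℕ), Model G lam k g →
    ∀ (P : Nd → Set V → Prop) (R : V → V → Nd → Prop), (∀ s τ, P s τ → τ.Nonempty) →
    (∀ c x t, R c x t → out G lam c x t ∧ fsn G lam P c <+: t ∧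
      P (fsn G lam P c) (past G lam c (fsn G lam P c))) →
    (∀ c x t c' x' t', R c x t → R c' x' t' → fs G lam P c = fs G lam P c' →
      ¬ Inc (t ++ [true]) (t' ++ [true])) →
    Kill (fun c x => ∃ t, R c x t) (2 * (k * (g + 1)) + 1)

/-- Poor edges that are not shadowed. -/
def UnSt : Prop :=
  ∀ (V : Type) [Finite V] (G : SimpleGraph V) (lam : V → Nd) (k g : ℕ), Model G lam k g →
    ∀ (ι : Type) (cls : Nd × Set V → V → ι) (κ : ι) (K : ℕ) (e : V → Nd → Prop)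
      (P : Nd → Set V → Prop), (∀ s τ, P s τ ↔ τ.Nonempty ∧ ¬ Rich G lam cls κ K s τ) →
    Kill (fun u c => ∃ t, out G lam u c t ∧ e u t ∧ cls (zone G lam u) c = κ ∧
      fsn G lam P u <+: t ∧ P (fsn G lam P u) (past G lam u (fsn G lam P u)) ∧
      ¬ Shadow G lam cls e κ K u t) ((2 * (K * g) + 1) * 2)

/-- All marked edges that are not shadowed. -/
def StepSt : Prop :=
  ∀ (ι : Type) [Finite ι] (k g K D : ℕ), ∃ n, ∀ (V : Type) [Finite V] (G : SimpleGraph V)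
    (lam : V → Nd), Model G lam k g → ∀ cls : Nd × Set V → V → ι, NoRk G lam cls K D →
    ∀ e : V → Nd → Prop,
      Kill (fun c x => ∃ t, out G lam c x t ∧ e c t ∧ ¬ Shad G lam cls e K c x t) n

/-- Models without states of large rank have bounded chromatic number. -/
def ClaimSt : Prop :=
  ∀ (ι : Type) [Finite ι] (k g K D : ℕ), ∃ n, ∀ (V : Type) [Finite V] (G : SimpleGraph V)
    (lam : V → Nd), Model G lam k g → HPiece G lam ι K D → G.Colorable n

/-! ### The pattern -/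

/-- A piece of the pattern with the branches that hang from it. -/
structure Piece {Y : Type} (H : SimpleGraph Y) (A B : Set Y) (sub : Y → Set Y) (ρ : Y)
    (S : Set Y) : Prop where
  disj : ∀ a ∈ A, a ∉ B
  root : ρ ∈ A ∪ B
  nroot : ρ ∉ S
  cover : ∀ u ∈ S, ∃ p ∈ A ∪ B, p ≠ ρ ∧ (u = p ∨ u ∈ sub p)
  sep : ∀ p ∈ A ∪ B, ∀ p' ∈ A ∪ B, p ≠ p' → ∀ u ∈ sub p, ∀ u', (u' = p' ∨ u' ∈ sub p') →
    u ≠ u' ∧ ¬ H.Adj u u'
  self : ∀ p ∈ A ∪ B, p ∉ sub p
  stA : ∀ a ∈ A, ∀ a' ∈ A, ¬ H.Adj a a'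
  stB : ∀ b ∈ B, ∀ b' ∈ B, ¬ H.Adj b b'
  nest : ∀ a ∈ A, ∀ a' ∈ A, (∀ b ∈ B, H.Adj a b → H.Adj a' b) ∨
    (∀ b ∈ B, H.Adj a' b → H.Adj a b) ∨ ∀ b ∈ B, H.Adj a b → ¬ H.Adj a' b

/-- The branches of a pattern and their pieces. -/
def Scheme {Y : Type} (H : SimpleGraph Y) (Br : Y → Bool → Set Y) : Prop :=
  ∀ ρ d, ∃ (A B : Set Y) (sub : Y → Set Y), Piece H A B sub ρ (Br ρ d) ∧
    (d = true → ρ ∈ B) ∧ (d = false → ρ ∈ A) ∧ (∀ a ∈ A, sub a = Br a true) ∧
    (∀ b ∈ B, sub b = Br b false) ∧ ∀ p ∈ A ∪ B, p ≠ ρ → (sub p).ncard < (Br ρ d).ncard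

/-- A rooted laminar orientation: everything is joined to the source `ρ`. -/
def Rooted {Y : Type} (H : SimpleGraph Y) (O : Y → Y → Prop) (ρ : Y) : Prop :=
  (∀ u v, H.Adj u v ↔ O u v ∨ O v u) ∧ (∀ u v, O u v → ¬ O v u) ∧
    (∀ v w, (∀ u, O u v → O u w) ∨ (∀ u, O u w → O u v) ∨ ∀ u, O u v → ¬ O u w) ∧
    (∀ u v w, O u v → O v w → ∀ p : H.Walk u w, v ∈ p.support) ∧
    (∀ u, ¬ O u ρ) ∧ ∀ u, H.Reachable ρ u

/-- A laminar graph is an induced subgraph of a rooted one. -/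
def RootSt : Prop :=
  ∀ (Y : Type) [Finite Y] (H : SimpleGraph Y), Laminar H →
    ∃ (H' : SimpleGraph (Option Y)) (O : Option Y → Option Y → Prop),
      Nonempty (H ↪g H') ∧ Rooted H' O none

/-- A rooted laminar graph has a scheme. -/
def SchemeSt : Prop :=
  ∀ (Y : Type) [Finite Y] (H : SimpleGraph Y) (O : Y → Y → Prop) (ρ : Y), Rooted H O ρ →
    ∃ Br : Y → Bool → Set Y, Scheme H Br ∧ ∀ u, u ≠ ρ → u ∈ Br ρ true

/-! ### Families of copies -/

section amb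

variable {Y V L Z : Type} (H : SimpleGraph Y) (G : SimpleGraph V) (Ou : V → V → Prop)
  (lf : V → L) (zn : V → Z)

/-- The facts about leaves and zones that the selection uses. -/
structure Amb (k g : ℕ) : Prop where
  adj : ∀ u v, G.Adj u v ↔ Ou u v ∨ Ou v u
  noz : ∀ u v, zn u = zn v → ¬ G.Adj u v
  few : ∀ S : Set L, S.Finite →
    (zn '' {c | k < {l | l ∈ S ∧ ∃ y, Ou c y ∧ lf y = l}.ncard}).ncard ≤ g * S.ncard

/-- A diverse family of copies of the branch `S` with root `ρ` at `x`. -/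
def Good (k M : ℕ) (ρ : Y) (S : Set Y) (x : V) (fz oz : Z) : Prop :=
  ∃ φ : Fin M → Y → V, (∀ r, φ r ρ = x) ∧ (∀ r, InjOn (φ r) (insert ρ S)) ∧
    (∀ r, ∀ u ∈ insert ρ S, ∀ v ∈ insert ρ S, G.Adj (φ r u) (φ r v) ↔ H.Adj u v) ∧
    (∀ r r', r ≠ r' → ∀ u ∈ S, ∀ v ∈ S, lf (φ r u) ≠ lf (φ r' v) ∧
      (zn (φ r u) = zn (φ r' v) → zn (φ r u) = fz)) ∧
    ∀ c, zn c = oz → {r | ∃ u ∈ S, Ou c (φ r u)}.ncard ≤ k

/-- Pools of vertices for the roles of a piece. -/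
structure Pools (A B : Set Y) (N : ℕ) (y : Y → Fin N → V) (ζ : Y → Fin N → Z) (z : Z) : Prop where
  zA : ∀ a ∈ A, ∀ i, ζ a i = zn (y a i)
  zB : ∀ b ∈ B, ∀ i, zn (y b i) = z
  inj : ∀ p ∈ A ∪ B, ∀ p' ∈ A ∪ B, ∀ i j, (ζ p i = ζ p' j ∨ lf (y p i) = lf (y p' j)) →
    p = p' ∧ i = j
  adj : ∀ a ∈ A, ∀ b ∈ B, ∀ i j, H.Adj a b → G.Adj (y a i) (y b j)
  nadj : ∀ a ∈ A, ∀ b ∈ B, ∀ i j, ¬ H.Adj a b → ¬ Ou (y b j) (y a i)

/-- Layers: one sample for every role and index. -/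
structure Lay (B T : Set Y) (role : Y → Y) (N : ℕ) (Ψ : Fin N → Y → V) (z : Z) : Prop where
  same : ∀ i, ∀ u ∈ T, ∀ v ∈ T, role u = role v →
    (G.Adj (Ψ i u) (Ψ i v) ↔ H.Adj u v) ∧ (Ψ i u = Ψ i v → u = v)
  leaf : ∀ i j, ∀ u ∈ T, ∀ v ∈ T, lf (Ψ i u) = lf (Ψ j v) → i = j
  zon : ∀ i j, ∀ u ∈ T, ∀ v ∈ T, u ∉ B → v ∉ B → zn (Ψ i u) = zn (Ψ j v) → i = j
  tail : ∀ i, ∀ b ∈ T, b ∈ B → zn (Ψ i b) = z
  tout : ∀ i j, ∀ b ∈ T, b ∈ B → ∀ v ∈ T, role b ≠ role v → ¬ H.Adj b v → ¬ Ou (Ψ i b) (Ψ j v)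
  padj : ∀ i j, ∀ u ∈ T, ∀ v ∈ T, role u ≠ role v → H.Adj u v → G.Adj (Ψ i u) (Ψ j v)

end amb

/-- The model gives the facts about leaves and zones. -/
def AmbSt : Prop :=
  ∀ (V : Type) [Finite V] (G : SimpleGraph V) (lam : V → Nd) (k g : ℕ), Model G lam k g →
    Amb G (Out G lam) lam (zone G lam) k g

/-- The tree of events for a laminar bipartite pattern. -/
def EsSt : Prop :=
  ∀ (Y : Type) [Finite Y] (n : ℕ), ∃ D, ∀ (V : Type) (lam : V → Nd) (E : Nd → V → Set V → Prop),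
    (∀ t x σ, E t x σ → x ∈ σ) → ∀ (A B : Set Y) (a : Y → Y → Prop), (∀ p ∈ A, p ∉ B) →
    (∀ p ∈ A, ∀ p' ∈ A, (∀ b ∈ B, a p b → a p' b) ∨ (∀ b ∈ B, a p' b → a p b) ∨
      ∀ b ∈ B, a p b → ¬ a p' b) →
    ∀ s τ, Rk lam E D s τ → ∃ (t ν : Y → Fin n → Nd) (x : Y → Fin n → V)
      (σ : Y → Fin n → Set V),
      (∀ p ∈ A ∪ B, ∀ i, E (t p i) (x p i) (σ p i) ∧ Below lam s τ (t p i) (σ p i)) ∧
      (∀ p ∈ A, ∀ i, ν p i = t p i ++ [false]) ∧ (∀ b ∈ B, ∀ i, ν b i = t b i ++ [true]) ∧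
      (∀ p ∈ A ∪ B, ∀ p' ∈ A ∪ B, ∀ i j, ν p i <+: ν p' j → p = p' ∧ i = j) ∧
      (∀ p ∈ A, ∀ b ∈ B, a p b → ∀ i j, x p i ∈ σ b j) ∧
      ∀ p ∈ A, ∀ b ∈ B, ¬ a p b → ∃ sA sB, Inc sA sB ∧ ∀ i, sA <+: ν p i ∧ sB <+: ν b i

/-- A state of large rank gives pools. -/
def PoolSt : Prop :=
  ∀ (Y : Type) [Finite Y] (k N : ℕ), ∃ K D, ∀ (H : SimpleGraph Y) (A B : Set Y),
    (∀ p ∈ A, p ∉ B) → (∀ a ∈ A, ∀ a' ∈ A, (∀ b ∈ B, H.Adj a b → H.Adj a' b) ∨
      (∀ b ∈ B, H.Adj a' b → H.Adj a b) ∨ ∀ b ∈ B, H.Adj a b → ¬ H.Adj a' b) →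
    ∀ (V : Type) [Finite V] (G : SimpleGraph V) (lam : V → Nd) (g : ℕ), Model G lam k g →
    ∀ (ι : Type) (cls : Nd × Set V → V → ι) (κ : ι) (c : V) (s : Nd), s <+: lam c →
      (past G lam c s).Nonempty → Rk lam (Ev G lam cls κ K) D s (past G lam c s) →
      ∃ (y : Y → Fin N → V) (ζ : Y → Fin N → Nd × Set V),
        Pools H G (Out G lam) lam (zone G lam) A B N y ζ (zone G lam c) ∧
        (∀ a ∈ A, ∀ i, cls (zone G lam c) (y a i) = κ) ∧ ∀ b ∈ B, ∀ i, cls (ζ b i) (y b i) = κ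

/-- Greedy choice of disjoint objects. -/
def GreedySt : Prop :=
  ∀ (P Tk : Type) [Finite P] (M h β : ℕ) (o : P → Fin M → Set Tk) (fz : P → Tk) (F : Set Tk)
    (bad : P → Set (Fin M)), (∀ p r, (o p r).Finite ∧ (o p r).ncard ≤ h) →
    (∀ p r r', r ≠ r' → ∀ a ∈ o p r, a ∈ o p r' → a = fz p) → Injective fz → F.Finite →
    (∀ p, fz p ∉ F) → (∀ p, (bad p).ncard ≤ β) → β + F.ncard + Nat.card P * (h + 1) < M →
    ∃ r : P → Fin M, ∀ p, r p ∉ bad p ∧ ∀ a ∈ o p (r p), a ∉ F ∧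
      ∀ p', p' ≠ p → a ≠ fz p' ∧ a ∉ o p' (r p')

/-- A relation without large complete pairs has a large free set. -/
def RamSt : Prop :=
  ∀ m d n : ℕ, ∃ N, ∀ R : Fin N → Fin N → Prop,
    (∀ S : Set (Fin N), S.ncard = m → {i | i ∉ S ∧ ∀ j ∈ S, R i j}.ncard ≤ d) →
    ∃ f : Fin n → Fin N, Injective f ∧ ∀ i j, i ≠ j → ¬ R (f i) (f j)

/-- Samples for all pool vertices. -/
def LaySt : Prop :=
  ∀ (Y : Type) [Finite Y] (k N : ℕ), ∃ M, ∀ (H : SimpleGraph Y) (A B : Set Y) (sub : Y → Set Y)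
    (ρ : Y) (S : Set Y), Piece H A B sub ρ S → ∀ (V L Z : Type) [Finite V] (G : SimpleGraph V)
    (Ou : V → V → Prop) (lf : V → L) (zn : V → Z) (g : ℕ), Amb G Ou lf zn k g →
    ∀ (y : Y → Fin N → V) (ζ : Y → Fin N → Z) (z : Z), Pools H G Ou lf zn A B N y ζ z →
    (∀ p ∈ A ∪ B, p ≠ ρ → ∀ i, Good H G Ou lf zn k M p (sub p) (y p i) (ζ p i) z) →
    ∃ (role : Y → Y) (Ψ : Fin N → Y → V), Lay H G Ou lf zn B (insert ρ S) role N Ψ z ∧
      (∀ u ∈ S, role u ≠ role ρ) ∧ ∀ i, Ψ i ρ = y ρ i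

/-- Layers give a diverse family. -/
def AsmSt : Prop :=
  ∀ (Y : Type) [Finite Y] (k g M : ℕ), ∃ N, ∀ (H : SimpleGraph Y) (B S : Set Y) (ρ : Y)
    (role : Y → Y), ρ ∉ S → (∀ u ∈ S, role u ≠ role ρ) → ∀ (V L Z : Type) [Finite V]
    (G : SimpleGraph V) (Ou : V → V → Prop) (lf : V → L) (zn : V → Z), Amb G Ou lf zn k g →
    ∀ (Ψ : Fin N → Y → V) (z : Z), Lay H G Ou lf zn B (insert ρ S) role N Ψ z →
    ∀ ξ : Fin N → Z, Injective ξ → ∃ i, Good H G Ou lf zn k M ρ S (Ψ i ρ) z (ξ i)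

/-- Models without an induced copy of a laminar graph have bounded chromatic number. -/
def ModelSt : Prop :=
  ∀ (Y : Type) [Finite Y] (H : SimpleGraph Y), Laminar H → ∀ k g : ℕ, ∃ n, ∀ (V : Type) [Finite V]
    (G : SimpleGraph V) (lam : V → Nd), Model G lam k g → IsEmpty (H ↪g G) → G.Colorable n

/-! ### The home tree -/

/-- A derivation for the vertex set `D` with the partition given by `π`. -/
inductive Der {U : Type} (J : SimpleGraph U) (q k c : ℕ) : ∀ V : Type, (U → V) → Set U → Prop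
  | leaf (V : Type) (π : U → V) (D : Set U) (col : V → ℕ) :
      (∀ u ∈ D, ∀ u' ∈ D, ∀ w ∈ D, π u = π u' → π u ≠ π w → J.Adj u w → J.Adj u' w) →
      (∀ x, J.CliqueFreeOn {u | u ∈ D ∧ π u = x} q) → (∀ u ∈ D, col (π u) < c) →
      (∀ u ∈ D, ∀ w ∈ D, π u ≠ π w → J.Adj u w → col (π u) ≠ col (π w)) → Der J q k c V π D
  | merge (V V' : Type) (π : U → V) (π' : U → V') (D : Set U) :
      (∀ u ∈ D, ∀ w ∈ D, π u = π w → π' u = π' w) → Der J q k c V' π' D → Der J q k c V π D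
  | cut (V : Type) (π : U → V) (D : Set U) (a b : Set V) :
      (∀ u ∈ D, ∀ u' ∈ D, ∀ w ∈ D, π u = π u' → π u ≠ π w → J.Adj u w → J.Adj u' w) →
      (∀ u ∈ D, π u ∉ a → π u ∈ b) → (π '' {u | u ∈ D ∧ π u ∈ a ∧ π u ∈ b}).ncard ≤ k →
      (∀ u ∈ D, π u ∉ b → ∀ w ∈ D, π w ∉ a → ¬ J.Adj u w) →
      Der J q k c V π (D ∩ π ⁻¹' a) → Der J q k c V π (D ∩ π ⁻¹' b) → Der J q k c V π D

/-- The home tree. -/
structure HT {V : Type} (G : SimpleGraph V) (q k w c : ℕ) (lam : V → Nd) (D : Nd → Set V)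
    (cl : Nd → V → Set V) (col : V → ℕ) : Prop where
  home : ∀ s u, s <+: lam u → u ∈ D s
  anti : ∀ s s', s <+: s' → D s' ⊆ D s
  mono : ∀ s s' u v, s <+: s' → u ∈ D s' → v ∈ D s' → cl s u = cl s v → cl s' u = cl s' v
  modu : ∀ s, ∀ u ∈ D s, ∀ u' ∈ D s, ∀ v ∈ D s, cl s u = cl s u' → cl s u ≠ cl s v →
    G.Adj u v → G.Adj u' v
  same : ∀ s u v, s <+: lam u → s <+: lam v → cl s u = cl s v → lam u = lam v
  targ : ∀ t, (cl t '' {x | ∃ c, out G lam c x t}).ncard ≤ k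
  wt : ∀ s, (cl s '' {u | u ∈ D s ∧ (u ∈ arr lam s ∨
    (s <+: lam u ∧ ¬ past G lam u s ⊆ D s))}).ncard ≤ w
  chain : ∀ u v, lam u <+: lam v → lam u = lam v
  lt : ∀ u, col u < c
  ne : ∀ u v, lam u = lam v → cl (lam u) u ≠ cl (lam u) v → G.Adj u v → col u ≠ col v
  fib : ∀ u, G.CliqueFreeOn {v | lam v = lam u ∧ cl (lam u) v = cl (lam u) u} q

/-- Derivations exist for induced subgraphs of members of the closure. -/
def DerSt : Prop :=
  ∀ (C : GClass) (f : ℕ → ℕ), (∀ (V : Type) (G : SimpleGraph V), Finite V → C V G →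
    ∀ (s : Set V) (m : ℕ), (G.induce s).CliqueFree (m + 1) → (G.induce s).Colorable (f m)) →
    ∀ (k q : ℕ) (U W : Type) [Finite U] (J : SimpleGraph U) (H : SimpleGraph W) (e : J ↪g H),
      Cl C k W H → 2 ≤ q → J.CliqueFree (q + 1) → Der J q k (f q) W e univ

/-- A derivation gives a home tree. -/
def HtSt : Prop :=
  ∀ (U W : Type) [Finite U] (J : SimpleGraph U) (q k c : ℕ) (π : U → W), Der J q k c W π univ →
    ∃ lam D cl col, HT J q k (2 * k * (k + 1)) c lam D cl col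

section clean

variable {V : Type} (G : SimpleGraph V) (lam : V → Nd) (D : Nd → Set V) (cl : Nd → V → Set V)

/-- All arrived neighbours are present and lie outside the own class. -/
def Clean (c : V) (s : Nd) : Prop := ∀ y ∈ past G lam c s, y ∈ D s ∧ cl s y ≠ cl s c

/-- The leaf class. -/
def lc (u : V) : Nd × Set V := (lam u, cl (lam u) u)

/-- The head is at home and not clean at the first time of the tail. -/
def Late (c x : V) : Prop :=
  ∃ f, (zone G lam c).1 = f ++ [true] ∧ f <+: lam x ∧ ¬ Clean G lam D cl x f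

/-- Sets without a clique of size `q` have colourings with `c'` colours. -/
def Small (q c' : ℕ) : Prop :=
  ∀ S : Set V, G.CliqueFreeOn S q → Kill (fun u v => u ∈ S ∧ v ∈ S ∧ G.Adj u v) c'

end clean

/-- Edges in a leaf, and edges whose tail has an unclean member in its leaf class. -/
def XaSt : Prop :=
  ∀ (V : Type) [Finite V] (G : SimpleGraph V) (q k w c c' : ℕ) (lam : V → Nd) (D : Nd → Set V)
    (cl : Nd → V → Set V) (col : V → ℕ), HT G q k w c lam D cl col → Small G q c' →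
    Kill (fun u v => G.Adj u v ∧ lam u = lam v) (c * c') ∧
    Kill (fun u x => ∃ t, out G lam u x t ∧ ∃ u', lc lam cl u' = lc lam cl u ∧
      ¬ Clean G lam D cl u' t) (2 * (w * k) + 1)

/-- Inverted edges. -/
def XbSt : Prop :=
  ∀ (V : Type) [Finite V] (G : SimpleGraph V) (q k w c c' : ℕ) (lam : V → Nd) (D : Nd → Set V)
    (cl : Nd → V → Set V) (col : V → ℕ), HT G q k w c lam D cl col → Small G q c' →
    G.CliqueFree (q + 1) →
    Kill (fun u x => ∃ t, out G lam u x t ∧ Clean G lam D cl u t ∧ (past G lam x t).Nonempty ∧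
      ¬ Late G lam D cl u x) (c' * (2 * (2 * 2 ^ w) + 1)) ∧
    Kill (fun u x => ∃ t, out G lam u x t ∧ (∀ u', lc lam cl u' = lc lam cl u →
      Clean G lam D cl u' t) ∧ Late G lam D cl u x) (2 * ((2 ^ w + 1) * w) + 1)

/-- Reduction of a graph with a home tree to models. -/
def RedSt : Prop :=
  ∀ k w c c' n : ℕ, ∃ n', ∀ (V : Type) [Finite V] (G : SimpleGraph V) (q : ℕ) (lam : V → Nd)
    (D : Nd → Set V) (cl : Nd → V → Set V) (col : V → ℕ), HT G q k w c lam D cl col →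
    Small G q c' → G.CliqueFree (q + 1) →
    (∀ (V' : Type) (f : V' → V), Injective f → Model (G.comap f) (lam ∘ f) k (2 ^ w) →
      (G.comap f).Colorable n) → G.Colorable n'

end Pool.Agent.MP_da1f04_co.I91
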