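import Mathlib
import Pool.Agent.MP_da1f04_co.I91.Spec

/-! A derivation gives a home tree. -/

set_option autoImplicit false

namespace Pool.Agent.MP_da1f04_co.I91

open Set Function

namespace Ht

variable {U V : Type}

theorem factor_le [Finite U] {α β : Type} (S : Set U) (f : U → α) (g : U → β)
    (h : ∀ u ∈ S, ∀ w ∈ S, g u = g w → f u = f w) : (f '' S).ncard ≤ (g '' S).ncard := by
  classical
  rcases S.eq_empty_or_nonempty with rfl | ⟨u₀, -⟩
  · simp
  let e : β → α := fun b => if hb : ∃ u ∈ S, g u = b then f hb.choose else f u₀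
  have : f '' S ⊆ e '' (g '' S) := by
    rintro _ ⟨u, hu, rfl⟩
    have hb : ∃ w ∈ S, g w = g u := ⟨u, hu, rfl⟩
    refine ⟨g u, ⟨u, hu, rfl⟩, ?_⟩
    simp only [e, dif_pos hb]
    exact h _ hb.choose_spec.1 _ hu hb.choose_spec.2
  exact (ncard_le_ncard this (toFinite _)).trans (ncard_image_le (toFinite _))

theorem img_le [Finite U] {α : Type} (f : U → α) {S T : Set U} (h : S ⊆ T) :
    (f '' S).ncard ≤ (f '' T).ncard := ncard_le_ncard (image_mono h) (toFinite _)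

theorem img_un [Finite U] {α : Type} (f : U → α) {S T T' : Set U} (h : S ⊆ T ∪ T') :
    (f '' S).ncard ≤ (f '' T).ncard + (f '' T').ncard := by
  refine (img_le f h).trans ?_
  rw [image_union]
  exact ncard_union_le _ _

theorem img_disj [Finite U] {α : Type} (f : U → α) {S T T' : Set U} (a : Set α) (h : T ⊆ S)
    (h' : T' ⊆ S) (ha : ∀ u ∈ T, f u ∈ a) (ha' : ∀ u ∈ T', f u ∉ a) :
    (f '' T).ncard + (f '' T').ncard ≤ (f '' S).ncard := by
  rw [← ncard_union_eq ?_ (toFinite _) (toFinite _), ← image_union]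
  · exact img_le f (union_subset h h')
  · rw [disjoint_left]
    rintro _ ⟨u, hu, rfl⟩ ⟨v, hv, e⟩
    exact ha' v hv (e ▸ ha u hu)

/-- The fibres. -/
def fb (π : U → V) (u : U) : Set U := {v | π v = π u}

theorem fb_iff {π : U → V} {u v : U} : fb π u = fb π v ↔ π u = π v :=
  ⟨fun h => (h.le (rfl : π u = π u) : π u = π v), fun h => by rw [fb, fb, h]⟩

/-- The vertices that are counted at a node. -/
def Wt (J : SimpleGraph U) (D A Mk : Set U) (lam : U → Nd) (Ds : Nd → Set U) (s : Nd) : Set U :=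
  {u | u ∈ Ds s ∧ (u ∉ A ∨ u ∈ arr lam s ∨ (s <+: lam u ∧ (u ∈ Mk ∨ ∃ y, J.Adj u y ∧ y ∉ Ds s ∧
    ((y ∈ D ∧ y ∉ A) ∨ (y ∈ A ∧ y ∈ arr lam s)))))}

/-- The relative home tree. -/
structure RHT (J : SimpleGraph U) (q k w c : ℕ) (π : U → V) (D A Mk : Set U) (lam : U → Nd)
    (Ds : Nd → Set U) (cl : Nd → U → Set U) (col : U → ℕ) : Prop where
  root : Ds [] = D
  pcl : ∀ u ∈ D, ∀ v ∈ D, π u = π v → cl [] u = cl [] v
  plam : ∀ u ∈ A, ∀ v ∈ A, π u = π v → lam u = lam v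
  home : ∀ s, ∀ u ∈ A, s <+: lam u → u ∈ Ds s
  anti : ∀ s s', s <+: s' → Ds s' ⊆ Ds s
  mono : ∀ s s' u v, s <+: s' → u ∈ Ds s' → v ∈ Ds s' → cl s u = cl s v → cl s' u = cl s' v
  modu : ∀ s, ∀ u ∈ Ds s, ∀ u' ∈ Ds s, ∀ v ∈ Ds s, cl s u = cl s u' → cl s u ≠ cl s v →
    J.Adj u v → J.Adj u' v
  same : ∀ s, ∀ u ∈ A, ∀ v ∈ A, s <+: lam u → s <+: lam v → cl s u = cl s v → lam u = lam v
  targ : ∀ t, (cl t '' {x | x ∈ A ∧ ∃ c ∈ A, out J lam c x t}).ncard ≤ k
  wt : ∀ s, (cl s '' Wt J D A Mk lam Ds s).ncard ≤ w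
  chain : ∀ u ∈ A, ∀ v ∈ A, lam u <+: lam v → lam u = lam v
  lt : ∀ u ∈ A, col u < c
  ne : ∀ u ∈ A, ∀ v ∈ A, lam u = lam v → cl (lam u) u ≠ cl (lam u) v → J.Adj u v → col u ≠ col v
  fib : ∀ u ∈ A, J.CliqueFreeOn {v | v ∈ A ∧ lam v = lam u ∧ cl (lam u) v = cl (lam u) u} q

variable {J : SimpleGraph U} {q k w c : ℕ} {π : U → V} {D A Mk : Set U}

theorem not_arr_nil (lam : U → Nd) (y : U) : y ∉ arr lam [] := by
  rintro ⟨t, h, -⟩
  simp at h

theorem wt_root [Finite U] {lam : U → Nd} {Ds : Nd → Set U} (h0 : Ds [] = D)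
    (hw : (k + 1) * (π '' (D \ A)).ncard + (π '' (Mk ∩ A)).ncard ≤ w) :
    (fb π '' Wt J D A Mk lam Ds []).ncard ≤ w := by
  have h1 : Wt J D A Mk lam Ds [] ⊆ (D \ A) ∪ (Mk ∩ A) := by
    rintro u ⟨hu, h⟩
    rw [h0] at hu h
    by_cases hA : u ∈ A
    · rcases h with h | h | ⟨-, h | ⟨y, -, h1, h2 | h2⟩⟩
      · exact absurd hA h
      · exact absurd h (not_arr_nil _ _)
      · exact Or.inr ⟨h, hA⟩
      · exact absurd h2.1 h1
      · exact absurd h2.2 (not_arr_nil _ _)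
    · exact Or.inl ⟨hu, hA⟩
  have h2 := img_un π h1
  have h3 := factor_le (Wt J D A Mk lam Ds []) (fb π) π fun _ _ _ _ e => fb_iff.mpr e
  nlinarith [Nat.zero_le (k * (π '' (D \ A)).ncard)]

/-- Data on the nodes from data at the root and on the two subtrees. -/
def nod {X : Type} (x : X) (f : Bool → Nd → X) : Nd → X
  | [] => x
  | β :: s => f β s

theorem glue [Finite U] (sd : U → Bool) (Dc Mc : Bool → Set U) (hA : A ⊆ D)
    (hmod : ∀ u ∈ D, ∀ u' ∈ D, ∀ v ∈ D, π u = π u' → π u ≠ π v → J.Adj u v → J.Adj u' v)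
    (hw : (k + 1) * (π '' (D \ A)).ncard + (π '' (Mk ∩ A)).ncard ≤ w)
    (g1 : ∀ u v, π u = π v → sd u = sd v) (g2 : ∀ β, Dc β ⊆ D) (g3 : ∀ β, Mk ⊆ Mc β)
    (g4 : ∀ u ∈ A, ∀ y ∈ D, y ∉ A → J.Adj u y → y ∈ Dc (sd u) ∨ u ∈ Mc (sd u))
    (g5 : ∀ u ∈ A, ∀ y ∈ A, sd u = true → sd y = false → J.Adj u y → y ∈ Dc true)
    (g6 : (π '' {x | x ∈ A ∧ sd x = false ∧ ∃ c ∈ A, sd c = true ∧ J.Adj c x}).ncard ≤ k)
    (h : ∀ β, ∃ lam Ds cl col, RHT J q k w c π (Dc β) {u | u ∈ A ∧ sd u = β} (Mc β) lam Ds cl col) :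
    ∃ lam Ds cl col, RHT J q k w c π D A Mk lam Ds cl col := by
  choose lam Ds cl col h using h
  have m : ∀ {u}, u ∈ A → u ∈ {v | v ∈ A ∧ sd v = sd u} := fun hu => ⟨hu, rfl⟩
  have m' : ∀ {u β}, u ∈ A → β = sd u → u ∈ {v | v ∈ A ∧ sd v = β} := fun hu e => ⟨hu, e.symm⟩
  have sub : ∀ β s, Ds β s ⊆ Dc β := fun β s =>
    (h β).root ▸ (h β).anti [] s List.nil_prefix
  have ar : ∀ β s y, y ∈ arr (fun u => sd u :: lam (sd u) u) (β :: s) →
      (β = true ∧ sd y = false) ∨ (sd y = β ∧ y ∈ arr (lam β) s) := by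
    rintro β s y ⟨t, h1, h2⟩
    cases t with
    | nil =>
      exact Or.inl ⟨(List.cons_prefix_cons.mp h1).1.symm, (List.cons_prefix_cons.mp h2).1.symm⟩
    | cons γ t =>
      obtain ⟨rfl, h1'⟩ := List.cons_prefix_cons.mp h1
      obtain ⟨e, h2⟩ := List.cons_prefix_cons.mp h2
      exact Or.inr ⟨e.symm, t, h1', e ▸ h2⟩
  refine ⟨fun u => sd u :: lam (sd u) u, nod D Ds, nod (fb π) cl, fun u => col (sd u) u,
    rfl, fun _ _ _ _ e => fb_iff.mpr e, ?_, ?_, ?_, ?_, ?_, ?_, ?_, ?_, ?_,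
    fun u hu => (h _).lt u (m hu), ?_, ?_⟩
  · intro u hu v hv e
    have e' := g1 u v e
    have := (h (sd u)).plam u (m hu) v (m' hv e') e
    simp only [← e', this]
  · intro s u hu hs
    cases s with
    | nil => exact hA hu
    | cons β s =>
      obtain ⟨rfl, hs'⟩ := List.cons_prefix_cons.mp hs
      exact (h _).home s u (m hu) hs'
  · intro s s' hs
    cases s' with
    | nil => rw [List.prefix_nil.mp hs]
    | cons β s' =>
      cases s with
      | nil => exact (sub β s').trans (g2 β)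
      | cons γ s =>
        obtain ⟨rfl, hs'⟩ := List.cons_prefix_cons.mp hs
        exact (h _).anti s s' hs'
  · intro s s' u v hs hu hv e
    cases s' with
    | nil => rwa [List.prefix_nil.mp hs] at e
    | cons β s' =>
      cases s with
      | nil =>
        exact (h β).mono [] s' u v List.nil_prefix hu hv
          ((h β).pcl u (sub β s' hu) v (sub β s' hv) (fb_iff.mp e))
      | cons γ s =>
        obtain ⟨rfl, hs'⟩ := List.cons_prefix_cons.mp hs
        exact (h _).mono s s' u v hs' hu hv e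
  · intro s u hu u' hu' v hv e e'
    cases s with
    | nil => exact hmod u hu u' hu' v hv (fb_iff.mp e) fun x => e' (fb_iff.mpr x)
    | cons β s => exact (h β).modu s u hu u' hu' v hv e e'
  · intro s u hu v hv h1 h2 e
    cases s with
    | nil =>
      have e' := g1 u v (fb_iff.mp e)
      have := (h (sd u)).plam u (m hu) v (m' hv e') (fb_iff.mp e)
      simp only [← e', this]
    | cons β s =>
      obtain ⟨rfl, h1'⟩ := List.cons_prefix_cons.mp h1
      obtain ⟨e', h2⟩ := List.cons_prefix_cons.mp h2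
      have := (h (sd u)).same s u (m hu) v (m' hv e') h1' (e' ▸ h2) e
      simp only [← e', this]
  · intro t
    cases t with
    | nil =>
      refine (factor_le _ (fb π) π fun _ _ _ _ e => fb_iff.mpr e).trans
        ((img_le π ?_).trans g6)
      rintro x ⟨hx, y, hy, h1, h2, h3⟩
      exact ⟨hx, (List.cons_prefix_cons.mp h3).1.symm, y, hy,
        (List.cons_prefix_cons.mp h2).1.symm, h1⟩
    | cons β t =>
      refine (img_le (cl β t) ?_).trans ((h β).targ t)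
      rintro x ⟨hx, y, hy, h1, h2, h3⟩
      obtain ⟨rfl, h2'⟩ := List.cons_prefix_cons.mp h2
      obtain ⟨e, h3⟩ := List.cons_prefix_cons.mp h3
      exact ⟨m' hx e, y, m hy, h1, h2', e ▸ h3⟩
  · intro s
    cases s with
    | nil => exact wt_root rfl hw
    | cons β s =>
      refine (img_le (cl β s) ?_).trans ((h β).wt s)
      rintro u ⟨hu, h1⟩
      refine ⟨hu, ?_⟩
      by_cases hA' : u ∈ A ∧ sd u = β
      swap
      · exact Or.inl hA'
      obtain ⟨hA', rfl⟩ := hA'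
      rcases h1 with h1 | h1 | ⟨h1, h2⟩
      · exact absurd hA' h1
      · rcases ar _ _ _ h1 with ⟨e, e'⟩ | h1
        · rw [e] at e'; cases e'
        · exact Or.inr (Or.inl h1.2)
      · refine Or.inr (Or.inr ⟨(List.cons_prefix_cons.mp h1).2, ?_⟩)
        rcases h2 with h2 | ⟨y, h2, h3, ⟨h4, h5⟩ | ⟨h4, h5⟩⟩
        · exact Or.inl (g3 _ h2)
        · rcases g4 u hA' y h4 h5 h2 with h6 | h6
          · exact Or.inr ⟨y, h2, h3, Or.inl ⟨h6, fun x => h5 x.1⟩⟩
          · exact Or.inl h6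
        · rcases ar _ _ _ h5 with ⟨e, e'⟩ | h5
          · refine Or.inr ⟨y, h2, h3, Or.inl ⟨e ▸ g5 u hA' y h4 e e' h2, fun x => ?_⟩⟩
            have := x.2
            rw [e, e'] at this; cases this
          · exact Or.inr ⟨y, h2, h3, Or.inr ⟨⟨h4, h5.1⟩, h5.2⟩⟩
  · intro u hu v hv h1
    obtain ⟨e, h1⟩ := List.cons_prefix_cons.mp h1
    have := (h (sd u)).chain u (m hu) v (m' hv e) (e ▸ h1)
    simp only [← e, this]
  · intro u hu v hv h1 h2 h3
    obtain ⟨e, h1⟩ := List.cons_eq_cons.mp h1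
    have := (h (sd u)).ne u (m hu) v (m' hv e) (e ▸ h1) h2 h3
    simpa only [← e] using this
  · intro u hu
    refine SimpleGraph.CliqueFreeOn.subset _ ?_ ((h (sd u)).fib u (m hu))
    rintro v ⟨hv, h1, h2⟩
    obtain ⟨e, h1⟩ := List.cons_eq_cons.mp h1
    exact ⟨⟨hv, e⟩, e ▸ h1, h2⟩

/-- The statement proved by induction. -/
def St (J : SimpleGraph U) (q k c : ℕ) (π : U → V) (D : Set U) : Prop :=
  ∀ A ⊆ D, ∀ Mk, (k + 1) * (π '' (D \ A)).ncard + (π '' (Mk ∩ A)).ncard ≤ 2 * k * (k + 1) →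
    ∃ lam Ds cl col, RHT J q k (2 * k * (k + 1)) c π D A Mk lam Ds cl col

theorem cut [Finite U] {a b : Set V} (hA : A ⊆ D)
    (hmod : ∀ u ∈ D, ∀ u' ∈ D, ∀ v ∈ D, π u = π u' → π u ≠ π v → J.Adj u v → J.Adj u' v)
    (h1 : ∀ u ∈ D, π u ∉ a → π u ∈ b) (h2 : (π '' {u | u ∈ D ∧ π u ∈ a ∧ π u ∈ b}).ncard ≤ k)
    (h3 : ∀ u ∈ D, π u ∉ b → ∀ v ∈ D, π v ∉ a → ¬ J.Adj u v)
    (ia : St J q k c π (D ∩ π ⁻¹' a)) (ib : St J q k c π (D ∩ π ⁻¹' b))
    (hw : (k + 1) * (π '' (D \ A)).ncard + (π '' (Mk ∩ A)).ncard ≤ 2 * k * (k + 1))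
    (hb : (k + 1) * (π '' ((D \ A) \ π ⁻¹' a)).ncard + (π '' ((Mk ∩ A) \ π ⁻¹' a)).ncard
      ≤ k * (k + 1)) :
    ∃ lam Ds cl col, RHT J q k (2 * k * (k + 1)) c π D A Mk lam Ds cl col := by
  classical
  have nb : ∀ u ∈ D, ∀ v ∈ D, π v ∉ a → J.Adj u v → π u ∈ b := fun u hu v hv h h' =>
    by_contra fun h'' => h3 u hu h'' v hv h h'
  refine glue (fun u => decide (π u ∉ a)) (fun β => D ∩ π ⁻¹' (bif β then b else a))
    (fun β => bif β then Mk else Mk ∪ {u | ∃ y ∈ D \ A, π y ∉ a ∧ J.Adj u y}) hA hmod hw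
    (fun u v e => by rw [e]) (fun _ => inter_subset_left) ?_ ?_ ?_ ((img_le π ?_).trans h2) ?_
  · rintro (_ | _)
    · exact subset_union_left
    · exact Subset.rfl
  · intro u hu y hy hy' h
    by_cases ha : π u ∈ a
    · rw [decide_eq_false (not_not.mpr ha)]
      by_cases ha' : π y ∈ a
      · exact Or.inl ⟨hy, ha'⟩
      · exact Or.inr (Or.inr ⟨y, ⟨hy, hy'⟩, ha', h⟩)
    · rw [decide_eq_true ha]
      exact Or.inl ⟨hy, nb y hy u (hA hu) ha h.symm⟩
  · intro u hu y hy e _ h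
    exact ⟨hA hy, nb y (hA hy) u (hA hu) (of_decide_eq_true e) h.symm⟩
  · rintro x ⟨hx, e, y, hy, e', h⟩
    exact ⟨hA hx, not_not.mp (of_decide_eq_false e),
      nb x (hA hx) y (hA hy) (of_decide_eq_true e') h.symm⟩
  · rintro (_ | _)
    · refine ia _ (fun u hu => ⟨hA hu.1, not_not.mp (of_decide_eq_false hu.2)⟩) _ (le_trans ?_ hw)
      have s1 : (D ∩ π ⁻¹' a) \ {u | u ∈ A ∧ decide (π u ∉ a) = false} ⊆ D \ A := fun u hu =>
        ⟨hu.1.1, fun x => hu.2 ⟨x, decide_eq_false (not_not.mpr hu.1.2)⟩⟩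
      by_cases hn : ∃ y ∈ D \ A, π y ∉ a
      · obtain ⟨y, hy, hy'⟩ := hn
        have c1 := img_disj π a s1 (singleton_subset_iff.mpr hy) (fun u hu => hu.1.2)
          (fun u hu => by rw [mem_singleton_iff.mp hu]; exact hy')
        rw [image_singleton, ncard_singleton] at c1
        have c2 := img_un π (S := (Mk ∪ {u | ∃ y ∈ D \ A, π y ∉ a ∧ J.Adj u y}) ∩
          {u | u ∈ A ∧ decide (π u ∉ a) = false}) (T := Mk ∩ A)
          (T' := {u | u ∈ D ∧ π u ∈ a ∧ π u ∈ b}) (by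
            rintro u ⟨hu | ⟨z, hz, hz', h⟩, hu', e⟩
            · exact Or.inl ⟨hu, hu'⟩
            · exact Or.inr ⟨hA hu', not_not.mp (of_decide_eq_false e),
                nb u (hA hu') z hz.1 hz' h⟩)
        have c3 := Nat.mul_le_mul_left (k + 1) c1
        simp only [cond_false]
        rw [mul_add] at c3
        omega
      · refine add_le_add (Nat.mul_le_mul_left _ (img_le π s1)) (img_le π ?_)
        rintro u ⟨hu | ⟨z, hz, hz', -⟩, hu', -⟩
        · exact ⟨hu, hu'⟩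
        · exact absurd ⟨z, hz, hz'⟩ hn
    · refine ib _ (fun u hu => ⟨hA hu.1, h1 u (hA hu.1) (of_decide_eq_true hu.2)⟩) _ ?_
      have c1 := img_un π (S := (D ∩ π ⁻¹' b) \ {u | u ∈ A ∧ decide (π u ∉ a) = true})
        (T := (D \ A) \ π ⁻¹' a) (T' := {u | u ∈ D ∧ π u ∈ a ∧ π u ∈ b}) (by
          intro u hu
          by_cases ha : π u ∈ a
          · exact Or.inr ⟨hu.1.1, ha, hu.1.2⟩
          · exact Or.inl ⟨⟨hu.1.1, fun x => hu.2 ⟨x, decide_eq_true ha⟩⟩, ha⟩)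
      have c2 := img_le π (S := Mk ∩ {u | u ∈ A ∧ decide (π u ∉ a) = true})
        (T := (Mk ∩ A) \ π ⁻¹' a) fun u hu => ⟨⟨hu.1, hu.2.1⟩, of_decide_eq_true hu.2.2⟩
      have c3 := Nat.mul_le_mul_left (k + 1) (c1.trans (Nat.add_le_add_left h2 _))
      simp only [cond_true]
      nlinarith

theorem main [Finite U] (h : Der J q k c V π D) : St J q k c π D := by
  induction h with
  | leaf V π D col h1 h2 h3 h4 =>
    intro A hA Mk hw
    refine ⟨fun _ => [], nod D fun _ _ => ∅, fun _ => fb π, fun u => col (π u), rfl,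
      fun _ _ _ _ e => fb_iff.mpr e, fun _ _ _ _ _ => rfl, ?_, ?_, fun _ _ _ _ _ _ _ e => e, ?_,
      fun _ _ _ _ _ _ _ _ => rfl, ?_, ?_, fun _ _ _ _ _ => rfl, fun u hu => h3 u (hA hu),
      fun u hu v hv _ e => h4 u (hA hu) v (hA hv) fun x => e (fb_iff.mpr x), fun u _ =>
      SimpleGraph.CliqueFreeOn.subset _ (fun v hv => And.intro (hA hv.1) (fb_iff.mp hv.2.2))
        (h2 (π u))⟩
    · intro s u hu hs
      rw [List.prefix_nil.mp hs]
      exact hA hu
    · intro s s' hs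
      cases s' with
      | nil => rw [List.prefix_nil.mp hs]
      | cons β s' => exact empty_subset _
    · intro s u hu u' hu' v hv e e'
      cases s with
      | nil => exact h1 u hu u' hu' v hv (fb_iff.mp e) fun x => e' (fb_iff.mpr x)
      | cons β s => exact hu.elim
    · intro t
      refine (img_le _ (T := ∅) ?_).trans (by simp)
      rintro x ⟨-, y, -, -, h, -⟩
      simp at h
    · intro s
      cases s with
      | nil => exact wt_root rfl hw
      | cons β s => exact (img_le _ (T := ∅) fun u hu => hu.1).trans (by simp)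
  | merge V V' π π' D h1 _ ih =>
    intro A hA Mk hw
    obtain ⟨lam, Ds, cl, col, h⟩ := ih A hA Mk (le_trans (add_le_add (Nat.mul_le_mul_left _
      (factor_le _ π' π fun u hu v hv => h1 u hu.1 v hv.1))
      (factor_le _ π' π fun u hu v hv => h1 u (hA hu.2) v (hA hv.2))) hw)
    exact ⟨lam, Ds, cl, col, h.root, fun u hu v hv e => h.pcl u hu v hv (h1 u hu v hv e),
      fun u hu v hv e => h.plam u hu v hv (h1 u (hA hu) v (hA hv) e), h.home, h.anti, h.mono,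
      h.modu, h.same, h.targ, h.wt, h.chain, h.lt, h.ne, h.fib⟩
  | cut V π D a b h0 h1 h2 h3 _ _ ia ib =>
    intro A hA Mk hw
    have h1' : ∀ u ∈ D, π u ∉ b → π u ∈ a := fun u hu h => by_contra fun h' => h (h1 u hu h')
    have c1 := img_disj π a (S := D \ A) (T := (D \ A) \ π ⁻¹' b) (T' := (D \ A) \ π ⁻¹' a)
      sdiff_subset sdiff_subset (fun u hu => h1' u hu.1.1 hu.2) fun u hu => hu.2
    have c2 := img_disj π a (S := Mk ∩ A) (T := (Mk ∩ A) \ π ⁻¹' b) (T' := (Mk ∩ A) \ π ⁻¹' a)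
      sdiff_subset sdiff_subset (fun u hu => h1' u (hA hu.1.2) hu.2) fun u hu => hu.2
    have c3 := Nat.mul_le_mul_left (k + 1) c1
    by_cases hb : (k + 1) * (π '' ((D \ A) \ π ⁻¹' a)).ncard +
        (π '' ((Mk ∩ A) \ π ⁻¹' a)).ncard ≤ k * (k + 1)
    · exact cut hA h0 h1 h2 h3 ia ib hw hb
    · refine cut hA h0 h1' (le_trans (img_le π fun u hu => And.intro hu.1 hu.2.symm) h2)
        (fun u hu h v hv h' e => h3 v hv h' u hu h e.symm) ib ia hw (by nlinarith)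

end Ht

theorem ht : HtSt := by
  intro U W _ J q k c π h
  obtain ⟨lam, Ds, cl, col, h⟩ := Ht.main h univ Subset.rfl ∅ (by simp)
  refine ⟨lam, Ds, cl, col, fun s u => h.home s u trivial, h.anti, h.mono, h.modu,
    fun s u v => h.same s u trivial v trivial, fun t => (Ht.img_le _ ?_).trans (h.targ t),
    fun s => (Ht.img_le _ ?_).trans (h.wt s), fun u v => h.chain u trivial v trivial,
    fun u => h.lt u trivial, fun u v => h.ne u trivial v trivial, fun u =>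
    SimpleGraph.CliqueFreeOn.subset _ (fun v hv => And.intro trivial hv) (h.fib u trivial)⟩
  · rintro x ⟨y, hy⟩
    exact ⟨trivial, y, trivial, hy⟩
  · rintro u ⟨hu, h1 | ⟨h1, h2⟩⟩
    · exact ⟨hu, Or.inr (Or.inl h1)⟩
    · obtain ⟨y, hy, hy'⟩ := not_subset.mp h2
      exact ⟨hu, Or.inr (Or.inr ⟨h1, Or.inr ⟨y, hy.1, hy', Or.inr ⟨trivial, hy.2⟩⟩⟩)⟩

end Pool.Agent.MP_da1f04_co.I91
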