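import Pool.Agent.MP_da1f04_co.I91.Spec

/-! Samples for all pool vertices. -/

set_option autoImplicit false

namespace Pool.Agent.MP_da1f04_co.I91

open Set Function

theorem lay (gr : GreedySt) : LaySt := by
  classical
  intro Y _ k N
  refine ⟨Nat.card Y * N * k + Nat.card Y * N + Nat.card Y * N * (2 * Nat.card Y + 1) + 1, ?_⟩
  generalize hM : Nat.card Y * N * k + Nat.card Y * N + Nat.card Y * N * (2 * Nat.card Y + 1) + 1
    = M
  intro H A B sub ρ S pc V L Z _ G Ou lf zn g am y ζ z po gd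
  let sb : Y → Set Y := fun p => if p = ρ then ∅ else sub p
  have sbs : ∀ {p u}, u ∈ sb p → u ∈ sub p := fun {p u} h => by
    by_cases e : p = ρ <;> simp_all [sb]
  have gd' : ∀ q : ↥(A ∪ B) × Fin N,
      Good H G Ou lf zn k M q.1 (sb q.1) (y q.1 q.2) (ζ q.1 q.2) z := by
    rintro ⟨⟨p, hp⟩, i⟩
    by_cases e : p = ρ
    · refine ⟨fun _ _ => y p i, fun _ => rfl, ?_, ?_, ?_, ?_⟩ <;> simp [sb, e]
    · simpa only [sb, if_neg e] using gd p hp e i
  choose φ rt ij ad dv fw using gd'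
  have cv : ∀ u, ∃ p : ↥(A ∪ B), u ∈ insert ρ S → (u = p ∨ u ∈ sb p) ∧ (u ∈ S → p.1 ≠ ρ) := by
    intro u
    by_cases h : u ∈ S
    · obtain ⟨p, hp, e, k⟩ := pc.cover u h
      exact ⟨⟨p, hp⟩, fun _ => ⟨by simpa only [sb, if_neg e] using k, fun _ => e⟩⟩
    · exact ⟨⟨ρ, pc.root⟩, fun k => ⟨Or.inl (k.resolve_right h), fun k => (h k).elim⟩⟩
  choose role hr using cv
  have cP : Nat.card (↥(A ∪ B) × Fin N) ≤ Nat.card Y * N := by
    rw [Nat.card_prod, Nat.card_fin]
    exact Nat.mul_le_mul_right _ (Finite.card_subtype_le _)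
  obtain ⟨r, hg⟩ := gr (↥(A ∪ B) × Fin N) (L ⊕ Z) M (2 * Nat.card Y) (Nat.card Y * N * k)
    (fun q r => (fun u => Sum.inl (lf (φ q r u))) '' sb q.1 ∪
      (fun u => Sum.inr (zn (φ q r u))) '' sb q.1) (fun q => Sum.inr (ζ q.1 q.2))
    (range fun q : ↥(A ∪ B) × Fin N => Sum.inl (lf (y q.1 q.2)))
    (fun q => ⋃ q' : ↥(A ∪ B) × Fin N,
      {r | q'.1.1 ∈ B ∧ ∃ u ∈ sb q.1, Ou (y q'.1 q'.2) (φ q r u)})
    (fun q r => ⟨toFinite _, (ncard_union_le _ _).trans (by
      rw [two_mul]
      exact Nat.add_le_add ((ncard_image_le (toFinite _)).trans (ncard_le_card _))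
        ((ncard_image_le (toFinite _)).trans (ncard_le_card _)))⟩)
    (by
      rintro q r r' ne _ (⟨u, hu, rfl⟩ | ⟨u, hu, rfl⟩) (⟨v, hv, e⟩ | ⟨v, hv, e⟩)
      · exact ((dv q r r' ne u hu v hv).1 (Sum.inl_injective e).symm).elim
      · cases e
      · cases e
      · exact congrArg _ ((dv q r r' ne u hu v hv).2 (Sum.inr_injective e).symm))
    (fun q q' e => by
      obtain ⟨a, b⟩ := po.inj _ q.1.2 _ q'.1.2 _ _ (Or.inl (Sum.inr_injective e))
      exact Prod.ext (Subtype.ext a) b)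
    (finite_range _) (by rintro q ⟨q', e⟩; cases e)
    (fun q => by
      have := Fintype.ofFinite (↥(A ∪ B) × Fin N)
      refine (ncard_iUnion_le_of_fintype _).trans ((Finset.sum_le_card_nsmul _ _ k
        fun q' _ => ?_).trans ?_)
      · by_cases b : q'.1.1 ∈ B
        · simpa only [b, true_and] using fw q _ (po.zB _ b q'.2)
        · simp [b]
      · rw [Finset.card_univ, ← Nat.card_eq_fintype_card]
        exact Nat.mul_le_mul_right _ cP)
    (by
      have a : (range fun q : ↥(A ∪ B) × Fin N => (Sum.inl (lf (y q.1 q.2)) : L ⊕ Z)).ncard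
          ≤ Nat.card Y * N := by
        rw [← image_univ]
        exact (ncard_image_le (toFinite _)).trans ((ncard_univ _).trans_le cP)
      have b := Nat.mul_le_mul_right (2 * Nat.card Y + 1) cP
      omega)
  have rts : ∀ {u} (i : Fin N), u = role u → φ (role u, i) (r (role u, i)) u = y u i :=
    fun {u} i e => by have := rt (role u, i) (r (role u, i)); simp only [← e] at this; exact this
  have own : ∀ u ∈ insert ρ S, u ∈ A ∪ B → u = role u := fun u hu h =>
    (hr u hu).1.elim id fun k => by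
      by_contra n
      exact (pc.sep _ (role u).2 u h (Ne.symm n) u (sbs k) u (Or.inl rfl)).1 rfl
  have mA : ∀ {u}, u = role u → u ∈ A ∪ B := fun {u} e => by have := (role u).2; rwa [← e] at this
  refine ⟨fun u => role u, fun i u => φ (role u, i) (r (role u, i)) u,
    ⟨fun i u hu v hv e => ?_, fun i j u hu v hv e => ?_, fun i j u hu v hv nu nv e => ?_,
      fun i b hb h => ?_, fun i j b hb h v hv _ na o => ?_, fun i j u hu v hv ne a => ?_⟩,
    fun u hu => ?_, fun i => rts i (own ρ (mem_insert _ _) pc.root)⟩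
  · have e' : role v = role u := Subtype.ext e.symm
    have hv' := (hr v hv).1
    simp only [e'] at hv' ⊢
    exact ⟨ad (role u, i) _ u (hr u hu).1 v hv', ij (role u, i) _ (hr u hu).1 hv'⟩
  · by_contra n
    have ne : (role v, j) ≠ (role u, i) := fun k => n (congrArg Prod.snd k).symm
    rcases (hr u hu).1 with a | a <;> rcases (hr v hv).1 with b | b
    · rw [rts i a, rts j b] at e
      exact n (po.inj _ (mA a) _ (mA b) _ _ (Or.inr e)).2
    · rw [rts i a] at e
      exact ((hg _).2 _ (Or.inl ⟨v, b, rfl⟩)).1 ⟨(⟨u, mA a⟩, i), congrArg _ e⟩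
    · rw [rts j b] at e
      exact ((hg _).2 _ (Or.inl ⟨u, a, rfl⟩)).1 ⟨(⟨v, mA b⟩, j), congrArg _ e.symm⟩
    · exact (((hg _).2 _ (Or.inl ⟨u, a, rfl⟩)).2 _ ne).2 (Or.inl ⟨v, b, congrArg _ e.symm⟩)
  · by_contra n
    have ne : (role v, j) ≠ (role u, i) := fun k => n (congrArg Prod.snd k).symm
    rcases (hr u hu).1 with a | a <;> rcases (hr v hv).1 with b | b
    · rw [rts i a, rts j b, ← po.zA _ ((mA a).resolve_right nu),
        ← po.zA _ ((mA b).resolve_right nv)] at e
      exact n (po.inj _ (mA a) _ (mA b) _ _ (Or.inl e)).2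
    · rw [rts i a, ← po.zA _ ((mA a).resolve_right nu)] at e
      exact (((hg _).2 _ (Or.inr ⟨v, b, rfl⟩)).2 _ ne.symm).1
        (congrArg _ (e.symm.trans (congrArg (ζ · i) a)))
    · rw [rts j b, ← po.zA _ ((mA b).resolve_right nv)] at e
      exact (((hg _).2 _ (Or.inr ⟨u, a, rfl⟩)).2 _ ne).1
        (congrArg _ (e.trans (congrArg (ζ · j) b)))
    · exact (((hg _).2 _ (Or.inr ⟨u, a, rfl⟩)).2 _ ne).2 (Or.inr ⟨v, b, congrArg _ e.symm⟩)
  · rw [rts i (own b hb (Or.inr h))]
    exact po.zB b h i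
  · rw [rts i (own b hb (Or.inr h))] at o
    rcases (hr v hv).1 with c | c
    · rw [rts j c] at o
      rcases mA c with d | d
      · exact po.nadj v d b h j i (fun k => na k.symm) o
      · exact am.noz _ _ ((po.zB b h i).trans (po.zB v d j).symm) ((am.adj _ _).2 (Or.inl o))
    · exact (hg (role v, j)).1 (mem_iUnion.2 ⟨(⟨b, Or.inr h⟩, i), h, v, c, o⟩)
  · have a1 : u = role u := (hr u hu).1.resolve_right fun k =>
      (pc.sep _ (role u).2 _ (role v).2 ne u (sbs k) v ((hr v hv).1.imp_right sbs)).2 a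
    have b1 : v = role v := (hr v hv).1.resolve_right fun k =>
      (pc.sep _ (role v).2 _ (role u).2 ne.symm v (sbs k) u (Or.inl a1)).2 a.symm
    rw [rts i a1, rts j b1]
    rcases mA a1 with c | c <;> rcases mA b1 with d | d
    · exact (pc.stA u c v d a).elim
    · exact po.adj u c v d i j a
    · exact (po.adj v d u c j i a.symm).symm
    · exact (pc.stB u c v d a).elim
  · exact fun e => (hr u (mem_insert_of_mem _ hu)).2 hu
      (e.trans (own ρ (mem_insert _ _) pc.root).symm)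

end Pool.Agent.MP_da1f04_co.I91
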