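import Pool.Agent.MP_da1f04_co.I91.Tools

/-! Pools from a state of large rank. -/

set_option autoImplicit false

namespace Pool.Agent.MP_da1f04_co.I91

open Set Function

namespace PoolsAux

theorem greedy {P α : Type} [Finite P] (S : P → Set α) (hS : ∀ p, (S p).Finite)
    (h : ∀ p, Nat.card P ≤ (S p).ncard) : ∃ f : P → α, Injective f ∧ ∀ p, f p ∈ S p := by
  classical
  have := Fintype.ofFinite P
  obtain ⟨f, h1, h2⟩ := (Finset.all_card_le_biUnion_card_iff_existsInjective'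
    fun p => (hS p).toFinset).1 fun s => by
      rcases s.eq_empty_or_nonempty with rfl | ⟨p, hp⟩
      · simp
      · refine (Finset.card_le_univ s).trans (le_trans ?_ (Finset.card_le_card
          (Finset.subset_biUnion_of_mem (fun p => (hS p).toFinset) hp)))
        rw [← Nat.card_eq_fintype_card, ← ncard_eq_toFinset_card _ (hS p)]
        exact h p
  exact ⟨f, h1, fun p => by simpa using h2 p⟩

theorem union_le {P α : Type} [Finite P] [Finite α] (S : P → Set α) (C : ℕ)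
    (h : ∀ p, (S p).ncard ≤ C) : {a | ∃ p, a ∈ S p}.ncard ≤ C * Nat.card P := by
  have h1 : {q : P × α | q.2 ∈ S q.1}.ncard ≤ C * (univ : Set P).ncard :=
    ncard_fib finite_univ Prod.fst C (fun _ _ => mem_univ _) (toFinite _) fun p _ =>
      le_trans (ncard_le_ncard_of_injOn Prod.snd (fun q hq => by
        obtain ⟨h2, rfl⟩ := hq
        exact h2) (fun q hq q' hq' e => Prod.ext (hq.2.trans hq'.2.symm) e) (toFinite _)) (h p)
  rw [ncard_univ] at h1
  refine le_trans (ncard_le_ncard ?_ (toFinite _)) ((ncard_image_le (f := Prod.snd)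
    (toFinite _)).trans h1)
  rintro a ⟨p, hp⟩
  exact ⟨(p, a), hp, rfl⟩

end PoolsAux

open PoolsAux in
theorem poolSt (h : EsSt) : PoolSt := by
  classical
  intro Y _ k N
  obtain ⟨D, hD⟩ := h Y (N + k * Nat.card (Y × Y))
  refine ⟨2 * (Nat.card Y * N), D, ?_⟩
  intro H A B hAB hnest V _ G lam g M ι cls κ c s hs hne hRk
  obtain ⟨t, ν, x, σ, h1, h2, h3, h4, h5, h6⟩ := hD V lam _
    (fun _ _ _ ⟨_, a, b, _⟩ => b ▸ a.mem) A B H.Adj hAB hnest s _ hRk
  have hz : ∀ p ∈ A ∪ B, ∀ i c', t p i ++ [true] <+: lam c' →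
      past G lam c' (t p i ++ [true]) = σ p i → zone G lam c' = zone G lam c := by
    intro p hp i c' a b
    obtain ⟨e1, e2⟩ := (h1 p hp i).2
    have e3 := e1.trans (pre_app _ true)
    exact (zone_congr hs (e3.trans a) (by rw [past_restr (c := c') e3, b, e2]) hne).symm
  have hc : ∀ p ∈ A ∪ B, ∀ p' ∈ A ∪ B, ∀ i j q, ν p i <+: q → ν p' j <+: q → p = p' ∧ i = j := by
    intro p hp p' hp' i j q a b
    rcases pre_total a b with e | e
    · exact h4 p hp p' hp' i j e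
    · exact (h4 p' hp' p hp j i e).imp Eq.symm Eq.symm
  have hxz : ∀ a ∈ A, ∀ i, ν a i <+: (zone G lam (x a i)).1 := by
    intro a ha i
    obtain ⟨c', e, -⟩ := (h1 a (Or.inl ha) i).1
    rw [h2 a ha]
    exact M.zone_deep e
  have hxl : ∀ a ∈ A, ∀ i, ν a i <+: lam (x a i) := fun a ha i => (hxz a ha i).trans zone_pre
  choose! sA sB h6 h7 using h6
  have hb : ∀ p : Y × Y, {i | p.1 ∈ A ∧ ∃ c' m, out G lam c' (x p.1 i) m ∧
      m ++ [false] <+: sA p.1 p.2 ∧ m ++ [true] <+: sB p.1 p.2}.ncard ≤ k := by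
    rintro ⟨a, b⟩
    rcases eq_empty_or_nonempty {i | a ∈ A ∧ ∃ c' m, out G lam c' (x a i) m ∧
      m ++ [false] <+: sA a b ∧ m ++ [true] <+: sB a b} with e | ⟨i0, ha, c0, m0, -, a1, a2⟩
    · simp only [e, ncard_empty, zero_le]
    refine le_trans (ncard_le_ncard_of_injOn (fun i => lam (x a i)) ?_ ?_ (toFinite _))
      (M.heads (t := m0) lam {y | ∃ c', out G lam c' y m0} (fun _ h => h)
        fun _ _ e => congrArg Prod.fst e)
    · rintro i ⟨-, c', m, b0, b1, b2⟩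
      obtain rfl := meet_unique a1 a2 b1 b2
      exact ⟨_, ⟨c', b0⟩, rfl⟩
    · intro i _ j _ e
      exact (hc a (Or.inl ha) a (Or.inl ha) i j _ (hxl a ha i)
        ((show lam (x a i) = lam (x a j) from e) ▸ hxl a ha j)).2
  have hbad := union_le _ k hb
  obtain ⟨e, he, hgood⟩ := greedy (P := Fin N) (fun _ => {i | ∃ p : Y × Y, i ∈ {i | p.1 ∈ A ∧
      ∃ c' m, out G lam c' (x p.1 i) m ∧ m ++ [false] <+: sA p.1 p.2 ∧
        m ++ [true] <+: sB p.1 p.2}}ᶜ) (fun _ => toFinite _) fun _ => by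
    rw [ncard_compl _ (toFinite _)]
    simp only [Nat.card_eq_fintype_card, Fintype.card_fin]
    omega
  have hF : (range fun q : Y × Fin N => zone G lam (x q.1 (e q.2))).ncard ≤ Nat.card Y * N := by
    rw [← image_univ]
    refine (ncard_image_le (toFinite _)).trans ?_
    simp [ncard_univ]
  obtain ⟨f, hf, hfm⟩ := greedy (P := B × Fin N) (fun q => (zone G lam '' {u | ∃ c',
      t q.1 (e q.2) ++ [true] <+: lam c' ∧ past G lam c' (t q.1 (e q.2) ++ [true]) = σ q.1 (e q.2) ∧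
      cls (zone G lam u) c' = κ}) \ range fun q : Y × Fin N => zone G lam (x q.1 (e q.2)))
    (fun _ => toFinite _) fun q => by
      obtain ⟨-, -, -, -, hr⟩ := (h1 q.1 (Or.inr q.1.2) (e q.2)).1
      refine le_trans ?_ (le_ncard_sdiff _ _ (toFinite _))
      have a1 : Nat.card B ≤ Nat.card Y := Finite.card_subtype_le _
      have a2 := Nat.mul_le_mul_right N a1
      unfold Rich at hr
      rw [Nat.card_prod, Nat.card_eq_fintype_card (α := Fin N), Fintype.card_fin]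
      omega
  have hw : ∀ q : B × Fin N, ∃ c', t q.1 (e q.2) ++ [true] <+: lam c' ∧
      past G lam c' (t q.1 (e q.2) ++ [true]) = σ q.1 (e q.2) ∧ cls (f q) c' = κ := by
    intro q
    obtain ⟨⟨u, ⟨c', a⟩, b⟩, -⟩ := hfm q
    exact ⟨c', b ▸ a⟩
  choose w w1 w2 w3 using hw
  obtain ⟨y, yA, yB⟩ : ∃ y : Y → Fin N → V, (∀ a ∈ A, ∀ i, y a i = x a (e i)) ∧
      ∀ b (hb : b ∈ B) i, y b i = w (⟨b, hb⟩, i) :=
    ⟨fun p i => if h : p ∈ B then w (⟨p, h⟩, i) else x p (e i),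
      fun a ha i => dif_neg (hAB a ha), fun b hb i => dif_pos hb⟩
  obtain ⟨ζ, zA, zB⟩ : ∃ ζ : Y → Fin N → Nd × Set V,
      (∀ a ∈ A, ∀ i, ζ a i = zone G lam (x a (e i))) ∧
      ∀ b (hb : b ∈ B) i, ζ b i = f (⟨b, hb⟩, i) :=
    ⟨fun p i => if h : p ∈ B then f (⟨p, h⟩, i) else zone G lam (x p (e i)),
      fun a ha i => dif_neg (hAB a ha), fun b hb i => dif_pos hb⟩
  have hyl : ∀ p ∈ A ∪ B, ∀ i, ν p (e i) <+: lam (y p i) := by
    rintro p (hp | hp) i
    · rw [yA p hp]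
      exact hxl p hp _
    · rw [yB p hp, h3 p hp]
      exact w1 (⟨p, hp⟩, i)
  refine ⟨y, ζ, ⟨fun a ha i => by rw [zA a ha, yA a ha], fun b hb i => ?_, ?_, ?_, ?_⟩,
    fun a ha i => ?_, fun b hb i => ?_⟩
  · rw [yB b hb]
    exact hz b (Or.inr hb) _ _ (w1 (⟨b, hb⟩, i)) (w2 (⟨b, hb⟩, i))
  · rintro p hp p' hp' i j (a | a)
    · rcases hp with hp | hp <;> rcases hp' with hp' | hp'
      · rw [zA p hp, zA p' hp'] at a
        exact (hc p (Or.inl hp) p' (Or.inl hp') _ _ _ (hxz p hp _) (a ▸ hxz p' hp' _)).imp_right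
          fun h => he h
      · rw [zA p hp, zB p' hp'] at a
        exact ((hfm _).2 ⟨(p, i), a⟩).elim
      · rw [zB p hp, zA p' hp'] at a
        exact ((hfm _).2 ⟨(p', j), a.symm⟩).elim
      · rw [zB p hp, zB p' hp'] at a
        have := hf a
        exact ⟨congrArg (fun q => q.1.1) this, congrArg Prod.snd this⟩
    · exact (hc p hp p' hp' _ _ _ (hyl p hp i) (a ▸ hyl p' hp' j)).imp_right fun h => he h
  · intro a ha b hb i j hab
    have := h5 a ha b hb hab (e i) (e j)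
    rw [← w2 (⟨b, hb⟩, j)] at this
    rw [yA a ha, yB b hb]
    exact this.1.symm
  · rintro a ha b hb i j hab ⟨m, hm⟩
    have := meet_inc (h6 a ha b hb hab) ((h7 a ha b hb hab (e i)).1.trans (hyl a (Or.inl ha) i))
      ((h7 a ha b hb hab (e j)).2.trans (hyl b (Or.inr hb) j)) hm.2.2 hm.2.1
    exact hgood i ⟨(a, b), ha, _, m, yA a ha i ▸ hm, this⟩
  · obtain ⟨c', a1, a2, a3, -⟩ := (h1 a (Or.inl ha) (e i)).1
    rw [yA a ha, ← hz a (Or.inl ha) _ c' a1.2.1 a2]
    exact a3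
  · rw [zB b hb, yB b hb]
    exact w3 _

end Pool.Agent.MP_da1f04_co.I91
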