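import Pool.Agent.MP_da1f04_co.I91.Spec

/-! A laminar graph is an induced subgraph of a rooted laminar graph. -/

set_option autoImplicit false

namespace Pool.Agent.MP_da1f04_co.I91

open Set Function

namespace Root

/-- A property that passes along edges avoiding `z` passes along walks avoiding `z`. -/
theorem inv {V : Type} {G : SimpleGraph V} (z : V) (P : V → Prop)
    (hP : ∀ a b, b ≠ z → G.Adj a b → P a → P b) {x y : V} (p : G.Walk x y)
    (hp : z ∉ p.support) (hx : P x) : P y := by
  induction p with
  | nil => exact hx
  | cons h p ih =>
    rw [SimpleGraph.Walk.support_cons, List.mem_cons, not_or] at hp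
    exact ih hp.2 (hP _ _ (fun e => hp.2 (e ▸ p.start_mem_support)) h hx)

variable {Y : Type} {H : SimpleGraph Y} {O : Y → Y → Prop}

theorem sep (h1 : ∀ u v, H.Adj u v ↔ O u v ∨ O v u)
    (h4 : ∀ u v w, O u v → O v w → ∀ p : H.Walk u w, v ∈ p.support) {u v w : Y} (huv : O u v)
    (hw : Relation.ReflTransGen O v w) : ∀ p : H.Walk u w, v ∈ p.support := by
  induction hw with
  | refl => exact fun p => p.end_mem_support
  | @tail b c _ hbc ih =>
    intro p
    have := ih (p.concat ((h1 c b).2 (Or.inr hbc)))
    rw [SimpleGraph.Walk.support_concat, List.mem_append,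
      List.mem_singleton] at this
    rcases this with h | h
    · exact h
    · subst h
      exact h4 u v c huv hbc p

/-- Every component has a source. -/
theorem source [Finite Y] (h1 : ∀ u v, H.Adj u v ↔ O u v ∨ O v u) (h2 : ∀ u v, O u v → ¬ O v u)
    (h4 : ∀ u v w, O u v → O v w → ∀ p : H.Walk u w, v ∈ p.support) (c : H.ConnectedComponent) :
    ∃ y, H.connectedComponentMk y = c ∧ ∀ u, ¬ O u y := by
  have : Std.Irrefl (Relation.TransGen O) := ⟨fun v hv => by
    obtain ⟨u, hu, huv⟩ := Relation.TransGen.tail'_iff.1 hv
    have := sep h1 h4 huv hu SimpleGraph.Walk.nil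
    rw [SimpleGraph.Walk.support_nil, List.mem_singleton] at this
    subst this
    exact h2 _ _ huv huv⟩
  have hwf : WellFounded (Relation.TransGen O) := Finite.wellFounded_of_trans_of_irrefl _
  obtain ⟨y, hy, hmin⟩ := hwf.has_min {y | H.connectedComponentMk y = c} c.exists_rep
  refine ⟨y, hy, fun u hu => hmin u ?_ (Relation.TransGen.single hu)⟩
  exact (SimpleGraph.ConnectedComponent.connectedComponentMk_eq_of_adj
    ((h1 u y).2 (Or.inl hu))).trans hy

/-- The orientation with a new source joined to the vertices of `S`. -/
def ext (O : Y → Y → Prop) (S : Set Y) : Option Y → Option Y → Prop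
  | some u, some v => O u v
  | none, some v => v ∈ S
  | _, none => False

theorem not_ext (S : Set Y) (u : Option Y) : ¬ ext O S u none := by
  cases u <;> exact id

theorem ext_asymm (h2 : ∀ u v, O u v → ¬ O v u) (S : Set Y) (u v : Option Y) (h : ext O S u v) :
    ¬ ext O S v u := by
  cases u with
  | none => exact not_ext S v
  | some u =>
    cases v with
    | none => exact fun _ => h
    | some v => exact h2 u v h

/-- The underlying graph. -/
def gr (h2 : ∀ u v, O u v → ¬ O v u) (S : Set Y) : SimpleGraph (Option Y) where
  Adj x y := ext O S x y ∨ ext O S y x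
  symm := ⟨fun _ _ h => h.symm⟩
  loopless := ⟨fun x h => by
    rcases h with h | h <;> exact ext_asymm h2 S x x h h⟩

end Root

open Root in
theorem root : RootSt := by
  classical
  rintro Y _ H ⟨O, h1, h2, h3, h4⟩
  choose sg hsg hsrc using source h1 h2 h4
  have hadj : ∀ u v, (gr h2 (range sg)).Adj (some u) (some v) ↔ H.Adj u v := fun u v =>
    (h1 u v).symm
  have hcc : ∀ {u v}, H.Adj u v → H.connectedComponentMk u = H.connectedComponentMk v :=
    fun h => SimpleGraph.ConnectedComponent.connectedComponentMk_eq_of_adj h
  have hS : ∀ v ∈ range sg, v = sg (H.connectedComponentMk v) := by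
    rintro _ ⟨c, rfl⟩
    rw [hsg]
  have hn : ∀ v, (gr h2 (range sg)).Adj none (some v) ↔ v ∈ range sg := fun v =>
    ⟨fun h => h.elim id False.elim, Or.inl⟩
  have hS0 : ∀ v ∈ range sg, ∀ u, ext O (range sg) u (some v) → u = none := by
    rintro _ ⟨c, rfl⟩ (_ | u) h
    · rfl
    · exact (hsrc c u h).elim
  let e : H ↪g gr h2 (range sg) := ⟨⟨some, Option.some_injective Y⟩, fun {a b} => hadj a b⟩
  refine ⟨gr h2 (range sg), ext O (range sg), ⟨e⟩, fun _ _ => Iff.rfl, ext_asymm h2 _, ?_, ?_,
    not_ext _, ?_⟩
  · rintro (_ | v) w
    · exact Or.inl fun u h => (not_ext _ u h).elim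
    rcases w with _ | w
    · exact Or.inr (Or.inl fun u h => (not_ext _ u h).elim)
    by_cases hv : v ∈ range sg
    · by_cases hw : w ∈ range sg
      · exact Or.inl fun u h => by
          rw [hS0 v hv u h]
          exact hw
      · exact Or.inr (Or.inr fun u h h' => by
          rw [hS0 v hv u h] at h'
          exact hw h')
    · by_cases hw : w ∈ range sg
      · exact Or.inr (Or.inr fun u h h' => by
          rw [hS0 w hw u h'] at h
          exact hv h)
      · rcases h3 v w with h | h | h
        · exact Or.inl fun u hu => by
            cases u with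
            | none => exact (hv hu).elim
            | some u => exact h u hu
        · exact Or.inr (Or.inl fun u hu => by
            cases u with
            | none => exact (hw hu).elim
            | some u => exact h u hu)
        · exact Or.inr (Or.inr fun u hu => by
            cases u with
            | none => exact (hv hu).elim
            | some u => exact h u hu)
  · rintro u (_ | v) w huv hvw p
    · exact (not_ext _ u huv).elim
    rcases w with _ | w
    · exact (not_ext _ _ hvw).elim
    have hc : H.connectedComponentMk v = H.connectedComponentMk w := hcc ((h1 v w).2 (Or.inl hvw))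
    by_contra hp
    cases u with
    | none =>
      refine inv (some v) (fun a => ∀ y, a = some y →
        H.connectedComponentMk y ≠ H.connectedComponentMk v) ?_ p hp (fun y h => by cases h) w rfl
        hc.symm
      rintro (_ | a) b hb hab ha y rfl hy
      · refine hb (congrArg some ?_)
        rw [hS y ((hn y).1 hab), hy, ← hS v huv]
      · exact ha a rfl ((hcc ((hadj a y).1 hab)).trans hy)
    | some u =>
      have hcu : H.connectedComponentMk u = H.connectedComponentMk v :=
        hcc ((h1 u v).2 (Or.inl huv))
      let pj : Option Y → Y := fun a => a.elim (sg (H.connectedComponentMk v)) fun y =>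
        if H.connectedComponentMk y = H.connectedComponentMk v then y
        else sg (H.connectedComponentMk v)
      have hin : ∀ y, H.connectedComponentMk y = H.connectedComponentMk v → pj (some y) = y :=
        fun y h => if_pos h
      have hout : ∀ y, H.connectedComponentMk y ≠ H.connectedComponentMk v →
          pj (some y) = sg (H.connectedComponentMk v) := fun y h => if_neg h
      have hsS : ∀ y ∈ range sg, pj (some y) = sg (H.connectedComponentMk v) := fun y hy => by
        by_cases h : H.connectedComponentMk y = H.connectedComponentMk v
        · rw [hin y h, ← h]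
          exact hS y hy
        · exact hout y h
      have key := inv (some v) (fun a => ∃ q : H.Walk u (pj a), v ∉ q.support) ?_ p hp
        (by
          rw [hin u hcu]
          refine ⟨SimpleGraph.Walk.nil, ?_⟩
          rw [SimpleGraph.Walk.support_nil, List.mem_singleton]
          rintro rfl
          exact h2 _ _ huv huv)
      · rw [hin w hc.symm] at key
        obtain ⟨q, hq⟩ := key
        exact hq (h4 u v w huv hvw q)
      · rintro (_ | a) (_ | b) hb hab ha
        · exact ha
        · rw [hsS b ((hn b).1 hab)]
          exact ha
        · rw [hsS a ((hn a).1 hab.symm)] at ha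
          exact ha
        · have hab' := (hadj a b).1 hab
          by_cases h : H.connectedComponentMk a = H.connectedComponentMk v
          · rw [hin a h] at ha
            rw [hin b ((hcc hab').symm.trans h)]
            obtain ⟨q, hq⟩ := ha
            refine ⟨q.concat hab', ?_⟩
            rw [SimpleGraph.Walk.support_concat, List.mem_append,
              List.mem_singleton]
            rintro (h' | rfl)
            exacts [hq h', hb rfl]
          · rw [hout a h] at ha
            rw [hout b fun h' => h ((hcc hab').trans h')]
            exact ha
  · rintro (_ | y)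
    · exact SimpleGraph.Reachable.refl _
    · have h : H.Reachable (sg (H.connectedComponentMk y)) y :=
        SimpleGraph.ConnectedComponent.exact (hsg _)
      exact ((hn _).2 ⟨_, rfl⟩).reachable.trans (h.map e.toHom)

end Pool.Agent.MP_da1f04_co.I91
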