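import Pool.Agent.MP_da1f04_co.I91.Spec

/-! A rooted laminar graph has a scheme of branches and pieces. -/

set_option autoImplicit false

namespace Pool.Agent.MP_da1f04_co.I91

open Set Function Relation

namespace SchemeP

variable {Y : Type} (H : SimpleGraph Y) (O : Y → Y → Prop)

/-- Joined by a walk that avoids `p`. -/
def R (p u v : Y) : Prop := u ≠ p ∧ ReflTransGen (fun a b => H.Adj a b ∧ b ≠ p) u v

/-- Neighbour in the direction `d`. -/
def Dir (d : Bool) (p v : Y) : Prop := cond d (O p v) (O v p)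

/-- The branch at `p` in the direction `d`. -/
def Br (p : Y) (d : Bool) : Set Y := {u | ∃ v, Dir O d p v ∧ R H p v u}

variable {H O} {p u v w ρ₀ : Y} {d : Bool}

theorem R.refl (h : u ≠ p) : R H p u u := ⟨h, .refl⟩

theorem R.ne (h : R H p u v) : v ≠ p := by
  obtain ⟨h1, h2⟩ := h
  induction h2 with
  | refl => exact h1
  | tail _ k _ => exact k.2

theorem R.tail (h : R H p u v) (a : H.Adj v w) (n : w ≠ p) : R H p u w := ⟨h.1, h.2.tail ⟨a, n⟩⟩

theorem R.trans (h : R H p u v) (k : R H p v w) : R H p u w := ⟨h.1, h.2.trans k.2⟩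

theorem R.symm (h : R H p u v) : R H p v u := by
  obtain ⟨h1, h2⟩ := h
  induction h2 with
  | refl => exact .refl h1
  | tail j k ih => exact ((R.refl k.2).tail k.1.symm (R.ne ⟨h1, j⟩)).trans ih

theorem R.walk (h : R H p u v) : ∃ q : H.Walk u v, p ∉ q.support := by
  obtain ⟨h1, h2⟩ := h
  induction h2 with
  | refl => exact ⟨.nil, by simpa using h1.symm⟩
  | tail _ k ih =>
    obtain ⟨q, hq⟩ := ih
    exact ⟨q.concat k.1, by simpa [hq] using k.2.symm⟩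

theorem Br.tail (h : u ∈ Br H O p d) (a : H.Adj u w) (n : w ≠ p) : w ∈ Br H O p d :=
  h.imp fun _ k => ⟨k.1, k.2.tail a n⟩

theorem Br.self : p ∉ Br H O p d := fun ⟨_, _, k⟩ => k.ne rfl

theorem key (h : Rooted H O ρ₀) (a : O u v) (b : O v w) : ¬ R H v u w := fun k =>
  k.walk.elim fun q hq => hq (h.2.2.2.1 u v w a b q)

theorem key' (h : Rooted H O ρ₀) (a : Dir O d p v) (b : Dir O (!d) p w) : ¬ R H p v w := by
  cases d
  · exact key h a b
  · exact fun k => key h b a k.symm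

theorem adj_of (h : Rooted H O ρ₀) (a : O u v) : H.Adj u v := (h.1 u v).2 (Or.inl a)

theorem Dir.adj (h : Rooted H O ρ₀) (a : Dir O d p v) : H.Adj p v := by
  cases d
  · exact (adj_of h a).symm
  · exact adj_of h a

theorem dir_or (h : Rooted H O ρ₀) (a : H.Adj p v) (d : Bool) : Dir O d p v ∨ Dir O (!d) p v := by
  cases d
  · exact ((h.1 p v).1 a).symm
  · exact (h.1 p v).1 a

section
variable {P : Set Y} {e : Y → Bool} (h : Rooted H O ρ₀)
  (hJ : ∀ p ∈ P, ∀ p' ∈ P, p ≠ p' → ∃ v, Dir O (!e p) p v ∧ R H p p' v)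
include h hJ

theorem far {p' : Y} (hp : p ∈ P) (hp' : p' ∈ P) (hu : u ∈ Br H O p (e p)) : ¬ R H p u p' := by
  intro k
  obtain ⟨v, a, r⟩ := hu
  obtain ⟨w, b, s⟩ := hJ p hp p' hp' k.ne.symm
  exact key' h a b ((r.trans k).trans s)

theorem out {p' : Y} (hp : p ∈ P) (hp' : p' ∈ P) (hu : u ∈ Br H O p (e p)) : u ≠ p' := by
  rintro rfl
  exact far h hJ hp hp' hu (.refl fun k => Br.self (k ▸ hu))

theorem near {p' : Y} (hp : p ∈ P) (hp' : p' ∈ P) (n : p ≠ p') (hu : u ∈ Br H O p' (e p')) :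
    R H p p' u := by
  obtain ⟨v, a, r1, r2⟩ := hu
  induction r2 with
  | refl => exact (R.refl n.symm).tail (a.adj h) (out h hJ hp' hp ⟨v, a, .refl r1⟩)
  | tail j k ih => exact ih.tail k.1 (out h hJ hp' hp ⟨v, a, r1, j.tail k⟩)

end

theorem mk [Finite Y] (h : Rooted H O ρ₀) {A B : Set Y} {e : Y → Bool} {ρ : Y}
    (eA : ∀ a ∈ A, e a = true) (eB : ∀ b ∈ B, e b = false)
    (hJ : ∀ p ∈ A ∪ B, ∀ p' ∈ A ∪ B, p ≠ p' → ∃ v, Dir O (!e p) p v ∧ R H p p' v)
    (hc : ∀ p ∈ A ∪ B, ∀ v, Dir O (!e p) p v → v ∈ A ∪ B)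
    (sA : ∀ a ∈ A, ∀ a' ∈ A, ¬ H.Adj a a') (sB : ∀ b ∈ B, ∀ b' ∈ B, ¬ H.Adj b b')
    (ne : ∀ a ∈ A, ∀ a' ∈ A, (∀ b ∈ B, H.Adj a b → H.Adj a' b) ∨
      (∀ b ∈ B, H.Adj a' b → H.Adj a b) ∨ ∀ b ∈ B, H.Adj a b → ¬ H.Adj a' b)
    (hρ : ρ ∈ cond d B A) :
    ∃ (A B : Set Y) (sub : Y → Set Y), Piece H A B sub ρ (Br H O ρ d) ∧
      (d = true → ρ ∈ B) ∧ (d = false → ρ ∈ A) ∧ (∀ a ∈ A, sub a = Br H O a true) ∧
      (∀ b ∈ B, sub b = Br H O b false) ∧
      ∀ p ∈ A ∪ B, p ≠ ρ → (sub p).ncard < (Br H O ρ d).ncard := by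
  have r : ρ ∈ A ∪ B ∧ d = !e ρ := by
    cases d
    · exact ⟨Or.inl hρ, by rw [eA ρ hρ]; rfl⟩
    · exact ⟨Or.inr hρ, by rw [eB ρ hρ]; rfl⟩
  refine ⟨A, B, fun p => Br H O p (e p), ⟨fun a ha hb => ?_, r.1, Br.self, ?_, ?_,
    fun _ _ => Br.self, sA, sB, ne⟩, ?_, ?_, fun a ha => ?_, fun b hb => ?_, fun p hp n => ?_⟩
  · exact absurd ((eA a ha).symm.trans (eB a hb)) (by decide)
  · rintro u ⟨v, a, r1, r2⟩
    induction r2 with
    | refl => exact ⟨v, hc ρ r.1 v (r.2 ▸ a), r1, Or.inl rfl⟩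
    | @tail x y _ k ih =>
      by_cases hy : y ∈ A ∪ B
      · exact ⟨y, hy, k.2, Or.inl rfl⟩
      obtain ⟨p, hp, n, rfl | hx⟩ := ih
      · exact ⟨x, hp, n, Or.inr ⟨y, (dir_or h k.1 _).resolve_right fun j => hy (hc x hp y j),
          .refl k.1.ne'⟩⟩
      · exact ⟨p, hp, n, Or.inr (Br.tail hx k.1 fun j => hy (j ▸ hp))⟩
  · intro p hp p' hp' n u hu u' hu'
    have k : R H p p' u' := hu'.elim (fun j => by rw [j]; exact .refl n.symm) (near h hJ hp hp' n)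
    exact ⟨fun j => far h hJ hp hp' hu (j ▸ k.symm), fun j => far h hJ hp hp' hu
      (((R.refl (out h hJ hp hp hu)).tail j k.ne).trans k.symm)⟩
  · rintro rfl
    exact hρ
  · rintro rfl
    exact hρ
  · simp only [eA a ha]
  · simp only [eB b hb]
  · obtain ⟨v, a, s⟩ := hJ ρ r.1 p hp n.symm
    rw [← r.2] at a
    exact ncard_lt_ncard ⟨fun u hu => ⟨v, a, s.symm.trans (near h hJ r.1 hp n.symm hu)⟩,
      fun j => Br.self (j ⟨v, a, s.symm⟩)⟩ (toFinite _)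

open Classical in
theorem core [Finite Y] (h : Rooted H O ρ₀) {c ρ : Y}
    (hm : ∀ a b b', O b c → O b a → O b' a → O b' c)
    (hρ : ρ ∈ cond d {b | O b c} {a | ∃ b, O b c ∧ O b a}) :
    ∃ (A B : Set Y) (sub : Y → Set Y), Piece H A B sub ρ (Br H O ρ d) ∧
      (d = true → ρ ∈ B) ∧ (d = false → ρ ∈ A) ∧ (∀ a ∈ A, sub a = Br H O a true) ∧
      (∀ b ∈ B, sub b = Br H O b false) ∧
      ∀ p ∈ A ∪ B, p ≠ ρ → (sub p).ncard < (Br H O ρ d).ncard := by
  have dj : ∀ {a b}, O b c → O b a → ¬ O a c := fun hb ha k =>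
    key h ha k ((R.refl (adj_of h ha).ne).tail (adj_of h hb) (adj_of h k).ne')
  have eA : ∀ a ∈ {a | ∃ b, O b c ∧ O b a}, decide (¬ O a c) = true := fun a ⟨_, hb, ha⟩ =>
    decide_eq_true (dj hb ha)
  have eB : ∀ b ∈ {b | O b c}, decide (¬ O b c) = false := fun b hb => decide_eq_false (· hb)
  have ab : ∀ {a b b'}, O b' c → O b' a → O b c → H.Adj a b → O b a := by
    intro a b b' h1 h2 h3 k
    refine ((h.1 a b).1 k).resolve_left fun j => ?_
    have n : b' ≠ b := fun i => h.2.1 a b j (i ▸ h2)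
    exact key h j h3 (((R.refl k.ne).tail (adj_of h h2).symm n).tail (adj_of h h1)
      (adj_of h h3).ne')
  have j1 : ∀ {a b b'}, O b c → O b a → O b' c → ∃ v, O v a ∧ R H a b' v := by
    intro a b b' h1 h2 h3
    have n : b' ≠ a := fun i => dj h1 h2 (i ▸ h3)
    by_cases i : c = a
    · exact ⟨b', i ▸ h3, .refl n⟩
    · exact ⟨b, h2, ((R.refl n).tail (adj_of h h3) i).tail (adj_of h h1).symm (adj_of h h2).ne⟩
  refine mk h eA eB ?_ ?_ ?_ ?_ ?_ hρ
  · rintro p (hp | hp) p' hp' n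
    · rw [eA p hp]
      obtain ⟨b, h1, h2⟩ := hp
      rcases hp' with ⟨b', h3, h4⟩ | h3
      · obtain ⟨v, a, s⟩ := j1 h1 h2 h3
        exact ⟨v, a, ((R.refl n.symm).tail (adj_of h h4).symm s.1).trans s⟩
      · exact j1 h1 h2 h3
    · rw [eB p hp]
      rcases hp' with ⟨b', h3, h4⟩ | h3
      · by_cases i : b' = p
        · exact ⟨p', show O p p' from i ▸ h4, .refl n.symm⟩
        · exact ⟨c, hp, ((R.refl n.symm).tail (adj_of h h4).symm i).tail (adj_of h h3)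
            (adj_of h hp).ne'⟩
      · exact ⟨c, hp, (R.refl n.symm).tail (adj_of h h3) (adj_of h hp).ne'⟩
  · rintro p (hp | hp) v
    · rw [eA p hp]
      obtain ⟨b, h1, h2⟩ := hp
      exact fun k => Or.inr (hm p b v h1 h2 k)
    · rw [eB p hp]
      exact fun k => Or.inl ⟨p, hp, k⟩
  · rintro a ⟨b, h1, h2⟩ a' ⟨b', h3, h4⟩ k
    exact ((h.1 a a').1 k).elim (fun j => dj h1 h2 (hm a' b' a h3 h4 j))
      fun j => dj h3 h4 (hm a b a' h1 h2 j)
  · intro b hb b' hb' k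
    exact ((h.1 b b').1 k).elim (fun j => dj hb j hb') fun j => dj hb' j hb
  · rintro a ⟨b, h1, h2⟩ a' ⟨b', h3, h4⟩
    refine (h.2.2.1 a a').imp (fun k x hx j => ?_) (Or.imp (fun k x hx j => ?_) fun k x hx j i => ?_)
    · exact (adj_of h (k x (ab h1 h2 hx j))).symm
    · exact (adj_of h (k x (ab h3 h4 hx j))).symm
    · exact k x (ab h1 h2 hx j) (ab h3 h4 hx i)

theorem top [Finite Y] (h : Rooted H O ρ₀) (a₀ : Y) : ∃ c, (∀ b, O b a₀ → O b c) ∧
    ∀ a b b', O b c → O b a → O b' a → O b' c := by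
  obtain ⟨c, hc, hm⟩ := exists_max_image {c | ∀ b, O b a₀ → O b c} (fun c => {b | O b c}.ncard)
    (toFinite _) ⟨a₀, fun _ => id⟩
  refine ⟨c, hc, fun a b b' h1 h2 h3 => ?_⟩
  rcases h.2.2.1 a c with k | k | k
  · exact k b' h3
  · have := eq_of_subset_of_ncard_le (s := {b | O b c}) (t := {b | O b a}) k
      (hm a fun x hx => k x (hc x hx)) (toFinite _)
    exact (Set.ext_iff.1 this b').2 h3
  · exact absurd h1 (k b h2)

end SchemeP

open SchemeP in
theorem scheme : SchemeSt := by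
  intro Y _ H O ρ₀ h
  refine ⟨Br H O, fun ρ d => ?_, fun u hu => ?_⟩
  · by_cases k : ∃ v, Dir O d ρ v
    · obtain ⟨v, k⟩ := k
      cases d
      · obtain ⟨c, h1, h2⟩ := top h ρ
        exact core h h2 ⟨v, h1 v k, k⟩
      · obtain ⟨c, h1, h2⟩ := top h v
        exact core h h2 (h1 ρ k)
    · cases d
      · refine mk h (A := {ρ}) (B := ∅) (e := fun _ => true) (fun _ _ => rfl) (by simp) (by simp)
          ?_ (by simp) (by simp) (by simp) rfl
        rintro p (rfl | ⟨⟨⟩⟩) v j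
        exact absurd ⟨v, j⟩ k
      · refine mk h (A := ∅) (B := {ρ}) (e := fun _ => false) (by simp) (fun _ _ => rfl) (by simp)
          ?_ (by simp) (by simp) (by simp) rfl
        rintro p (⟨⟨⟩⟩ | rfl) v j
        exact absurd ⟨v, j⟩ k
  · have k := (SimpleGraph.reachable_iff_reflTransGen _ _).1 (h.2.2.2.2.2 u)
    induction k with
    | refl => exact absurd rfl hu
    | @tail x y _ j ih =>
      by_cases i : x = ρ₀
      · exact ⟨y, ((h.1 ρ₀ y).1 (i ▸ j)).resolve_right (h.2.2.2.2.1 y), .refl hu⟩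
      · exact Br.tail (ih i) j hu

end Pool.Agent.MP_da1f04_co.I91
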