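import Pool.Agent.MP_da1f04_co.I91.Tools

/-! All marked edges that are not shadowed are killed by a bounded colouring. -/

set_option autoImplicit false

namespace Pool.Agent.MP_da1f04_co.I91

open Set Function

namespace Step

theorem last {p : ℕ → Prop} (h0 : p 0) {D : ℕ} (h : ¬ p D) : ∃ j : Fin D, p j ∧ ¬ p (j + 1) := by
  induction D with
  | zero => exact absurd h0 h
  | succ D ih =>
    by_cases k : p D
    · exact ⟨Fin.last D, k, h⟩
    · obtain ⟨j, hj⟩ := ih k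
      exact ⟨j.castSucc, hj⟩

variable {V : Type} [Finite V] {G : SimpleGraph V} {lam : V → Nd} {k g : ℕ}

theorem rich (h1 : ChainSt) (M : Model G lam k g) (E : Nd → V → Set V → Prop) (j : ℕ) :
    Kill (fun c x => ∃ t, out G lam c x t ∧ E t x (past G lam c (t ++ [true])) ∧
      Rk lam E j (t ++ [true]) (past G lam c (t ++ [true])) ∧
      ¬ Rk lam E (j + 1) (t ++ [true]) (past G lam c (t ++ [true])))
      ((2 * k + 1) * (2 * (k * (g + 1)) + 1)) := by
  let P : Nd → Set V → Prop := fun s τ => τ.Nonempty ∧ ¬ Rk lam E (j + 1) s τ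
  refine ((M.special P).or (h1 V G lam k g M P (fun c x t => (out G lam c x t ∧
    fsn G lam P c <+: t ∧ P (fsn G lam P c) (past G lam c (fsn G lam P c))) ∧
    E t x (past G lam c (t ++ [true])) ∧ Rk lam E j (t ++ [true]) (past G lam c (t ++ [true])))
    (fun _ _ h => h.1) (fun _ _ _ h => h.1) ?_)).imp ?_
  · rintro c x t c' x' t' ⟨⟨-, a1, a2⟩, a3, a4⟩ ⟨⟨-, b1, -⟩, b3, b4⟩ e hi
    have e1 : fsn G lam P c = fsn G lam P c' := congrArg Prod.fst e
    have e2 : past G lam c (fsn G lam P c) = past G lam c' (fsn G lam P c') := congrArg Prod.snd e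
    refine a2.2 ⟨t, x, _, t', x', _, a3, b3, below_past a1, ?_, hi, a4, b4⟩
    rw [e2, e1]
    exact below_past b1
  · rintro c x ⟨t, h, a1, a2, a3⟩
    obtain ⟨b1, b2⟩ := fsn_min (P := P) h.2.1 ⟨⟨x, h.mem⟩, a3⟩
    exact (pre_app_cases b1).imp (fun e => ⟨t, h, e⟩) fun e => ⟨t, ⟨h, e, b2⟩, a1, a2⟩

theorem poor (h2 : UnSt) (M : Model G lam k g) {ι : Type} (cls : Nd × Set V → V → ι) (κ : ι)
    (K : ℕ) (e : V → Nd → Prop) :
    Kill (fun c x => ∃ t, out G lam c x t ∧ e c t ∧ ¬ Shad G lam cls e K c x t ∧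
      cls (zone G lam c) x = κ ∧
      ¬ Rich G lam cls κ K (t ++ [true]) (past G lam c (t ++ [true])))
      ((2 * k + 1) * ((2 * (K * g) + 1) * 2)) := by
  let P : Nd → Set V → Prop := fun s τ => τ.Nonempty ∧ ¬ Rich G lam cls κ K s τ
  refine ((M.special P).or (h2 V G lam k g M ι cls κ K e P fun _ _ => Iff.rfl)).imp ?_
  rintro c x ⟨t, h, a1, a2, rfl, a3⟩
  obtain ⟨b1, b2⟩ := fsn_min (P := P) h.2.1 ⟨⟨x, h.mem⟩, a3⟩
  exact (pre_app_cases b1).imp (fun i => ⟨t, h, i⟩) fun i => ⟨t, h, a1, rfl, i, b2, fun j =>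
    a2 ⟨b2.1.mono (past_mono i), fun r => b2.2 (r.up i), j⟩⟩

end Step

theorem stepSt (h1 : ChainSt) (h2 : UnSt) : StepSt := by
  intro ι _ k g K D
  refine ⟨_, fun V _ G lam M cls hN e => ((Kill.exists fun i : ι × Fin D =>
    Step.rich h1 M (Ev G lam cls i.1 K) i.2).or
    (Kill.exists fun κ : ι => Step.poor h2 M cls κ K e)).imp ?_⟩
  rintro c x ⟨t, h, a1, a2⟩
  by_cases r : Rich G lam cls (cls (zone G lam c) x) K (t ++ [true]) (past G lam c (t ++ [true]))
  · obtain ⟨j, b1, b2⟩ := Step.last (p := fun j => Rk lam (Ev G lam cls (cls (zone G lam c) x) K) j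
      (t ++ [true]) (past G lam c (t ++ [true]))) trivial (hN _ c _ h.2.1 ⟨x, h.mem⟩)
    exact Or.inl ⟨(_, j), t, h, ⟨c, h, rfl, rfl, r⟩, b1, b2⟩
  · exact Or.inr ⟨_, t, h, a1, a2, rfl, r⟩

end Pool.Agent.MP_da1f04_co.I91
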