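import Pool.Agent.MP_da1f04_co.I91.Spec
import Pool.Agent.MP_da1f04_co.G91Out

/-! Tools: colourings, nodes, first states. -/

set_option autoImplicit false

namespace Pool.Agent.MP_da1f04_co.I91

open Set Function

section kill

variable {V : Type} {R R' : V → V → Prop} {n m : ℕ}

theorem Kill.of_card {α : Type} [Finite α] (φ : V → α) (h : ∀ u v, R u v → φ u ≠ φ v)
    (hn : Nat.card α ≤ n) : Kill R n :=
  ⟨fun v => Fin.castLE hn (Finite.equivFin α (φ v)), fun u v hr e =>
    h u v hr ((Finite.equivFin α).injective (Fin.castLE_injective hn e))⟩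

theorem Kill.le (h : Kill R n) (hn : n ≤ m) : Kill R m := by
  obtain ⟨φ, hφ⟩ := h
  exact .of_card φ hφ (by simpa using hn)

theorem Kill.imp (h : Kill R n) (hR : ∀ u v, R' u v → R u v) : Kill R' n :=
  h.elim fun φ hφ => ⟨φ, fun u v h => hφ u v (hR u v h)⟩

theorem Kill.symm' (h : Kill R n) : Kill (fun u v => R u v ∨ R v u) n :=
  h.elim fun φ hφ => ⟨φ, fun u v h => h.elim (hφ u v) fun h => (hφ v u h).symm⟩

theorem Kill.or (h : Kill R n) (h' : Kill R' m) : Kill (fun u v => R u v ∨ R' u v) (n * m) := by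
  obtain ⟨φ, hφ⟩ := h
  obtain ⟨ψ, hψ⟩ := h'
  exact .of_card (fun v => (φ v, ψ v)) (fun u v h e => h.elim
    (fun h => hφ u v h (congrArg Prod.fst e)) fun h => hψ u v h (congrArg Prod.snd e)) (by simp)

theorem Kill.exists {ι : Type} [Finite ι] {Q : ι → V → V → Prop} (h : ∀ i, Kill (Q i) n) :
    Kill (fun u v => ∃ i, Q i u v) (n ^ Nat.card ι) := by
  choose φ hφ using h
  exact .of_card (fun v i => φ i v) (fun u v ⟨i, h⟩ e => hφ i u v h (congrFun e i))
    (by simp [Nat.card_fun])

theorem Kill.comap {W : Type} {Q : W → W → Prop} (h : Kill Q n) (f : V → W)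
    (hf : ∀ u v, R u v → Q (f u) (f v)) : Kill R n :=
  h.elim fun φ hφ => ⟨fun v => φ (f v), fun u v h => hφ _ _ (hf u v h)⟩

/-- Colourings of the classes of a partition combine. -/
theorem Kill.parts {α : Type} (φ : V → α)
    (h : ∀ a, Kill (fun u v : {v // φ v = a} => R u v) n) :
    Kill (fun u v => R u v ∧ φ u = φ v) n := by
  choose ψ hψ using h
  refine ⟨fun v => ψ (φ v) ⟨v, rfl⟩, fun u v ⟨h, e⟩ => ?_⟩
  have key : ∀ (a : α) (hv : φ v = a), ψ a ⟨v, hv⟩ = ψ (φ v) ⟨v, rfl⟩ := by
    rintro _ rfl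
    rfl
  intro e'
  exact hψ (φ u) ⟨u, rfl⟩ ⟨v, e.symm⟩ h (e'.trans (key _ e.symm).symm)

/-- A colouring can be refined inside its classes. -/
theorem Kill.refine (φ : V → Fin n) (h : ∀ a, Kill (fun u v : {v // φ v = a} => R u v) m) :
    Kill R (n * m) :=
  (Kill.or (R := fun u v => φ u ≠ φ v) ⟨φ, fun _ _ h => h⟩ (Kill.parts φ h)).imp fun u v h =>
    (em (φ u = φ v)).elim (fun e => Or.inr ⟨h, e⟩) Or.inl

theorem Kill.colorable {G : SimpleGraph V} (h : Kill G.Adj n) : G.Colorable n :=
  h.elim fun φ hφ => ⟨SimpleGraph.Coloring.mk φ fun {u v} h => hφ u v h⟩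

theorem kill_of_colorable {G : SimpleGraph V} (h : G.Colorable n) : Kill G.Adj n :=
  h.elim fun φ => ⟨φ, fun _ _ h => φ.valid h⟩

theorem deg_aux {Q : Type} (E : Q → Q → Prop) (C : ℕ) (S : Finset Q)
    (h : ∀ T : Set Q, T ⊆ S → {p : Q × Q | p.1 ∈ T ∧ p.2 ∈ T ∧ E p.1 p.2}.ncard ≤ C * T.ncard) :
    ∃ φ : Q → Fin (2 * C + 1), ∀ a ∈ S, ∀ b ∈ S, a ≠ b → E a b → φ a ≠ φ b := by
  classical
  induction S using Finset.strongInduction with | H S ih
  rcases S.eq_empty_or_nonempty with rfl | hS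
  · exact ⟨fun _ => 0, by simp⟩
  let P : Finset (Q × Q) := (S ×ˢ S).filter fun p => E p.1 p.2
  have hP : P.card ≤ C * S.card := by
    have := h S subset_rfl
    rw [ncard_coe_finset] at this
    refine le_trans (le_of_eq ?_) this
    rw [← ncard_coe_finset]
    congr 1
    ext p
    simp [P, and_assoc]
  have h1 : ∑ a ∈ S, (P.filter fun p => p.1 = a).card = P.card :=
    (Finset.card_eq_sum_card_fiberwise fun p hp =>
      (Finset.mem_product.1 (Finset.mem_filter.1 hp).1).1).symm
  have h2 : ∑ a ∈ S, (P.filter fun p => p.2 = a).card = P.card :=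
    (Finset.card_eq_sum_card_fiberwise fun p hp =>
      (Finset.mem_product.1 (Finset.mem_filter.1 hp).1).2).symm
  obtain ⟨a, ha, hd⟩ : ∃ a ∈ S, (P.filter fun p => p.1 = a).card +
      (P.filter fun p => p.2 = a).card ≤ 2 * C := by
    refine Finset.exists_le_of_sum_le hS ?_
    rw [Finset.sum_add_distrib, h1, h2, Finset.sum_const, smul_eq_mul]
    nlinarith
  obtain ⟨φ, hφ⟩ := ih _ (Finset.erase_ssubset ha) fun T hT =>
    h T (hT.trans (by simp))
  let F : Finset (Fin (2 * C + 1)) := ((P.filter fun p => p.1 = a).image fun p => φ p.2) ∪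
    ((P.filter fun p => p.2 = a).image fun p => φ p.1)
  have hF : F.card < (Finset.univ : Finset (Fin (2 * C + 1))).card := by
    have : F.card ≤ _ := (Finset.card_union_le _ _).trans
      (add_le_add Finset.card_image_le Finset.card_image_le)
    simp only [Finset.card_univ, Fintype.card_fin]
    omega
  obtain ⟨c, -, hc⟩ := Finset.exists_mem_notMem_of_card_lt_card hF
  refine ⟨update φ a c, fun x hx y hy hne he => ?_⟩
  have hp : (x, y) ∈ P := Finset.mem_filter.2 ⟨Finset.mem_product.2 ⟨hx, hy⟩, he⟩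
  by_cases e : x = a
  · subst e
    rw [update_self, update_of_ne hne.symm]
    rintro rfl
    exact hc (Finset.mem_union_left _ (Finset.mem_image.2
      ⟨(x, y), Finset.mem_filter.2 ⟨hp, rfl⟩, rfl⟩))
  · by_cases e' : y = a
    · subst e'
      rw [update_self, update_of_ne hne]
      rintro rfl
      exact hc (Finset.mem_union_right _ (Finset.mem_image.2
        ⟨(x, y), Finset.mem_filter.2 ⟨hp, rfl⟩, rfl⟩))
    · rw [update_of_ne e, update_of_ne e']
      exact hφ x (Finset.mem_erase.2 ⟨e, hx⟩) y (Finset.mem_erase.2 ⟨e', hy⟩) hne he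

/-- Clusters with few related pairs in every finite set. -/
theorem Kill.deg [Finite V] {Q : Type} (q : V → Q) (C : ℕ) (hne : ∀ u v, R u v → q u ≠ q v)
    (h : ∀ T : Set Q, T.Finite → {p : Q × Q | p.1 ∈ T ∧ p.2 ∈ T ∧
      ∃ u v, R u v ∧ q u = p.1 ∧ q v = p.2}.ncard ≤ C * T.ncard) : Kill R (2 * C + 1) := by
  obtain ⟨φ, hφ⟩ := deg_aux (fun a b => ∃ u v, R u v ∧ q u = a ∧ q v = b) C
    (finite_range q).toFinset fun T hT => h T ((Finset.finite_toSet _).subset hT)
  exact ⟨fun v => φ (q v), fun u v hr => hφ _ (by simp) _ (by simp) (hne u v hr)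
    ⟨u, v, hr, rfl, rfl⟩⟩

/-- A set whose fibres over a finite set are small is small. -/
theorem ncard_fib {α β : Type} {S : Set α} {T : Set β} (hT : T.Finite) (f : α → β) (C : ℕ)
    (hf : ∀ a ∈ S, f a ∈ T) (hS : S.Finite) (h : ∀ b ∈ T, {a | a ∈ S ∧ f a = b}.ncard ≤ C) :
    S.ncard ≤ C * T.ncard := by
  classical
  rw [ncard_eq_toFinset_card S hS, ncard_eq_toFinset_card T hT]
  refine Finset.card_le_mul_card_image_of_maps_to (f := f) (fun a ha => ?_) C fun b hb => ?_
  · simpa using hf a (by simpa using ha)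
  · refine le_trans (le_of_eq ?_) (h b (by simpa using hb))
    rw [← ncard_coe_finset]
    congr 1
    ext a
    simp

/-- Clusters with few out-neighbours. -/
theorem Kill.outdeg [Finite V] {Q : Type} (q : V → Q) (C : ℕ) (hne : ∀ u v, R u v → q u ≠ q v)
    (h : ∀ a, (q '' {v | ∃ u, R u v ∧ q u = a}).ncard ≤ C) : Kill R (2 * C + 1) := by
  refine Kill.deg q C hne fun T hT => ncard_fib hT Prod.fst C (fun p hp => hp.1)
    ((hT.prod hT).subset fun p hp => ⟨hp.1, hp.2.1⟩) fun a _ => le_trans ?_ (h a)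
  refine ncard_le_ncard_of_injOn Prod.snd ?_ ?_ (toFinite _)
  · rintro ⟨b, c⟩ ⟨⟨-, -, u, v, h1, h2, h3⟩, h4⟩
    exact ⟨v, ⟨u, h1, h2.trans h4⟩, h3⟩
  · exact fun p hp p' hp' e => Prod.ext (hp.2.trans hp'.2.symm) e

/-- Clusters with few in-neighbours. -/
theorem Kill.indeg [Finite V] {Q : Type} (q : V → Q) (C : ℕ) (hne : ∀ u v, R u v → q u ≠ q v)
    (h : ∀ a, (q '' {u | ∃ v, R u v ∧ q v = a}).ncard ≤ C) : Kill R (2 * C + 1) :=
  (Kill.outdeg (R := fun u v => R v u) q C (fun u v h => (hne v u h).symm) h).symm'.imp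
    fun _ _ h => Or.inr h

end kill

section nodes

theorem pre_app (t : Nd) (b : Bool) : t <+: t ++ [b] := List.prefix_append _ _

theorem pre_total {s t p : Nd} (h : s <+: p) (h' : t <+: p) : s <+: t ∨ t <+: s :=
  List.prefix_or_prefix_of_prefix h h'

theorem pre_antisymm {s t : Nd} (h : s <+: t) (h' : t <+: s) : s = t :=
  h.eq_of_length (le_antisymm h.length_le h'.length_le)

theorem pre_of_len {s t p : Nd} (h : s <+: p) (h' : t <+: p) (hl : s.length ≤ t.length) :
    s <+: t := List.prefix_of_prefix_length_le h h' hl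

theorem not_both {t p : Nd} (h : t ++ [true] <+: p) (h' : t ++ [false] <+: p) : False := by
  have := (pre_of_len h h' (by simp)).eq_of_length (by simp)
  simp at this

theorem not_app_pre {t : Nd} {b : Bool} (h : t ++ [b] <+: t) : False := by
  have := h.length_le
  simp at this

theorem pre_app_cases {s t : Nd} {b : Bool} (h : s <+: t ++ [b]) : s = t ++ [b] ∨ s <+: t :=
  List.prefix_concat_iff.1 h

/-- Above or strictly below a node on the same path. -/
theorem pre_or_app {s t p : Nd} {b : Bool} (h : s <+: p) (h' : t ++ [b] <+: p) :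
    s <+: t ∨ t ++ [b] <+: s := by
  rcases pre_total h h' with h1 | h1
  · exact (pre_app_cases h1).elim (fun e => Or.inr (e ▸ List.prefix_rfl)) Or.inl
  · exact Or.inr h1

theorem pre_step {s t : Nd} (h : s <+: t) (hne : s ≠ t) : ∃ b, s ++ [b] <+: t := by
  obtain ⟨r, rfl⟩ := h
  cases r with
  | nil => simp at hne
  | cons b r => exact ⟨b, r, by simp⟩

/-- The node at which two paths separate is unique. -/
theorem meet_unique {t t' p p' : Nd} (h1 : t ++ [false] <+: p) (h2 : t ++ [true] <+: p')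
    (h3 : t' ++ [false] <+: p) (h4 : t' ++ [true] <+: p') : t = t' := by
  rcases pre_or_app ((pre_app t false).trans h1) h3 with a | a
  · rcases pre_or_app ((pre_app t' false).trans h3) h1 with b | b
    · exact pre_antisymm a b
    · exact (not_both h2 (b.trans ((pre_app t' true).trans h4))).elim
  · exact (not_both h4 (a.trans ((pre_app t true).trans h2))).elim

/-- Paths through incomparable nodes separate above these nodes. -/
theorem meet_inc {m p p' s s' : Nd} (hi : Inc s s') (h1 : s <+: p) (h2 : s' <+: p')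
    (h3 : m ++ [false] <+: p) (h4 : m ++ [true] <+: p') :
    m ++ [false] <+: s ∧ m ++ [true] <+: s' := by
  have e : ∀ {a b : Nd}, a <+: m → b <+: m → a <+: b ∨ b <+: a := fun h h' => pre_total h h'
  rcases pre_or_app h1 h3 with a | a <;> rcases pre_or_app h2 h4 with b | b
  · exact ((e a b).elim hi.1 hi.2).elim
  · exact (hi.1 (a.trans ((pre_app m true).trans b))).elim
  · exact (hi.2 (b.trans ((pre_app m false).trans a))).elim
  · exact ⟨a, b⟩

theorem exists_meet {p p' : Nd} (h : Inc p p') : ∃ t,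
    (t ++ [true] <+: p ∧ t ++ [false] <+: p') ∨ (t ++ [true] <+: p' ∧ t ++ [false] <+: p) := by
  induction p generalizing p' with
  | nil => exact (h.1 List.nil_prefix).elim
  | cons a p ih =>
    cases p' with
    | nil => exact (h.2 List.nil_prefix).elim
    | cons b p' =>
      by_cases e : a = b
      · subst e
        obtain ⟨t, ht⟩ := ih (p' := p') ⟨fun h' => h.1 (List.cons_prefix_cons.2 ⟨rfl, h'⟩),
          fun h' => h.2 (List.cons_prefix_cons.2 ⟨rfl, h'⟩)⟩
        exact ⟨a :: t, by simpa [List.cons_prefix_cons] using ht⟩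
      · refine ⟨[], ?_⟩
        cases a <;> cases b <;> simp_all [List.cons_prefix_cons]

/-- The nodes at which members of `P` separate. -/
def Meet (P : Set Nd) : Set Nd :=
  {t | ∃ p ∈ P, ∃ p' ∈ P, t ++ [false] <+: p ∧ t ++ [true] <+: p'}

theorem lt_of_meet {t p p' : Nd} (h : t ++ [false] <+: p) (h' : t ++ [true] <+: p') : p < p' := by
  obtain ⟨r, rfl⟩ := h
  obtain ⟨r', rfl⟩ := h'
  rw [List.append_assoc, List.append_assoc]
  exact List.Lex.append_left _ (List.Lex.rel (by decide)) t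

theorem meet_card {P : Set Nd} (hP : P.Finite) : (Meet P).Finite ∧ (Meet P).ncard ≤ P.ncard := by
  have h : ∀ t : Meet P, ∃ p ∈ P, t.1 ++ [true] <+: p ∧ ∀ p' ∈ P, t.1 ++ [true] <+: p' → p ≤ p' := by
    rintro ⟨t, -, -, p', h1, -, h2⟩
    obtain ⟨p, hp, hm⟩ := exists_min_image {p | p ∈ P ∧ t ++ [true] <+: p} id
      (hP.subset fun _ h => h.1) ⟨p', h1, h2⟩
    exact ⟨p, hp.1, hp.2, fun p' h h' => hm p' ⟨h, h'⟩⟩
  choose f f1 f2 f3 using h
  have key : ∀ a b : Meet P, f a = f b → ¬ a.1 ++ [true] <+: b.1 := by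
    intro a b e h
    obtain ⟨p, hp, -, -, h1, -⟩ := b.2
    exact absurd (f3 a p hp (h.trans ((pre_app _ _).trans h1))) (not_le.2 (e ▸ lt_of_meet h1 (f2 b)))
  have hi : Injective fun a : Meet P => (⟨f a, f1 a⟩ : P) := by
    intro a b e
    have e : f a = f b := congrArg Subtype.val e
    exact Subtype.ext (pre_antisymm
      ((pre_or_app ((pre_app _ _).trans (f2 a)) (e ▸ f2 b)).resolve_right (key b a e.symm))
      ((pre_or_app ((pre_app _ _).trans (f2 b)) (e ▸ f2 a)).resolve_right (key a b e)))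
  have := hP.to_subtype
  exact ⟨finite_coe_iff.1 (Finite.of_injective _ hi), Nat.card_le_card_of_injective _ hi⟩

end nodes

section states

variable {V : Type} {G : SimpleGraph V} {lam : V → Nd} {c c' x y : V} {s s' t t' : Nd}
  {P : Nd → Set V → Prop} {k g : ℕ}

theorem arr_mono (h : s <+: s') : arr lam s ⊆ arr lam s' := fun _ ⟨t, h1, h2⟩ => ⟨t, h1.trans h, h2⟩

theorem past_mono (h : s <+: s') : past G lam c s ⊆ past G lam c s' :=
  fun _ hy => ⟨hy.1, arr_mono h hy.2⟩

theorem past_restr (h : s <+: s') : past G lam c s = past G lam c s' ∩ arr lam s :=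
  Set.ext fun _ => ⟨fun hy => ⟨past_mono h hy, hy.2⟩, fun hy => ⟨hy.1.1, hy.2⟩⟩

theorem past_congr (h : s <+: s') (e : past G lam c s' = past G lam c' s') :
    past G lam c s = past G lam c' s := by rw [past_restr h, e, ← past_restr h]

theorem out.pre (h : out G lam c x t) : t <+: lam c := (pre_app _ _).trans h.2.1

theorem out.pre' (h : out G lam c x t) : t <+: lam x := (pre_app _ _).trans h.2.2

theorem out.mem (h : out G lam c x t) : x ∈ past G lam c (t ++ [true]) :=
  ⟨h.1, t, List.prefix_rfl, h.2.2⟩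

theorem out.uniq (h : out G lam c x t) (h' : out G lam c x t') : t = t' :=
  meet_unique h.2.2 h.2.1 h'.2.2 h'.2.1

theorem out.lam_ne (h : out G lam c x t) : lam c ≠ lam x := fun e => not_both h.2.1 (e ▸ h.2.2)

theorem mem_past (hs : s <+: lam c) :
    y ∈ past G lam c s ↔ ∃ t, t ++ [true] <+: s ∧ out G lam c y t :=
  ⟨fun ⟨h, t, h1, h2⟩ => ⟨t, h1, h, h1.trans hs, h2⟩, fun ⟨t, h1, h⟩ => ⟨h.1, t, h1, h.2.2⟩⟩

theorem mem_past_leaf : y ∈ past G lam c (lam c) ↔ Out G lam c y :=
  ⟨fun ⟨h, t, h1, h2⟩ => ⟨t, h, h1, h2⟩, fun ⟨t, h⟩ => ⟨h.1, t, h.2.1, h.2.2⟩⟩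

theorem below_past (h : s <+: t) : Below lam s (past G lam c s) t (past G lam c (t ++ [true])) :=
  ⟨h, past_restr (h.trans (pre_app _ _))⟩

theorem fsn_pre : fsn G lam P c <+: lam c := List.take_prefix _ _

theorem fsn_min (hs : s <+: lam c) (h : P s (past G lam c s)) :
    fsn G lam P c <+: s ∧ P (fsn G lam P c) (past G lam c (fsn G lam P c)) := by
  have e : (lam c).take s.length = s := (List.prefix_iff_eq_take.1 hs).symm
  have hm : s.length ∈ {n | P ((lam c).take n) (past G lam c ((lam c).take n)) ∨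
      (lam c).length ≤ n} := Or.inl (by rwa [e])
  have h1 : fsn G lam P c <+: s := pre_of_len fsn_pre hs
    ((List.length_take_le _ _).trans (Nat.sInf_le hm))
  refine ⟨h1, (Nat.sInf_mem ⟨_, hm⟩).elim id fun h2 => ?_⟩
  have h3 : fsn G lam P c = lam c := List.take_of_length_le h2
  rwa [pre_antisymm h1 (h3 ▸ hs)]

theorem fsn_spec : P (fsn G lam P c) (past G lam c (fsn G lam P c)) ∨ fsn G lam P c = lam c :=
  (Nat.sInf_mem (s := {n | P ((lam c).take n) (past G lam c ((lam c).take n)) ∨
    (lam c).length ≤ n}) ⟨_, Or.inr le_rfl⟩).imp id List.take_of_length_le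

theorem fs_congr (hs : s <+: lam c) (hs' : s <+: lam c') (e : past G lam c s = past G lam c' s)
    (h : P s (past G lam c s)) : fs G lam P c = fs G lam P c' := by
  obtain ⟨a1, a2⟩ := fsn_min hs h
  obtain ⟨b1, b2⟩ := fsn_min hs' (e ▸ h)
  have e1 : fsn G lam P c = fsn G lam P c' := pre_antisymm
    (fsn_min (b1.trans hs) (past_congr b1 e ▸ b2)).1
    (fsn_min (a1.trans hs') (past_congr a1 e ▸ a2)).1
  refine Prod.ext e1 ?_
  change past G lam c (fsn G lam P c) = past G lam c' (fsn G lam P c')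
  rw [← e1]
  exact past_congr a1 e

theorem fs_k0 (e : k0 G lam c = k0 G lam c') : fs G lam P c = fs G lam P c' := by
  have e1 : lam c = lam c' := congrArg Prod.fst e
  have e2 : past G lam c (lam c) = past G lam c' (lam c) :=
    (congrArg Prod.snd e).trans (by rw [e1]; rfl)
  have e3 : fsn G lam P c = fsn G lam P c' := by
    unfold fsn
    rw [← e1]
    congr 2
    ext n
    simp only [mem_ofPred_eq, past_congr (List.take_prefix n (lam c)) e2]
  refine Prod.ext e3 ?_
  change past G lam c (fsn G lam P c) = past G lam c' (fsn G lam P c')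
  rw [← e3]
  exact past_congr fsn_pre e2

theorem zone_min (hs : s <+: lam c) (h : (past G lam c s).Nonempty) :
    (zone G lam c).1 <+: s ∧ (zone G lam c).2.Nonempty :=
  fsn_min (P := fun _ τ => τ.Nonempty) hs h

theorem zone_congr (hs : s <+: lam c) (hs' : s <+: lam c') (e : past G lam c s = past G lam c' s)
    (h : (past G lam c s).Nonempty) : zone G lam c = zone G lam c' :=
  fs_congr (P := fun _ τ => τ.Nonempty) hs hs' e h

theorem zone_pre : (zone G lam c).1 <+: lam c := fsn_pre (P := fun _ τ => τ.Nonempty)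

theorem zone_snd : (zone G lam c).2 = past G lam c (zone G lam c).1 := rfl

/-- Members of the zone of a vertex with a nonempty past at `s` have a nonempty past at `s`. -/
theorem zone_nonempty (hs : s <+: lam c) (h : (past G lam c s).Nonempty)
    (e : zone G lam c' = zone G lam c) : (past G lam c' s).Nonempty := by
  obtain ⟨h1, h2⟩ := zone_min hs h
  rw [← e] at h1 h2
  exact h2.mono (past_mono h1)

theorem zone_last (hs : s <+: lam c) (h : (past G lam c s).Nonempty) :
    ∃ f x, (zone G lam c).1 = f ++ [true] ∧ out G lam c x f := by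
  obtain ⟨y, hy⟩ := (zone_min hs h).2
  obtain ⟨f, h1, h2⟩ := (mem_past zone_pre).1 hy
  exact ⟨f, y, pre_antisymm (zone_min h2.2.1 ⟨y, h2.mem⟩).1 h1, h2⟩

theorem Model.deep (M : Model G lam k g) (hP : ∀ s τ, P s τ → τ.Nonempty) (h : out G lam c x t) :
    t ++ [false] <+: fsn G lam P x := by
  rcases fsn_spec (G := G) (lam := lam) (P := P) (c := x) with h1 | h1
  · obtain ⟨y, hy⟩ := hP _ _ h1
    obtain ⟨s, h2, h3⟩ := (mem_past fsn_pre).1 hy
    exact (M.m2 c x y t s h h3).trans ((pre_app _ _).trans h2)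
  · exact h1 ▸ h.2.2

theorem Model.zone_deep (M : Model G lam k g) (h : out G lam c x t) :
    t ++ [false] <+: (zone G lam x).1 := M.deep (fun _ _ h => h) h

theorem Model.zone_ne (M : Model G lam k g) (h : out G lam c x t) :
    zone G lam c ≠ zone G lam x := fun e =>
  not_both h.2.1 ((e ▸ M.zone_deep h).trans zone_pre)

/-- Functions of the past at `s` take few values on the vertices with an edge below `s`. -/
theorem Model.few [Finite V] (M : Model G lam k g) {α : Type} (q : V → α) (S : Set V)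
    (hS : ∀ c ∈ S, ∃ x t, s <+: t ∧ out G lam c x t)
    (h : ∀ c ∈ S, ∀ c' ∈ S, past G lam c s = past G lam c' s → q c = q c') :
    (q '' S).ncard ≤ g :=
  (G91.factor_le S q _ h).trans ((ncard_le_ncard (image_mono hS) (toFinite _)).trans (M.m3 s))

/-- Functions of the leaf and the out-neighbourhood take few values on the heads at `t`. -/
theorem Model.heads [Finite V] (M : Model G lam k g) {α : Type} (q : V → α) (S : Set V)
    (hS : ∀ x ∈ S, ∃ c, out G lam c x t) (h : ∀ x x', k0 G lam x = k0 G lam x' → q x = q x') :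
    (q '' S).ncard ≤ k :=
  (G91.factor_le S q _ fun x _ x' _ => h x x').trans
    ((ncard_le_ncard (image_mono hS) (toFinite _)).trans (M.m1 t))

theorem past_comap {V' : Type} (f : V' → V) (a : V') (s : Nd) :
    past (G.comap f) (lam ∘ f) a s = f ⁻¹' past G lam (f a) s := rfl

theorem out_comap {V' : Type} (f : V' → V) (a b : V') (t : Nd) :
    out (G.comap f) (lam ∘ f) a b t ↔ out G lam (f a) (f b) t := Iff.rfl

theorem image_factor {α β V' : Type} [Finite V] (f : V' → V) (q : V → α) (q' : V' → β) (S : Set V)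
    (S' : Set V') (hS : ∀ a ∈ S', f a ∈ S) (e : α → β) (h : ∀ a ∈ S', q' a = e (q (f a))) :
    (q' '' S').ncard ≤ (q '' S).ncard := by
  refine le_trans (ncard_le_ncard ?_ (toFinite (e '' (q '' S)))) (ncard_image_le (toFinite _))
  rintro _ ⟨a, ha, rfl⟩
  exact ⟨_, ⟨f a, hS a ha, rfl⟩, (h a ha).symm⟩

theorem Model.comap [Finite V] (M : Model G lam k g) {V' : Type} (f : V' → V) :
    Model (G.comap f) (lam ∘ f) k g where
  m0 a b h := M.m0 (f a) (f b) h
  m1 t := le_trans (image_factor f (k0 G lam) _ {x | ∃ c, out G lam c x t} _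
    (fun _ h => h.elim fun c h => ⟨f c, h⟩) (fun p => (p.1, f ⁻¹' p.2)) fun _ _ => rfl) (M.m1 t)
  m2 a b c t s := M.m2 (f a) (f b) (f c) t s
  m3 s := le_trans (image_factor f (fun c => past G lam c s) _
    {c | ∃ x t, s <+: t ∧ out G lam c x t} _ (fun _ h => h.elim fun x h => ⟨f x, h⟩)
    (fun p => f ⁻¹' p) fun _ _ => rfl) (M.m3 s)

/-- Edges at the time at which the property `P` starts to hold. -/
theorem Model.special [Finite V] (M : Model G lam k g) (P : Nd → Set V → Prop) :
    Kill (fun c x => ∃ t, out G lam c x t ∧ fsn G lam P c = t ++ [true]) (2 * k + 1) := by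
  refine Kill.outdeg (k0 G lam) k (fun u v ⟨t, h, _⟩ e => h.lam_ne (congrArg Prod.fst e))
    fun a => ?_
  rcases eq_empty_or_nonempty {v | ∃ u, (∃ t, out G lam u v t ∧ fsn G lam P u = t ++ [true]) ∧
    k0 G lam u = a} with h | ⟨v₀, u₀, ⟨t₀, -, h2⟩, h3⟩
  · simp [h]
  refine M.heads (t := t₀) _ _ (fun v ⟨u, ⟨t, h4, h5⟩, h6⟩ => ⟨u, ?_⟩) fun _ _ h => h
  have e : fsn G lam P u = fsn G lam P u₀ := congrArg Prod.fst (fs_k0 (h6.trans h3.symm))
  rwa [← List.append_cancel_right (h5.symm.trans (e.trans h2))]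

variable {ι : Type} {cls : Nd × Set V → V → ι} {κ : ι} {K : ℕ}

theorem Rich.up [Finite V] (h : Rich G lam cls κ K s' (past G lam c s')) (hs : s <+: s') :
    Rich G lam cls κ K s (past G lam c s) :=
  le_trans h (ncard_le_ncard (image_mono fun _ ⟨a, h1, h2, h3⟩ =>
    ⟨a, hs.trans h1, past_congr hs h2, h3⟩) (toFinite _))

end states

end Pool.Agent.MP_da1f04_co.I91
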