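import Pool.Agent.MP_da1f04_co.I91.Tools

/-! Poor edges that are not shadowed. -/

set_option autoImplicit false

namespace Pool.Agent.MP_da1f04_co.I91

open Set Function

theorem unSt : UnSt := by
  classical
  intro V _ G lam k g M ι cls κ K e P hP
  have hP' : ∀ s τ, P s τ → τ.Nonempty := fun s τ h => ((hP s τ).1 h).1
  have h2 : Kill (fun u c : V => P (fsn G lam P u) (past G lam u (fsn G lam P u)) ∧
      ¬ P (fsn G lam P c) (past G lam c (fsn G lam P c))) 2 :=
    Kill.of_card (fun v => P (fsn G lam P v) (past G lam v (fsn G lam P v)))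
      (fun u v h e => h.2 (e ▸ h.1)) (by simp)
  have h1 : Kill (fun u c : V => (∃ t, out G lam u c t ∧ e u t ∧ cls (zone G lam u) c = κ ∧
      fsn G lam P u <+: t ∧ P (fsn G lam P u) (past G lam u (fsn G lam P u)) ∧
      ¬ Shadow G lam cls e κ K u t) ∧ P (fsn G lam P c) (past G lam c (fsn G lam P c)))
      (2 * (K * g) + 1) := by
    refine Kill.indeg (fs G lam P) (K * g) ?_ fun a => ?_
    · rintro u c ⟨⟨t, a1, -, -, a2, -⟩, -⟩ h
      have h3 : fsn G lam P u = fsn G lam P c := congrArg Prod.fst h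
      exact not_app_pre ((M.deep hP' a1).trans (h3 ▸ a2))
    set S := {u | ∃ c, ((∃ t, out G lam u c t ∧ e u t ∧ cls (zone G lam u) c = κ ∧
      fsn G lam P u <+: t ∧ P (fsn G lam P u) (past G lam u (fsn G lam P u)) ∧
      ¬ Shadow G lam cls e κ K u t) ∧ P (fsn G lam P c) (past G lam c (fsn G lam P c))) ∧
      fs G lam P c = a} with hS
    rcases eq_empty_or_nonempty S with h | ⟨u1, c1, ⟨-, b1⟩, b2⟩
    · simp [h]
    have hR : ¬ Rich G lam cls κ K a.1 a.2 := b2 ▸ ((hP _ _).1 b1).2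
    have hz : ∀ z, (fs G lam P '' {u | u ∈ S ∧ zone G lam u = z}).ncard ≤ g := by
      intro z
      rcases eq_empty_or_nonempty {u | u ∈ S ∧ zone G lam u = z} with h | ⟨u2, hu2⟩
      · simp [h]
      obtain ⟨t0, ⟨u0, c0, d1, d2, d3, d4, d5, d6⟩, hmin⟩ :=
        WellFounded.has_min (InvImage.wf List.length Nat.lt_wfRel.wf)
          {t | ∃ u c, zone G lam u = z ∧ fs G lam P c = a ∧ out G lam u c t ∧
            fsn G lam P u <+: t ∧ P (fsn G lam P u) (past G lam u (fsn G lam P u)) ∧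
            ¬ Shadow G lam cls e κ K u t} (by
          obtain ⟨⟨c, ⟨⟨t, a1, -, -, a2, a3, a4⟩, -⟩, a5⟩, a6⟩ := hu2
          exact ⟨t, u2, c, a6, a5, a1, a2, a3, a4⟩)
      have hd : ∀ u c t, fs G lam P c = a → out G lam u c t → t <+: a.1 := fun u c t h h' =>
        h ▸ (pre_app t false).trans (M.deep hP' h')
      have key : ∀ u, u ∈ S ∧ zone G lam u = z → (∃ x t, t0 <+: t ∧ out G lam u x t) ∧
          t0 <+: lam u ∧ P t0 (past G lam u t0) := by
        rintro u ⟨⟨c, ⟨⟨t, a1, a0, -, a2, a3, a4⟩, -⟩, a5⟩, a6⟩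
        have h3 : t0 <+: t := pre_of_len (hd _ _ _ d2 d3) (hd _ _ _ a5 a1)
          (not_lt.1 (hmin t ⟨u, c, a6, a5, a1, a2, a3, a4⟩))
        refine ⟨⟨c, t, h3, a1⟩, h3.trans a1.pre, (hP _ _).2 ⟨?_, fun hr => ?_⟩⟩
        · exact zone_nonempty d3.pre ((hP' _ _ d5).mono (past_mono d4)) (a6.trans d1.symm)
        · exact d6 ⟨u, a6.trans d1.symm, ⟨c, t, h3, a1, a0⟩, hr⟩
      exact M.few (s := t0) _ _ (fun u hu => (key u hu).1) fun u hu u' hu' h =>
        fs_congr (key u hu).2.1 (key u' hu').2.1 h (key u hu).2.2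
    have h3 := ncard_fib (S := (fun u => (zone G lam u, fs G lam P u)) '' S)
      (T := zone G lam '' {u | ∃ c, a.1 <+: lam c ∧ past G lam c a.1 = a.2 ∧
        cls (zone G lam u) c = κ}) (toFinite _) Prod.fst g
      (by
        rintro _ ⟨u, ⟨c, ⟨⟨t, -, -, a1, -⟩, -⟩, rfl⟩, rfl⟩
        exact ⟨u, ⟨c, fsn_pre, rfl, a1⟩, rfl⟩) (toFinite _)
      fun z _ => le_trans (ncard_le_ncard_of_injOn Prod.snd (by
        rintro _ ⟨⟨u, hu, rfl⟩, h⟩
        exact ⟨u, ⟨hu, h⟩, rfl⟩)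
        (fun p hp p' hp' h => Prod.ext (hp.2.trans hp'.2.symm) h) (toFinite _)) (hz z)
    have h4 : fs G lam P '' S = Prod.snd '' ((fun u => (zone G lam u, fs G lam P u)) '' S) := by
      rw [image_image]
    rw [h4, mul_comm]
    exact (ncard_image_le (toFinite _)).trans
      (h3.trans (Nat.mul_le_mul_left _ (not_le.1 hR).le))
  refine (h1.or h2).imp fun u c h => ?_
  by_cases hc : P (fsn G lam P c) (past G lam c (fsn G lam P c))
  · exact Or.inl ⟨h, hc⟩
  · obtain ⟨t, -, -, -, -, a, -⟩ := h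
    exact Or.inr ⟨a, hc⟩

end Pool.Agent.MP_da1f04_co.I91
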