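import Pool.Agent.MP_da1f04_co.I91.Tools

/-! Edges in a leaf, edges with an unclean tail class, and the reduction to models. -/

set_option autoImplicit false

namespace Pool.Agent.MP_da1f04_co.I91

open Set Function

namespace Xa

variable {V : Type} {G : SimpleGraph V} {q k w c c' : ℕ} {lam : V → Nd} {D : Nd → Set V}
  {cl : Nd → V → Set V} {col : V → ℕ} {s t : Nd} {u v : V}

theorem lc_eq (T : HT G q k w c lam D cl col) (hu : s <+: lam u) (hv : s <+: lam v)
    (e : cl s u = cl s v) : lc lam cl u = lc lam cl v := by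
  have e1 := T.same s u v hu hv e
  refine Prod.ext e1 ?_
  change cl (lam u) u = cl (lam v) v
  rw [← e1]
  exact T.mono s (lam u) u v hu (T.home _ _ List.prefix_rfl)
    (T.home _ _ (e1 ▸ List.prefix_rfl)) e

theorem heads [Finite V] (T : HT G q k w c lam D cl col) (t : Nd) :
    (lc lam cl '' {x | ∃ u, out G lam u x t}).ncard ≤ k := by
  refine (G91.factor_le _ _ (cl t) ?_).trans (T.targ t)
  rintro _ ⟨_, h⟩ _ ⟨_, h'⟩ e
  exact lc_eq T h.pre' h'.pre' e

theorem tails [Finite V] (T : HT G q k w c lam D cl col) (t : Nd) :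
    (lc lam cl '' {u | t <+: lam u ∧ ¬ Clean G lam D cl u t}).ncard ≤ w := by
  refine (G91.factor_le _ _ (cl t) fun _ h _ h' e => lc_eq T h.1 h'.1 e).trans
    (le_trans (ncard_le_ncard ?_ (toFinite _)) (T.wt t))
  rintro _ ⟨u, ⟨h1, h2⟩, rfl⟩
  by_cases h : past G lam u t ⊆ D t
  · by_contra hn
    exact h2 fun y hy => ⟨h hy, fun e => hn ⟨y, ⟨h hy, Or.inl hy.2⟩, e⟩⟩
  · exact ⟨u, ⟨T.home _ _ h1, Or.inr ⟨h1, h⟩⟩, rfl⟩

theorem leaf (T : HT G q k w c lam D cl col) (hS : Small G q c') :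
    Kill (fun u v => G.Adj u v ∧ lam u = lam v) (c * c') := by
  have h1 : Kill (fun u v => G.Adj u v ∧ lam u = lam v ∧ lc lam cl u ≠ lc lam cl v) c :=
    ⟨fun v => ⟨col v, T.lt v⟩, fun u v ⟨a, e, n⟩ e' => T.ne u v e
      (fun e'' => n (lc_eq T List.prefix_rfl (e ▸ List.prefix_rfl) e'')) a (congrArg Fin.val e')⟩
  have h2 : Kill (fun u v => G.Adj u v ∧ lc lam cl u = lc lam cl v) c' := by
    refine Kill.parts (lc lam cl) fun a => ?_
    by_cases h : ∃ u, lc lam cl u = a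
    · obtain ⟨u, rfl⟩ := h
      have key : ∀ v : {v // lc lam cl v = lc lam cl u},
          v.1 ∈ {v | lam v = lam u ∧ cl (lam u) v = cl (lam u) u} := fun v => by
        have e1 : lam v.1 = lam u := congrArg Prod.fst v.2
        have e2 : cl (lam v.1) v.1 = cl (lam u) u := congrArg Prod.snd v.2
        exact ⟨e1, e1 ▸ e2⟩
      exact (hS _ (T.fib u)).comap Subtype.val fun a b h => ⟨key a, key b, h⟩
    · exact ⟨fun v => (h ⟨v.1, v.2⟩).elim, fun v => (h ⟨v.1, v.2⟩).elim⟩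
  refine (h1.or h2).imp fun u v h => ?_
  by_cases e : lc lam cl u = lc lam cl v
  · exact Or.inr ⟨h.1, e⟩
  · exact Or.inl ⟨h.1, h.2, e⟩

theorem unclean [Finite V] (T : HT G q k w c lam D cl col) :
    Kill (fun u x => ∃ t, out G lam u x t ∧ ∃ u', lc lam cl u' = lc lam cl u ∧
      ¬ Clean G lam D cl u' t) (2 * (w * k) + 1) := by
  classical
  refine Kill.deg (lc lam cl) (w * k) (fun u v ⟨t, h, _⟩ e => h.lam_ne (congrArg Prod.fst e))
    fun A hA => ?_
  obtain ⟨hM, hMc⟩ := meet_card (hA.image Prod.fst)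
  have hex : ∀ p : (Nd × Set V) × Nd × Set V, ∃ t, ∀ t', t' ++ [true] <+: p.1.1 →
      t' ++ [false] <+: p.2.1 → t = t' := fun p => by
    by_cases h : ∃ t, t ++ [true] <+: p.1.1 ∧ t ++ [false] <+: p.2.1
    · obtain ⟨t, h1, h2⟩ := h
      exact ⟨t, fun t' h3 h4 => meet_unique h2 h1 h4 h3⟩
    · exact ⟨[], fun t' h3 h4 => (h ⟨t', h3, h4⟩).elim⟩
  choose f hf using hex
  refine (ncard_fib hM f (w * k) ?_ ((hA.prod hA).subset fun p hp => ⟨hp.1, hp.2.1⟩)
    fun t _ => ?_).trans (Nat.mul_le_mul_left _ (hMc.trans (ncard_image_le hA)))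
  · rintro p ⟨h1, h2, u, v, ⟨t, h, -⟩, e1, e2⟩
    have a1 : t ++ [true] <+: p.1.1 := e1 ▸ h.2.1
    have a2 : t ++ [false] <+: p.2.1 := e2 ▸ h.2.2
    rw [hf p t a1 a2]
    exact ⟨_, ⟨_, h2, rfl⟩, _, ⟨_, h1, rfl⟩, a2, a1⟩
  · refine le_trans (ncard_le_ncard (t := (lc lam cl '' {u | t <+: lam u ∧
      ¬ Clean G lam D cl u t}) ×ˢ (lc lam cl '' {x | ∃ u, out G lam u x t})) ?_
      ((toFinite _).prod (toFinite _))) ?_
    · rintro p ⟨⟨-, -, u, v, ⟨t', h, u', e3, h3⟩, e1, e2⟩, e⟩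
      have a1 : t' ++ [true] <+: p.1.1 := e1 ▸ h.2.1
      have a2 : t' ++ [false] <+: p.2.1 := e2 ▸ h.2.2
      obtain rfl : t = t' := e.symm.trans (hf p t' a1 a2)
      have e4 : lam u' = lam u := congrArg Prod.fst e3
      exact ⟨⟨u', ⟨e4 ▸ h.pre, h3⟩, e3.trans e1⟩, v, ⟨u, h⟩, e2⟩
    · rw [ncard_prod]
      exact Nat.mul_le_mul (tails T t) (heads T t)

theorem clean_up (T : HT G q k w c lam D cl col) (hs : s <+: t) (ht : t <+: lam u)
    (h : Clean G lam D cl u t) : Clean G lam D cl u s := fun y hy =>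
  have h1 := h y (past_mono hs hy)
  ⟨T.anti s t hs h1.1, fun e => h1.2 (T.mono s t y u hs h1.1 (T.home _ _ ht) e)⟩

theorem past_sub (T : HT G q k w c lam D cl col) (hv : s <+: lam v) (cu : Clean G lam D cl u s)
    (cv : Clean G lam D cl v s) (e : cl s '' past G lam u s = cl s '' past G lam v s) :
    past G lam u s ⊆ past G lam v s := fun y hy => by
  obtain ⟨y', h1, h2⟩ : cl s y ∈ cl s '' past G lam v s := e ▸ ⟨y, hy, rfl⟩
  exact ⟨(T.modu s y' (cv y' h1).1 y (cu y hy).1 v (T.home _ _ hv) h2 (cv y' h1).2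
    h1.1.symm).symm, hy.2⟩

/-- An edge from a vertex with an empty past at `t` does not cross above `t`. -/
theorem below {y : V} (ht : t <+: lam u) (h0 : ¬ (past G lam u t).Nonempty)
    (h : out G lam u y s) : t <+: s :=
  (pre_or_app ht h.2.1).resolve_right fun h' => h0 ⟨y, (mem_past ht).2 ⟨s, h', h⟩⟩

theorem leaf_sub (T : HT G q k w c lam D cl col) (hu : t <+: lam u) (hv : t <+: lam v)
    (h0 : ¬ (past G lam u t).Nonempty) (e : cl t u = cl t v) :
    past G lam u (lam u) ⊆ past G lam v (lam v) := fun y hy => by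
  obtain ⟨s, h⟩ := mem_past_leaf.1 hy
  have hy' : t <+: lam y := (below hu h0 h).trans h.pre'
  exact ⟨T.modu t u (T.home _ _ hu) v (T.home _ _ hv) y (T.home _ _ hy') e
    (fun e' => h.lam_ne (T.same t u y hu hy' e')) hy.1, T.same t u v hu hv e ▸ hy.2⟩

/-- A part without the four kinds of edges is a model. -/
theorem model [Finite V] (T : HT G q k w c lam D cl col) {V' : Type} [Finite V'] (f : V' → V)
    (h1 : ∀ a b, G.Adj (f a) (f b) → lam (f a) ≠ lam (f b))
    (h2 : ∀ a b t, out G lam (f a) (f b) t → Clean G lam D cl (f a) t ∧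
      ¬ (past G lam (f b) t).Nonempty) : Model (G.comap f) (lam ∘ f) k (2 ^ w) where
  m0 a b h := by
    have hi : Inc (lam (f a)) (lam (f b)) :=
      ⟨fun h' => h1 a b h (T.chain _ _ h'), fun h' => h1 a b h (T.chain _ _ h').symm⟩
    obtain ⟨t, h' | h'⟩ := exists_meet hi
    · exact Or.inl ⟨t, h, h'⟩
    · exact Or.inr ⟨t, h.symm, h'⟩
  m1 t := by
    refine (G91.factor_le _ _ (fun x => cl t (f x)) ?_).trans
      (le_trans (ncard_le_ncard ?_ (toFinite _)) (T.targ t))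
    · rintro x ⟨a, h⟩ x' ⟨a', h'⟩ e
      have h : out G lam (f a) (f x) t := h
      have h' : out G lam (f a') (f x') t := h'
      refine Prod.ext (T.same t _ _ h.pre' h'.pre' e) ?_
      change f ⁻¹' past G lam (f x) (lam (f x)) = f ⁻¹' past G lam (f x') (lam (f x'))
      rw [subset_antisymm (leaf_sub T h.pre' h'.pre' (h2 _ _ _ h).2 e)
        (leaf_sub T h'.pre' h.pre' (h2 _ _ _ h').2 e.symm)]
    · rintro _ ⟨x, ⟨a, h⟩, rfl⟩
      exact ⟨f x, ⟨f a, h⟩, rfl⟩
  m2 a x y t s h h' := by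
    have h : out G lam (f a) (f x) t := h
    have h' : out G lam (f x) (f y) s := h'
    refine (pre_or_app h'.pre h.2.2).resolve_left fun h3 => ?_
    obtain rfl : t = s := pre_antisymm (below h.pre' (h2 _ _ _ h).2 h') h3
    exact not_both h'.2.1 h.2.2
  m3 s := by
    have hc : ∀ a ∈ {a | ∃ x t, s <+: t ∧ out (G.comap f) (lam ∘ f) a x t},
        s <+: lam (f a) ∧ Clean G lam D cl (f a) s := by
      rintro a ⟨x, t, h3, h⟩
      have h : out G lam (f a) (f x) t := h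
      exact ⟨h3.trans h.pre, clean_up T h3 h.pre (h2 _ _ _ h).1⟩
    refine (G91.factor_le _ _ (fun a => cl s '' past G lam (f a) s) ?_).trans
      (le_trans (ncard_le_ncard (t := 𝒫 (cl s '' {u | u ∈ D s ∧ (u ∈ arr lam s ∨
        (s <+: lam u ∧ ¬ past G lam u s ⊆ D s))})) ?_ (toFinite _)) ?_)
    · intro a ha b hb e
      change f ⁻¹' past G lam (f a) s = f ⁻¹' past G lam (f b) s
      rw [subset_antisymm (past_sub T (hc b hb).1 (hc a ha).2 (hc b hb).2 e)
        (past_sub T (hc a ha).1 (hc b hb).2 (hc a ha).2 e.symm)]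
    · rintro _ ⟨a, ha, rfl⟩
      exact image_mono fun y hy => ⟨((hc a ha).2 y hy).1, Or.inl hy.2⟩
    · rw [ncard_powerset _ (toFinite _)]
      exact Nat.pow_le_pow_right two_pos (T.wt s)

end Xa

theorem xaSt : XaSt := fun _ _ _ _ _ _ _ _ _ _ _ _ T hS => ⟨Xa.leaf T hS, Xa.unclean T⟩

theorem redSt (h1 : XaSt) (h2 : XbSt) : RedSt := by
  intro k w c c' n
  refine ⟨c * c' * (2 * (w * k) + 1) * (c' * (2 * (2 * 2 ^ w) + 1) *
    (2 * ((2 ^ w + 1) * w) + 1)) * n, fun V _ G q lam D cl col T hS hq H => ?_⟩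
  obtain ⟨a1, a2⟩ := h1 V G q k w c c' lam D cl col T hS
  obtain ⟨a3, a4⟩ := h2 V G q k w c c' lam D cl col T hS hq
  obtain ⟨φ, hφ⟩ := (a1.or a2).or (a3.or a4)
  refine (Kill.refine φ fun a => kill_of_colorable (G := G.comap Subtype.val)
    (H _ Subtype.val Subtype.val_injective (Xa.model T _ ?_ ?_))).colorable
  · exact fun u v h e => hφ _ _ (Or.inl (Or.inl ⟨h, e⟩)) (u.2.trans v.2.symm)
  · intro u v t h
    have e : φ u.1 = φ v.1 := u.2.trans v.2.symm
    have b1 : ∀ u', lc lam cl u' = lc lam cl u.1 → Clean G lam D cl u' t := fun u' e' => by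
      by_contra hn
      exact hφ _ _ (Or.inl (Or.inr ⟨t, h, u', e', hn⟩)) e
    have b2 : ¬ Late G lam D cl u.1 v.1 := fun hl => hφ _ _ (Or.inr (Or.inr ⟨t, h, b1, hl⟩)) e
    exact ⟨b1 _ rfl, fun hp => hφ _ _ (Or.inr (Or.inl ⟨t, h, b1 _ rfl, hp, b2⟩)) e⟩

end Pool.Agent.MP_da1f04_co.I91
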