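import Pool.Agent.MP_da1f04_co.I91.Tools

/-! Inverted edges. -/

set_option autoImplicit false

namespace Pool.Agent.MP_da1f04_co.I91

open Set Function

namespace Xb

variable {V : Type} {G : SimpleGraph V} {q k w c c' : ℕ} {lam : V → Nd} {D : Nd → Set V}
  {cl : Nd → V → Set V} {col : V → ℕ} {u x : V} {s s' t f : Nd}

theorem clean_up (H : HT G q k w c lam D cl col) (h : s <+: s') (h' : s' <+: lam u)
    (hc : Clean G lam D cl u s') : Clean G lam D cl u s := fun y hy =>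
  have a := hc y (past_mono h hy)
  ⟨H.anti s s' h a.1, fun e => a.2 (H.mono s s' y u h a.1 (H.home s' u h') e)⟩

variable (G lam D cl) in
/-- Zones of clean homes with a nonempty past. -/
def Keys (s : Nd) : Set (Nd × Set V) :=
  zone G lam '' {u | s <+: lam u ∧ Clean G lam D cl u s ∧ (past G lam u s).Nonempty}

variable (G lam D cl) in
/-- Leaf classes of unclean homes. -/
def Unc (s : Nd) : Set (Nd × Set V) := lc lam cl '' {x | s <+: lam x ∧ ¬ Clean G lam D cl x s}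

theorem keys_le [Finite V] (H : HT G q k w c lam D cl col) (s : Nd) :
    (Keys G lam D cl s).ncard ≤ 2 ^ w := by
  have key : ∀ u u', (s <+: lam u ∧ Clean G lam D cl u s) → (s <+: lam u' ∧ Clean G lam D cl u' s) →
      cl s '' past G lam u s = cl s '' past G lam u' s → past G lam u s ⊆ past G lam u' s := by
    intro u u' a b e y hy
    obtain ⟨y', hy', ey⟩ : cl s y ∈ cl s '' past G lam u' s := e ▸ mem_image_of_mem _ hy
    exact ⟨(H.modu s y' (b.2 y' hy').1 y (a.2 y hy).1 u' (H.home s u' b.1) ey (b.2 y' hy').2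
      hy'.1.symm).symm, hy.2⟩
  refine (G91.factor_le _ _ (fun u => cl s '' past G lam u s) fun u a u' b e =>
    zone_congr a.1 b.1 ((key u u' ⟨a.1, a.2.1⟩ ⟨b.1, b.2.1⟩ e).antisymm
      (key u' u ⟨b.1, b.2.1⟩ ⟨a.1, a.2.1⟩ e.symm)) a.2.2).trans ?_
  refine le_trans (ncard_le_ncard ?_ (toFinite _)) ((ncard_powerset _ (toFinite _)).le.trans
    (Nat.pow_le_pow_right two_pos (H.wt s)))
  rintro _ ⟨u, a, rfl⟩
  exact image_mono fun y hy => ⟨(a.2.1 y hy).1, .inl hy.2⟩

theorem unc_le [Finite V] (H : HT G q k w c lam D cl col) (s : Nd) :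
    (Unc G lam D cl s).ncard ≤ w := by
  refine (G91.factor_le _ _ (cl s) fun x a x' b e => ?_).trans
    ((ncard_le_ncard ?_ (toFinite _)).trans (H.wt s))
  · have e1 := H.same s x x' a.1 b.1 e
    refine Prod.ext e1 ?_
    change cl (lam x) x = cl (lam x') x'
    rw [← e1]
    exact H.mono s _ x x' a.1 (H.home _ x ⟨[], List.append_nil _⟩)
      (H.home _ x' ⟨[], (List.append_nil _).trans e1⟩) e
  · rintro _ ⟨x, ⟨a, b⟩, rfl⟩
    by_cases h : past G lam x s ⊆ D s
    · by_contra hn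
      exact b fun y hy => ⟨h hy, fun e => hn ⟨y, ⟨h hy, .inl hy.2⟩, e⟩⟩
    · exact ⟨x, ⟨H.home s x a, .inr ⟨a, h⟩⟩, rfl⟩

theorem first_le (h : out G lam u x t) (e : (zone G lam u).1 = f ++ [true]) : f <+: t := by
  have := (zone_min h.2.1 ⟨x, h.mem⟩).1
  rw [e] at this
  exact pre_of_len ((pre_app _ _).trans this) (pre_app _ _) (by simpa using this.length_le)

theorem past_ne (h : (zone G lam u).2.Nonempty) (hs : (zone G lam u).1 <+: s) :
    (past G lam u s).Nonempty := h.mono (past_mono hs)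

theorem cover {α β : Type} [Nonempty β] {S : Set α} {T : Set β} (hS : S.Finite) (hT : T.Finite)
    (U : β → Set α) {C : ℕ} (hU : ∀ b, (U b).Finite ∧ (U b).ncard ≤ C)
    (h : ∀ a ∈ S, ∃ b ∈ T, a ∈ U b) : S.ncard ≤ C * T.ncard := by
  choose! g g1 g2 using h
  exact ncard_fib hT g C g1 hS fun b _ =>
    (ncard_le_ncard (fun a ha => ha.2 ▸ g2 a ha.1) (hU b).1).trans (hU b).2

theorem same_zone (hs : Small G q c') (hq : G.CliqueFree (q + 1)) :
    Kill (fun u v => (G.Adj u v ∧ (zone G lam u).2.Nonempty) ∧ zone G lam u = zone G lam v) c' := by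
  have nb : ∀ y, Kill (fun u v => G.Adj y u ∧ G.Adj y v ∧ G.Adj u v) c' := fun y =>
    (hs _ (SimpleGraph.CliqueFreeOn.of_succ G hq.cliqueFreeOn (mem_univ y))).imp fun u v h =>
      ⟨⟨trivial, h.1⟩, ⟨trivial, h.2.1⟩, h.2.2⟩
  refine Kill.parts (zone G lam) fun a => ?_
  rcases a.2.eq_empty_or_nonempty with e | ⟨y, hy⟩
  · rcases isEmpty_or_nonempty V with _ | ⟨⟨y⟩⟩
    · exact ⟨fun v => isEmptyElim v.1, fun v => isEmptyElim v.1⟩
    · exact (nb y).comap Subtype.val fun u v h => (h.2.ne_empty (by rw [u.2, e])).elim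
  · have m : ∀ u : {v // zone G lam v = a}, G.Adj y u := fun u => by
      rw [← u.2] at hy
      exact hy.1.symm
    exact (nb y).comap Subtype.val fun u v h => ⟨m u, m v, h.1⟩

theorem one [Finite V] (H : HT G q k w c lam D cl col) (hs : Small G q c')
    (hq : G.CliqueFree (q + 1)) :
    Kill (fun u x => ∃ t, out G lam u x t ∧ Clean G lam D cl u t ∧ (past G lam x t).Nonempty ∧
      ¬ Late G lam D cl u x) (c' * (2 * (2 * 2 ^ w) + 1)) := by
  have k2 : Kill (fun u v => zone G lam u ≠ zone G lam v ∧ zone G lam v ∈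
      Keys G lam D cl (zone G lam u).1 ∪ Keys G lam D cl (zone G lam u).1.dropLast)
      (2 * (2 * 2 ^ w) + 1) := by
    refine Kill.outdeg (zone G lam) _ (fun u v h => h.1) fun a => le_trans
      (ncard_le_ncard (t := Keys G lam D cl a.1 ∪ Keys G lam D cl a.1.dropLast) ?_
        (((toFinite _).image _).union ((toFinite _).image _))) ((ncard_union_le _ _).trans ?_)
    · rintro _ ⟨v, ⟨u, h, rfl⟩, rfl⟩
      exact h.2
    · rw [two_mul]
      exact add_le_add (keys_le H _) (keys_le H _)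
  refine ((same_zone (lam := lam) hs hq).or k2.symm').imp fun u x ⟨t, ho, hc, hp, hl⟩ => ?_
  have zu := zone_min ho.2.1 ⟨x, ho.mem⟩
  have zx := zone_min ho.pre' hp
  by_cases e : zone G lam u = zone G lam x
  · exact .inl ⟨⟨ho.1, zu.2⟩, e⟩
  obtain ⟨f, -, hf, -⟩ := zone_last ho.2.1 ⟨x, ho.mem⟩
  have ft := first_le ho hf
  rcases pre_or_app (zx.1.trans (pre_app t true)) (hf ▸ zu.1) with a | a
  · refine .inr (.inl ⟨e, .inr ⟨x, ?_, rfl⟩⟩)
    rw [hf, List.dropLast_concat]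
    exact ⟨ft.trans ho.pre', by_contra fun n => hl ⟨f, hf, ft.trans ho.pre', n⟩, past_ne zx.2 a⟩
  · exact .inr (.inr ⟨Ne.symm e, .inl ⟨u, ⟨zx.1.trans ho.pre, clean_up H zx.1 ho.pre hc,
      past_ne zu.2 (hf ▸ a)⟩, rfl⟩⟩)

theorem two [Finite V] (H : HT G q k w c lam D cl col) :
    Kill (fun u x => ∃ t, out G lam u x t ∧ (∀ u', lc lam cl u' = lc lam cl u →
      Clean G lam D cl u' t) ∧ Late G lam D cl u x) (2 * ((2 ^ w + 1) * w) + 1) := by
  refine Kill.outdeg (lc lam cl) _ (fun u v ⟨t, h, _⟩ e => h.lam_ne (congrArg Prod.fst e))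
    fun a => ?_
  rcases eq_empty_or_nonempty {u | lc lam cl u = a ∧ ∃ x t, out G lam u x t ∧
    ∀ u', lc lam cl u' = lc lam cl u → Clean G lam D cl u' t} with h | h
  · refine le_trans (le_of_eq ((ncard_eq_zero (toFinite _)).2 (image_eq_empty.2
      (eq_empty_of_forall_notMem ?_)))) (Nat.zero_le _)
    rintro x ⟨u, ⟨t, h1, h2, -⟩, h3⟩
    exact (eq_empty_iff_forall_notMem.1 h) u ⟨h3, x, t, h1, h2⟩
  obtain ⟨u₀, ⟨rfl, x₀, t₀, ho, hc⟩, hm⟩ :=
    exists_max_image _ (fun u => (zone G lam u).1.length) (toFinite _) h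
  obtain ⟨f₀, -, hf, -⟩ := zone_last ho.2.1 ⟨x₀, ho.mem⟩
  have ft := first_le ho hf
  have fin : (Keys G lam D cl f₀).Finite := (toFinite _).image _
  refine (cover (T := insert f₀ ((fun z => z.1.dropLast) '' Keys G lam D cl f₀)) (toFinite _)
    ((fin.image _).insert _) (Unc G lam D cl)
    (fun s => ⟨(toFinite _).image _, unc_le H s⟩) ?_).trans ?_
  · rintro _ ⟨x, ⟨u, ⟨t, h1, h2, f, h3, h4, h5⟩, h6⟩, rfl⟩
    refine ⟨f, ?_, x, ⟨h4, h5⟩, rfl⟩
    have e : lam u = lam u₀ := congrArg Prod.fst h6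
    have l := hm u ⟨h6, x, t, h1, h2⟩
    have p0 : f₀ ++ [true] <+: lam u := e ▸ hf ▸ zone_pre
    have p1 := pre_of_len (h3 ▸ zone_pre) p0 (by simpa only [h3, hf] using l)
    rcases pre_app_cases p1 with a | a
    · exact .inl (List.append_cancel_right a)
    · refine .inr ⟨_, ⟨u, ⟨(pre_app _ _).trans p0, clean_up H ft (e ▸ ho.pre) (hc u h6),
        past_ne (zone_min h1.2.1 ⟨x, h1.mem⟩).2 (h3 ▸ a)⟩, rfl⟩, ?_⟩
      simp only [h3, List.dropLast_concat]
  · rw [mul_comm]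
    exact Nat.mul_le_mul_right _ ((ncard_insert_le _ _).trans
      (Nat.succ_le_succ ((ncard_image_le fin).trans (keys_le H _))))

end Xb

theorem xbSt : XbSt := fun _ _ _ _ _ _ _ _ _ _ _ _ H hs hq => ⟨Xb.one H hs hq, Xb.two H⟩

end Pool.Agent.MP_da1f04_co.I91
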